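import Mathlib

namespace Helper423Ceer

open Finset

theorem step_card {M N : ℕ} (T : Finset (Fin M → Fin N)) (k0 : Fin M)
    (forb : (Fin M → Fin N) → Fin N)
    (hT : ∀ w c, w ∈ T → Function.update w k0 c ∈ T)
    (hf : ∀ w c, forb (Function.update w k0 c) = forb w) :
    N * (T.filter (fun w => w k0 ≠ forb w)).card ≤ (N - 1) * T.card := by
  have h1 : T.card ≤ (T.filter (fun w => w k0 = forb w)).card * N := by
    have h2 : T.card ≤ ((T.filter (fun w => w k0 = forb w)) ×ˢ (univ : Finset (Fin N))).card := by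
      apply Finset.card_le_card_of_injOn
        (fun w => (Function.update w k0 (forb w), w k0))
      · intro w hw
        simp only [coe_product, Set.mem_prod, mem_coe, mem_filter, coe_univ, Set.mem_univ,
          and_true]
        refine ⟨hT w _ hw, ?_⟩
        simp [hf]
      · intro w _ w' _ h
        simp only [Prod.mk.injEq] at h
        obtain ⟨h1, h2⟩ := h
        funext k
        by_cases hk : k = k0
        · subst hk; exact h2
        · have := congrFun h1 k
          simpa [hk] using this
    simpa using h2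
  have h3 : (T.filter (fun w => w k0 = forb w)).card + (T.filter (fun w => w k0 ≠ forb w)).card
      = T.card := Finset.card_filter_add_card_filter_not (s := T) (fun w => w k0 = forb w)
  rcases Nat.eq_zero_or_pos N with hN | hN
  · subst hN; simp
  obtain ⟨x, rfl⟩ : ∃ x, N = x + 1 := ⟨N - 1, by omega⟩
  simp only [Nat.add_sub_cancel]
  nlinarith

theorem count_B {M N : ℕ} (S : Finset (Fin M)) (forb : Fin M → (Fin M → Fin N) → Fin N)
    (hdep : ∀ k ∈ S, ∀ k0, k ≤ k0 → ∀ w c, forb k (Function.update w k0 c) = forb k w) :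
    N ^ S.card * ((univ : Finset (Fin M → Fin N)).filter
      (fun w => ∀ k ∈ S, w k ≠ forb k w)).card ≤ (N - 1) ^ S.card * N ^ M := by
  classical
  induction S using Finset.induction_on_max with
  | empty => simp
  | insert k0 S hmax ih =>
    have hk0 : k0 ∉ S := fun h => lt_irrefl _ (hmax k0 h)
    have ih' := ih (fun k hk => hdep k (mem_insert_of_mem hk))
    set T := (univ : Finset (Fin M → Fin N)).filter (fun w => ∀ k ∈ S, w k ≠ forb k w) with hTdef
    have hst := step_card T k0 (forb k0)
      (by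
        intro w c hw
        simp only [hTdef, mem_filter, mem_univ, true_and] at hw ⊢
        intro k hk
        have hne : k ≠ k0 := ne_of_lt (hmax k hk)
        rw [hdep k (mem_insert_of_mem hk) k0 (le_of_lt (hmax k hk)), Function.update_of_ne hne]
        exact hw k hk)
      (fun w c => hdep k0 (mem_insert_self _ _) k0 le_rfl w c)
    have heq : ((univ : Finset (Fin M → Fin N)).filter
      (fun w => ∀ k ∈ insert k0 S, w k ≠ forb k w)) = T.filter (fun w => w k0 ≠ forb k0 w) := by
      ext w
      simp only [hTdef, mem_filter, mem_univ, true_and, mem_insert, forall_eq_or_imp]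
      tauto
    rw [heq, card_insert_of_notMem hk0, pow_succ, pow_succ]
    calc N ^ S.card * N * (T.filter (fun w => w k0 ≠ forb k0 w)).card
        = N ^ S.card * (N * (T.filter (fun w => w k0 ≠ forb k0 w)).card) := by ring
      _ ≤ N ^ S.card * ((N - 1) * T.card) := Nat.mul_le_mul_left _ hst
      _ = (N - 1) * (N ^ S.card * T.card) := by ring
      _ ≤ (N - 1) * ((N - 1) ^ S.card * N ^ M) := Nat.mul_le_mul_left _ ih'
      _ = (N - 1) ^ S.card * (N - 1) * N ^ M := by ring

theorem count_F {M N : ℕ} (S : Finset (Fin M)) (forb : Fin M → (Fin M → Fin N) → Fin N)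
    (hdep : ∀ k ∈ S, ∀ k0, k0 ≤ k → ∀ w c, forb k (Function.update w k0 c) = forb k w) :
    N ^ S.card * ((univ : Finset (Fin M → Fin N)).filter
      (fun w => ∀ k ∈ S, w k ≠ forb k w)).card ≤ (N - 1) ^ S.card * N ^ M := by
  classical
  induction S using Finset.induction_on_min with
  | empty => simp
  | insert k0 S hmax ih =>
    have hk0 : k0 ∉ S := fun h => lt_irrefl _ (hmax k0 h)
    have ih' := ih (fun k hk => hdep k (mem_insert_of_mem hk))
    set T := (univ : Finset (Fin M → Fin N)).filter (fun w => ∀ k ∈ S, w k ≠ forb k w) with hTdef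
    have hst := step_card T k0 (forb k0)
      (by
        intro w c hw
        simp only [hTdef, mem_filter, mem_univ, true_and] at hw ⊢
        intro k hk
        have hne : k ≠ k0 := ne_of_gt (hmax k hk)
        rw [hdep k (mem_insert_of_mem hk) k0 (le_of_lt (hmax k hk)), Function.update_of_ne hne]
        exact hw k hk)
      (fun w c => hdep k0 (mem_insert_self _ _) k0 le_rfl w c)
    have heq : ((univ : Finset (Fin M → Fin N)).filter
      (fun w => ∀ k ∈ insert k0 S, w k ≠ forb k w)) = T.filter (fun w => w k0 ≠ forb k0 w) := by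
      ext w
      simp only [hTdef, mem_filter, mem_univ, true_and, mem_insert, forall_eq_or_imp]
      tauto
    rw [heq, card_insert_of_notMem hk0, pow_succ, pow_succ]
    calc N ^ S.card * N * (T.filter (fun w => w k0 ≠ forb k0 w)).card
        = N ^ S.card * (N * (T.filter (fun w => w k0 ≠ forb k0 w)).card) := by ring
      _ ≤ N ^ S.card * ((N - 1) * T.card) := Nat.mul_le_mul_left _ hst
      _ = (N - 1) * (N ^ S.card * T.card) := by ring
      _ ≤ (N - 1) * ((N - 1) ^ S.card * N ^ M) := Nat.mul_le_mul_left _ ih'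
      _ = (N - 1) ^ S.card * (N - 1) * N ^ M := by ring

theorem bern (x m : ℕ) : x ^ m * (x + m) ≤ x * (x + 1) ^ m := by
  induction m with
  | zero => simp
  | succ m ih =>
    calc x ^ (m + 1) * (x + (m + 1)) = x ^ m * (x * (x + m + 1)) := by ring
      _ ≤ x ^ m * ((x + 1) * (x + m)) := by
          apply Nat.mul_le_mul_left; nlinarith
      _ = (x + 1) * (x ^ m * (x + m)) := by ring
      _ ≤ (x + 1) * (x * (x + 1) ^ m) := Nat.mul_le_mul_left _ ih
      _ = x * (x + 1) ^ (m + 1) := by ring

theorem two_pow_bound (x : ℕ) (hx : 1 ≤ x) : 2 * x ^ (x + 1) ≤ (x + 1) ^ (x + 1) := by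
  have h := bern x (x + 1)
  have h2 : x * (2 * x ^ (x + 1)) ≤ x * (x + 1) ^ (x + 1) := by
    refine le_trans ?_ h
    calc x * (2 * x ^ (x + 1)) = x ^ (x + 1) * (2 * x) := by ring
      _ ≤ x ^ (x + 1) * (x + (x + 1)) := by apply Nat.mul_le_mul_left; omega
  exact Nat.le_of_mul_le_mul_left h2 hx

theorem pow_count {N M q s c : ℕ} (hN : 2 ≤ N) (hs : N * q ≤ s)
    (h : N ^ s * c ≤ (N - 1) ^ s * N ^ M) : c * 2 ^ q ≤ N ^ M := by
  obtain ⟨x, rfl⟩ : ∃ x, N = x + 1 := ⟨N - 1, by omega⟩
  simp only [Nat.add_sub_cancel] at h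
  have hx : 1 ≤ x := by omega
  obtain ⟨d, rfl⟩ := Nat.exists_eq_add_of_le hs
  have h1 : 2 ^ q * x ^ ((x + 1) * q) ≤ (x + 1) ^ ((x + 1) * q) := by
    rw [pow_mul, pow_mul, ← mul_pow]
    exact Nat.pow_le_pow_left (two_pow_bound x hx) q
  have h2 : x ^ d ≤ (x + 1) ^ d := Nat.pow_le_pow_left (by omega) d
  have h3 : 2 ^ q * x ^ ((x + 1) * q + d) ≤ (x + 1) ^ ((x + 1) * q + d) := by
    rw [pow_add, pow_add]
    calc 2 ^ q * (x ^ ((x + 1) * q) * x ^ d) = (2 ^ q * x ^ ((x + 1) * q)) * x ^ d := by ring
      _ ≤ (x + 1) ^ ((x + 1) * q) * (x + 1) ^ d := Nat.mul_le_mul h1 h2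
  have hpos : 0 < (x + 1) ^ ((x + 1) * q + d) := by positivity
  apply Nat.le_of_mul_le_mul_left _ hpos
  calc (x + 1) ^ ((x + 1) * q + d) * (c * 2 ^ q)
      = 2 ^ q * ((x + 1) ^ ((x + 1) * q + d) * c) := by ring
    _ ≤ 2 ^ q * (x ^ ((x + 1) * q + d) * (x + 1) ^ M) := Nat.mul_le_mul_left _ h
    _ = (2 ^ q * x ^ ((x + 1) * q + d)) * (x + 1) ^ M := by ring
    _ ≤ (x + 1) ^ ((x + 1) * q + d) * (x + 1) ^ M := Nat.mul_le_mul_right _ h3

/-- The main counting lemma: a random choice survives all constraints only rarely. -/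
theorem count_main {M N q : ℕ} (hN : 2 ≤ N) (hM : 2 * (N * q) ≤ M)
    (Y : Fin M → Fin N ⊕ Fin M) :
    ((univ : Finset (Fin M → Fin N)).filter
      (fun w => ∀ k, w k ≠ Sum.elim id w (Y k))).card * 2 ^ q ≤ N ^ M := by
  classical
  by_cases hself : ∃ k, Y k = Sum.inr k
  · obtain ⟨k, hk⟩ := hself
    have : ((univ : Finset (Fin M → Fin N)).filter
      (fun w => ∀ k, w k ≠ Sum.elim id w (Y k))) = ∅ := by
      apply Finset.filter_eq_empty_iff.2
      intro w _ h
      apply h k
      rw [hk]; rfl
    rw [this]; simp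
  have hself' : ∀ k, Y k ≠ Sum.inr k := fun k hk => hself ⟨k, hk⟩
  set B : Finset (Fin M) := univ.filter (fun k => ∀ l, Y k = Sum.inr l → l < k) with hB
  set F : Finset (Fin M) := univ.filter (fun k => ∃ l, Y k = Sum.inr l ∧ k < l) with hF
  have hBF : B ∪ F = univ := by
    ext k
    simp only [hB, hF, mem_union, mem_filter, mem_univ, true_and, iff_true]
    by_cases h : ∃ l, Y k = Sum.inr l ∧ k < l
    · right; exact h
    · left
      intro l hl
      rcases lt_trichotomy l k with h1 | h1 | h1
      · exact h1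
      · subst h1; exact absurd hl (hself' _)
      · exact absurd ⟨l, hl, h1⟩ h
  have hcard : M ≤ B.card + F.card := by
    calc M = (univ : Finset (Fin M)).card := by simp
      _ = (B ∪ F).card := by rw [hBF]
      _ ≤ _ := card_union_le _ _
  rcases le_or_gt (N * q) B.card with h1 | h1
  · have hb := count_B B (fun k w => Sum.elim id w (Y k)) (by
      intro k hk k0 hk0 w c
      simp only [hB, mem_filter, mem_univ, true_and] at hk
      cases hY : Y k with
      | inl i => simp
      | inr l =>
        have hl := hk l hY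
        simp only [Sum.elim_inr]
        rw [Function.update_of_ne (ne_of_lt (lt_of_lt_of_le hl hk0))])
    have h2 : ((univ : Finset (Fin M → Fin N)).filter
      (fun w => ∀ k, w k ≠ Sum.elim id w (Y k))).card ≤ ((univ : Finset (Fin M → Fin N)).filter
      (fun w => ∀ k ∈ B, w k ≠ Sum.elim id w (Y k))).card := by
      apply card_le_card
      intro w hw
      simp only [mem_filter, mem_univ, true_and] at hw ⊢
      exact fun k _ => hw k
    exact le_trans (Nat.mul_le_mul_right _ h2) (pow_count hN h1 hb)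
  · have h1' : N * q ≤ F.card := by omega
    have hb := count_F F (fun k w => Sum.elim id w (Y k)) (by
      intro k hk k0 hk0 w c
      simp only [hF, mem_filter, mem_univ, true_and] at hk
      obtain ⟨l, hl, hkl⟩ := hk
      rw [hl]
      simp only [Sum.elim_inr]
      rw [Function.update_of_ne (ne_of_gt (lt_of_le_of_lt hk0 hkl))])
    have h2 : ((univ : Finset (Fin M → Fin N)).filter
      (fun w => ∀ k, w k ≠ Sum.elim id w (Y k))).card ≤ ((univ : Finset (Fin M → Fin N)).filter
      (fun w => ∀ k ∈ F, w k ≠ Sum.elim id w (Y k))).card := by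
      apply card_le_card
      intro w hw
      simp only [mem_filter, mem_univ, true_and] at hw ⊢
      exact fun k _ => hw k
    exact le_trans (Nat.mul_le_mul_right _ h2) (pow_count hN h1' hb)

/-- Averaging: some choice is good for a family of constraint systems. -/
theorem exists_choice {M N q : ℕ} (hN : 2 ≤ N) (hM : 2 * (N * q) ≤ M)
    {ι : Type*} (Q : Finset ι) (P : ι → (Fin M → Fin N) → Prop)
    [∀ i w, Decidable (P i w)]
    (hP : ∀ i ∈ Q, ∃ Y : Fin M → Fin N ⊕ Fin M, ∀ w, P i w → ∀ k, w k ≠ Sum.elim id w (Y k)) :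
    ∃ w : Fin M → Fin N, (Q.filter (fun i => P i w)).card * 2 ^ q ≤ Q.card := by
  classical
  by_contra hcon
  push Not at hcon
  have hsum : ∑ w : Fin M → Fin N, (Q.filter (fun i => P i w)).card
      = ∑ i ∈ Q, ((univ : Finset (Fin M → Fin N)).filter (fun w => P i w)).card := by
    simp only [card_filter]
    rw [Finset.sum_comm]
  have h1 : (∑ i ∈ Q, ((univ : Finset (Fin M → Fin N)).filter (fun w => P i w)).card) * 2 ^ q
      ≤ Q.card * N ^ M := by
    rw [Finset.sum_mul]
    calc ∑ i ∈ Q, ((univ : Finset (Fin M → Fin N)).filter (fun w => P i w)).card * 2 ^ q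
        ≤ ∑ i ∈ Q, N ^ M := by
          apply Finset.sum_le_sum
          intro i hi
          obtain ⟨Y, hY⟩ := hP i hi
          refine le_trans (Nat.mul_le_mul_right _ (card_le_card ?_)) (count_main hN hM Y)
          intro w hw
          simp only [mem_filter, mem_univ, true_and] at hw ⊢
          exact hY w hw
      _ = Q.card * N ^ M := by simp
  have hne : (univ : Finset (Fin M → Fin N)).Nonempty :=
    ⟨fun _ => ⟨0, by omega⟩, mem_univ _⟩
  have h2 : Q.card * N ^ M < (∑ w : Fin M → Fin N, (Q.filter (fun i => P i w)).card) * 2 ^ q := by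
    rw [Finset.sum_mul]
    calc Q.card * N ^ M = ∑ w : Fin M → Fin N, Q.card := by
          simp [mul_comm]
      _ < _ := Finset.sum_lt_sum_of_nonempty hne (fun w _ => hcon w)
  rw [hsum] at h2
  omega

end Helper423Ceer
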