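import Mathlib
import Pool.Agent.Helper423_Ceer.Count

namespace Helper423Ceer

open Nat.Partrec (Code)
open Nat.Partrec.Code Encodable Denumerable

/-- Block number, version number and index of a natural number `x ≥ 2`. -/
def blk (x : ℕ) : ℕ := (x - 2).unpair.1
def ver (x : ℕ) : ℕ := (x - 2).unpair.2.unpair.1
def idx (x : ℕ) : ℕ := (x - 2).unpair.2.unpair.2
def bb (n s k : ℕ) : ℕ := Nat.pair n (Nat.pair s k) + 2

@[simp] theorem blk_bb (n s k : ℕ) : blk (bb n s k) = n := by simp [blk, bb]
@[simp] theorem ver_bb (n s k : ℕ) : ver (bb n s k) = s := by simp [ver, bb]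
@[simp] theorem idx_bb (n s k : ℕ) : idx (bb n s k) = k := by simp [idx, bb]
theorem bb_ge (n s k : ℕ) : ¬ bb n s k < 2 := by simp [bb]
theorem bb_eta {z : ℕ} (h : ¬ z < 2) : bb (blk z) (ver z) (idx z) = z := by
  simp only [bb, blk, ver, idx, Nat.pair_unpair]; omega

theorem ver_le (x : ℕ) : ver x ≤ x := by
  unfold ver
  have h1 := Nat.unpair_left_le (x - 2).unpair.2
  have h2 := Nat.unpair_right_le (x - 2)
  omega

def NN (n : ℕ) : ℕ := Nat.rec 2 (fun m r => r + r * (4 * m + 4)) n
def MM (n : ℕ) : ℕ := NN n * (4 * n + 4)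

theorem NN_succ (n : ℕ) : NN (n + 1) = NN n + MM n := rfl
theorem NN_zero : NN 0 = 2 := rfl

theorem NN_mono {m n : ℕ} (h : m ≤ n) : NN m ≤ NN n := by
  induction n, h using Nat.le_induction with
  | base => exact le_rfl
  | succ n _ ih => rw [NN_succ]; omega

theorem two_le_NN (n : ℕ) : 2 ≤ NN n := NN_mono (Nat.zero_le n)

def newAt (a : ℕ → ℕ) (t : ℕ) : Prop := ∀ s ∈ List.range t, a s ≠ a t

instance (a : ℕ → ℕ) (t : ℕ) : Decidable (newAt a t) := by unfold newAt; infer_instance

/-- Current version of block `n` at stage `t`. -/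
def vv (a : ℕ → ℕ) (n t : ℕ) : ℕ :=
  Nat.rec 0 (fun s r => if newAt a s ∧ a s ≤ n then s + 1 else r) t

theorem vv_succ (a : ℕ → ℕ) (n t : ℕ) :
    vv a n (t + 1) = if newAt a t ∧ a t ≤ n then t + 1 else vv a n t := rfl

theorem vv_le (a : ℕ → ℕ) (n t : ℕ) : vv a n t ≤ t := by
  induction t with
  | zero => exact le_rfl
  | succ t ih => rw [vv_succ]; split_ifs <;> omega

theorem vv_mono (a : ℕ → ℕ) (n : ℕ) {s t : ℕ} (h : s ≤ t) : vv a n s ≤ vv a n t := by
  induction t, h using Nat.le_induction with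
  | base => exact le_rfl
  | succ t _ ih =>
    rw [vv_succ]; have := vv_le a n t; split_ifs <;> omega

theorem vv_eq {a : ℕ → ℕ} {n s t : ℕ} (h1 : vv a n t ≤ s) (h2 : s ≤ t) : vv a n s = vv a n t := by
  induction t, h2 using Nat.le_induction with
  | base => rfl
  | succ t hst ih =>
    rw [vv_succ] at h1 ⊢
    split_ifs with h
    · rw [if_pos h] at h1; omega
    · rw [if_neg h] at h1; exact ih h1

theorem lt_of_new {a : ℕ → ℕ} {n s t : ℕ} (h1 : vv a n t ≤ s) (h2 : s < t) (h : newAt a s) :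
    n < a s := by
  by_contra hcon
  have h3 : vv a n (s + 1) = s + 1 := by rw [vv_succ, if_pos ⟨h, by omega⟩]
  have h4 := vv_mono a n (show s + 1 ≤ t from h2)
  omega

/-- The `i`-th protected element, for block number `n` at stage `t`. -/
def el (a : ℕ → ℕ) (t i n : ℕ) : ℕ :=
  Nat.rec (if i = 1 then 1 else 0)
    (fun m r => if i < NN m then r else bb m (vv a m t) (i - NN m)) n

theorem el_succ (a : ℕ → ℕ) (t i n : ℕ) :
    el a t i (n + 1) = if i < NN n then el a t i n else bb n (vv a n t) (i - NN n) := rfl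

theorem el_zero (a : ℕ → ℕ) (t i : ℕ) : el a t i 0 = if i = 1 then 1 else 0 := rfl

theorem el_small (a : ℕ → ℕ) (t n : ℕ) {i : ℕ} (hi : i < 2) : el a t i n = i := by
  induction n with
  | zero => rw [el_zero]; split_ifs <;> omega
  | succ n ih => rw [el_succ, if_pos (lt_of_lt_of_le hi (two_le_NN n)), ih]

theorem el_big (a : ℕ → ℕ) (t : ℕ) {n m k : ℕ} (hm : m < n) (hk : k < MM m) :
    el a t (NN m + k) n = bb m (vv a m t) k := by
  induction n with
  | zero => omega
  | succ n ih =>
    rw [el_succ]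
    rcases Nat.lt_or_ge m n with h | h
    · have h1 : NN (m + 1) ≤ NN n := NN_mono h
      rw [NN_succ] at h1
      rw [if_pos (by omega), ih h]
    · obtain rfl : m = n := by omega
      rw [if_neg (by omega)]
      congr 1; omega

theorem el_ver (a : ℕ → ℕ) (t i n : ℕ) : el a t i n < 2 ∨ ver (el a t i n) ≤ t := by
  induction n with
  | zero => left; rw [el_zero]; split_ifs <;> omega
  | succ n ih =>
    rw [el_succ]
    split_ifs
    · exact ih
    · right; rw [ver_bb]; exact vv_le _ _ _

def cur (a : ℕ → ℕ) (t z : ℕ) : Prop := ver z = vv a (blk z) t ∧ idx z < MM (blk z)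

instance (a : ℕ → ℕ) (t z : ℕ) : Decidable (cur a t z) := by unfold cur; infer_instance

def tgt (a : ℕ → ℕ) (t n : ℕ) (w : List ℕ) (z : ℕ) : ℕ :=
  if z < 2 then z
  else if blk z < n ∧ cur a t z then NN (blk z) + idx z
  else if blk z = n ∧ cur a t z then w.getD (idx z) 0
  else 0

def FF (a : ℕ → ℕ) (t : ℕ) (w : List ℕ) (z : ℕ) : ℕ :=
  if ¬ newAt a t then z
  else if z < 2 ∨ (blk z < a t ∧ cur a t z) then z
  else if blk z = a t ∧ cur a t z then el a t (w.getD (idx z) 0) (a t)
  else if ver z ≤ t then 0 else z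

theorem FF_eq {a : ℕ → ℕ} {t : ℕ} (hnew : newAt a t) (w : List ℕ) {z : ℕ}
    (hz : z < 2 ∨ ver z ≤ t) : FF a t w z = el a t (tgt a t (a t) w z) (a t) := by
  unfold FF tgt
  rw [if_neg (by simpa using hnew)]
  by_cases h1 : z < 2
  · rw [if_pos (Or.inl h1), if_pos h1, el_small _ _ _ h1]
  · by_cases h2 : blk z < a t ∧ cur a t z
    · rw [if_pos (Or.inr h2), if_neg h1, if_pos h2, el_big _ _ h2.1 h2.2.2, ← h2.2.1, bb_eta h1]
    · rw [if_neg (by tauto), if_neg h1, if_neg h2]
      by_cases h3 : blk z = a t ∧ cur a t z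
      · rw [if_pos h3, if_pos h3]
      · rw [if_neg h3, if_neg h3, if_pos (by tauto), el_small _ _ _ (by norm_num)]

theorem FF_ver {a : ℕ → ℕ} {t T : ℕ} (hT : t ≤ T) (w : List ℕ) {z : ℕ}
    (hz : z < 2 ∨ ver z ≤ T) : FF a t w z < 2 ∨ ver (FF a t w z) ≤ T := by
  unfold FF
  by_cases h0 : ¬ newAt a t
  · rw [if_pos h0]; exact hz
  rw [if_neg h0]
  by_cases h1 : z < 2 ∨ (blk z < a t ∧ cur a t z)
  · rw [if_pos h1]; exact hz
  rw [if_neg h1]
  by_cases h2 : blk z = a t ∧ cur a t z
  · rw [if_pos h2]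
    rcases el_ver a t (w.getD (idx z) 0) (a t) with h | h
    · exact Or.inl h
    · exact Or.inr (le_trans h hT)
  rw [if_neg h2]
  by_cases h3 : ver z ≤ t
  · rw [if_pos h3]; left; norm_num
  · rw [if_neg h3]; exact hz

/-- Collapse with a given history of choices. -/
def rr (a : ℕ → ℕ) (H : List (List ℕ)) (t y : ℕ) : ℕ :=
  Nat.rec y (fun s z => FF a s (H.getD s []) z) t

theorem rr_succ (a : ℕ → ℕ) (H : List (List ℕ)) (t y : ℕ) :
    rr a H (t + 1) y = FF a t (H.getD t []) (rr a H t y) := rfl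

theorem rr_congr (a : ℕ → ℕ) {H H' : List (List ℕ)} {t : ℕ}
    (h : ∀ s < t, H.getD s [] = H'.getD s []) (y : ℕ) : rr a H t y = rr a H' t y := by
  induction t with
  | zero => rfl
  | succ t ih => rw [rr_succ, rr_succ, ih (fun s hs => h s (by omega)), h t (by omega)]

theorem rr_ver (a : ℕ → ℕ) (H : List (List ℕ)) {t T y : ℕ} (hT : t ≤ T)
    (hy : y < 2 ∨ ver y ≤ T) : rr a H t y < 2 ∨ ver (rr a H t y) ≤ T := by
  induction t with
  | zero => exact hy
  | succ t ih => rw [rr_succ]; exact FF_ver (by omega) _ (ih (by omega))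

theorem rr_small (a : ℕ → ℕ) (H : List (List ℕ)) (t : ℕ) {y : ℕ} (hy : y < 2) :
    rr a H t y = y := by
  induction t with
  | zero => rfl
  | succ t ih =>
    rw [rr_succ, ih]
    unfold FF
    by_cases h : newAt a t
    · rw [if_neg (by simpa using h), if_pos (Or.inl hy)]
    · rw [if_pos h]

theorem cur_fixed (a : ℕ → ℕ) (H : List (List ℕ)) {n t k s : ℕ} (hk : k < MM n) (hs : s ≤ t) :
    rr a H s (bb n (vv a n t) k) = bb n (vv a n t) k := by
  induction s with
  | zero => rfl
  | succ s ih =>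
    rw [rr_succ, ih (by omega)]
    set v := vv a n t with hv
    unfold FF
    by_cases hnew : newAt a s
    · rw [if_neg (by simpa using hnew)]
      rcases Nat.lt_or_ge s v with h | h
      · have hnc : ¬ cur a s (bb n v k) := by
          rintro ⟨h1, _⟩
          rw [ver_bb, blk_bb] at h1
          have := vv_le a n s
          omega
        rw [if_neg (by rintro (h1 | h1); exacts [bb_ge _ _ _ h1, hnc h1.2]),
          if_neg (fun h1 => hnc h1.2), if_neg (by rw [ver_bb]; omega)]
      · have h2 : vv a n s = v := vv_eq h (by omega)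
        have h3 : n < a s := lt_of_new h (by omega) hnew
        rw [if_pos (Or.inr ⟨by rw [blk_bb]; exact h3, by
          refine ⟨?_, ?_⟩
          · rw [ver_bb, blk_bb, h2]
          · rw [blk_bb, idx_bb]; exact hk⟩)]
    · rw [if_pos hnew]

/-- The oracle computation: code `c`, stage `t`, oracle string `r` of length `t`. -/
def outv (c : Code) (t r x : ℕ) : Option ℕ :=
  ((List.range (t + 1)).filterMap (fun s =>
    (evaln t c (Nat.pair s (Nat.pair (r % 2 ^ s) x))).bind
      (fun y => if y ≤ t then some y else none))).head?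

/-- Element number `k` is answered and the answer does not die. -/
def gk (a : ℕ → ℕ) (H : List (List ℕ)) (w : List ℕ) (t n j r k : ℕ) : Bool :=
  Option.casesOn (outv (ofNat Code j) t r (bb n (vv a n t) k)) false
    (fun y => !(decide (w.getD k 0 = tgt a t n w (rr a H t y))))

def surv (a : ℕ → ℕ) (H : List (List ℕ)) (w : List ℕ) (t n j r : ℕ) : Prop :=
  ∀ k ∈ List.range (MM n), gk a H w t n j r k = true

instance (a : ℕ → ℕ) (H : List (List ℕ)) (w : List ℕ) (t n j r : ℕ) :
    Decidable (surv a H w t n j r) := by unfold surv; infer_instance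

def cnt (a : ℕ → ℕ) (H : List (List ℕ)) (w : List ℕ) (t n : ℕ) : ℕ :=
  ((List.range ((n + 1) * 2 ^ t)).filter
    (fun q => decide (surv a H w t n (q / 2 ^ t) (q % 2 ^ t)))).length

def Good (a : ℕ → ℕ) (t : ℕ) (H : List (List ℕ)) (w : List ℕ) : Prop :=
  cnt a H w t (a t) * 2 ^ (a t + 1) ≤ 2 ^ t

instance (a : ℕ → ℕ) (t : ℕ) (H : List (List ℕ)) (w : List ℕ) :
    Decidable (Good a t H w) := by unfold Good; infer_instance

theorem exists_good (a : ℕ → ℕ) (t : ℕ) (H : List (List ℕ)) :
    ∃ i : ℕ, Good a t H (ofNat (List ℕ) i) := by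
  classical
  set n := a t with hn
  obtain ⟨w, hw⟩ := exists_choice (M := MM n) (N := NN n) (q := 2 * n + 2) (two_le_NN n)
    (le_of_eq (by unfold MM; ring)) (Finset.range ((n + 1) * 2 ^ t))
    (fun q w => surv a H (List.ofFn (fun k => (w k : ℕ))) t n (q / 2 ^ t) (q % 2 ^ t))
    (by
      intro q _
      have hk : ∀ k : Fin (MM n), ∃ Y : Fin (NN n) ⊕ Fin (MM n),
          ∀ w : Fin (MM n) → Fin (NN n),
            surv a H (List.ofFn (fun k => (w k : ℕ))) t n (q / 2 ^ t) (q % 2 ^ t) →
            w k ≠ Sum.elim id w Y := by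
        intro k
        have h0 : 0 < NN n := by have := two_le_NN n; omega
        cases hout : outv (ofNat Code (q / 2 ^ t)) t (q % 2 ^ t) (bb n (vv a n t) k) with
        | none =>
          refine ⟨Sum.inl ⟨0, h0⟩, ?_⟩
          intro w hs
          have := hs k (List.mem_range.2 k.2)
          simp [gk, hout] at this
        | some y =>
          have key : ∃ Y : Fin (NN n) ⊕ Fin (MM n), ∀ w : Fin (MM n) → Fin (NN n),
              ((Sum.elim id w Y : Fin (NN n)) : ℕ)
                = tgt a t n (List.ofFn (fun k => (w k : ℕ))) (rr a H t y) := by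
            set z := rr a H t y
            unfold tgt
            by_cases h1 : z < 2
            · exact ⟨Sum.inl ⟨z, lt_of_lt_of_le h1 (two_le_NN n)⟩, fun w => by simp [h1]⟩
            · by_cases h2 : blk z < n ∧ cur a t z
              · have h3 : NN (blk z) + idx z < NN n := by
                  have h4 : NN (blk z + 1) ≤ NN n := NN_mono h2.1
                  rw [NN_succ] at h4
                  have := h2.2.2
                  omega
                exact ⟨Sum.inl ⟨_, h3⟩, fun w => by simp [h1, h2]⟩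
              · by_cases h3 : blk z = n ∧ cur a t z
                · have h4 : idx z < MM n := by have := h3.2.2; rwa [h3.1] at this
                  refine ⟨Sum.inr ⟨idx z, h4⟩, fun w => ?_⟩
                  rw [if_neg h1, if_neg h2, if_pos h3]
                  simp [List.getD_eq_getElem?_getD, h4]
                · refine ⟨Sum.inl ⟨0, h0⟩, fun w => ?_⟩
                  rw [if_neg h1, if_neg h2, if_neg h3]
                  simp
          obtain ⟨Y, hY⟩ := key
          refine ⟨Y, fun w hs heq => ?_⟩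
          have h5 := hs k (List.mem_range.2 k.2)
          simp only [gk, hout, Bool.not_eq_true', decide_eq_false_iff_not] at h5
          apply h5
          rw [← hY w, ← heq]
          simp [List.getD_eq_getElem?_getD]
      choose Y hY using hk
      exact ⟨Y, fun w hs k => hY k w hs⟩)
  refine ⟨encode (List.ofFn (fun k => (w k : ℕ))), ?_⟩
  rw [ofNat_encode]
  unfold Good
  have hc : cnt a H (List.ofFn (fun k => (w k : ℕ))) t n
      = ((Finset.range ((n + 1) * 2 ^ t)).filter (fun q =>
        surv a H (List.ofFn (fun k => (w k : ℕ))) t n (q / 2 ^ t) (q % 2 ^ t))).card := by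
    unfold cnt
    rfl
  rw [← hn, hc]
  rw [Finset.card_range] at hw
  set C := ((Finset.range ((n + 1) * 2 ^ t)).filter (fun q =>
        surv a H (List.ofFn (fun k => (w k : ℕ))) t n (q / 2 ^ t) (q % 2 ^ t))).card with hC
  have hn2 : n + 1 ≤ 2 ^ (n + 1) := le_of_lt Nat.lt_two_pow_self
  have h6 : C * 2 ^ (n + 1) * 2 ^ (n + 1) ≤ 2 ^ t * 2 ^ (n + 1) := by
    calc C * 2 ^ (n + 1) * 2 ^ (n + 1) = C * 2 ^ (2 * n + 2) := by
          rw [mul_assoc, ← pow_add]; congr 2; ring
      _ ≤ (n + 1) * 2 ^ t := hw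
      _ ≤ 2 ^ (n + 1) * 2 ^ t := Nat.mul_le_mul_right _ hn2
      _ = 2 ^ t * 2 ^ (n + 1) := by ring
  exact Nat.le_of_mul_le_mul_right h6 (by positivity)

/-- History of choices. -/
def hist (a : ℕ → ℕ) (T : ℕ) : List (List ℕ) :=
  Nat.rec [] (fun t h => h ++ [ofNat (List ℕ) (Nat.find (exists_good a t h))]) T

theorem hist_succ (a : ℕ → ℕ) (t : ℕ) :
    hist a (t + 1) = hist a t ++ [ofNat (List ℕ) (Nat.find (exists_good a t (hist a t)))] := rfl

def ww (a : ℕ → ℕ) (t : ℕ) : List ℕ := ofNat (List ℕ) (Nat.find (exists_good a t (hist a t)))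

theorem ww_good (a : ℕ → ℕ) (t : ℕ) : Good a t (hist a t) (ww a t) :=
  Nat.find_spec (exists_good a t (hist a t))

theorem hist_length (a : ℕ → ℕ) (t : ℕ) : (hist a t).length = t := by
  induction t with
  | zero => rfl
  | succ t ih => rw [hist_succ]; simp [ih]

theorem hist_getD (a : ℕ → ℕ) {t T : ℕ} (h : t < T) : (hist a T).getD t [] = ww a t := by
  induction T with
  | zero => omega
  | succ T ih =>
    rw [hist_succ]
    rcases Nat.lt_or_ge t T with h1 | h1
    · rw [List.getD_append _ _ _ _ (by rw [hist_length]; exact h1)]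
      exact ih h1
    · obtain rfl : t = T := by omega
      rw [List.getD_append_right _ _ _ _ (by rw [hist_length])]
      simp [hist_length, ww]

def RR (a : ℕ → ℕ) (t y : ℕ) : ℕ := rr a (hist a t) t y

theorem RR_succ (a : ℕ → ℕ) (t y : ℕ) : RR a (t + 1) y = FF a t (ww a t) (RR a t y) := by
  unfold RR
  rw [rr_succ, hist_getD a (Nat.lt_succ_self t)]
  congr 1
  apply rr_congr
  intro s hs
  rw [hist_getD a (by omega), hist_getD a hs]

theorem RR_zero (a : ℕ → ℕ) (y : ℕ) : RR a 0 y = y := rfl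

def EE (a : ℕ → ℕ) (x y : ℕ) : Prop := ∃ t, RR a t x = RR a t y

theorem RR_mono (a : ℕ → ℕ) {s t x y : ℕ} (h : s ≤ t) (he : RR a s x = RR a s y) :
    RR a t x = RR a t y := by
  induction t, h using Nat.le_induction with
  | base => exact he
  | succ t _ ih => rw [RR_succ, RR_succ, ih]

theorem EE_equiv (a : ℕ → ℕ) : Equivalence (EE a) where
  refl x := ⟨0, rfl⟩
  symm := fun ⟨t, h⟩ => ⟨t, h.symm⟩
  trans := fun ⟨t, h⟩ ⟨s, h'⟩ =>
    ⟨max t s, (RR_mono a (le_max_left _ _) h).trans (RR_mono a (le_max_right _ _) h')⟩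

theorem EE_ne (a : ℕ → ℕ) : ¬ EE a 0 1 := by
  rintro ⟨t, h⟩
  unfold RR at h
  rw [rr_small _ _ _ (by norm_num), rr_small _ _ _ (by norm_num)] at h
  exact absurd h (by norm_num)

end Helper423Ceer
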