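import Mathlib
import Pool.Agent.Helper423_Ceer.Constr

namespace Helper423Ceer

open Nat.Partrec (Code)
open Nat.Partrec.Code Encodable Denumerable
open Primrec (fst snd)

theorem prim_blk : Primrec blk :=
  fst.comp (Primrec.unpair.comp (Primrec.nat_sub.comp Primrec.id (Primrec.const 2)))

theorem prim_ver : Primrec ver :=
  fst.comp (Primrec.unpair.comp (snd.comp (Primrec.unpair.comp
    (Primrec.nat_sub.comp Primrec.id (Primrec.const 2)))))

theorem prim_idx : Primrec idx :=
  snd.comp (Primrec.unpair.comp (snd.comp (Primrec.unpair.comp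
    (Primrec.nat_sub.comp Primrec.id (Primrec.const 2)))))

theorem prim_bb {α : Type*} [Primcodable α] {f g h : α → ℕ} (hf : Primrec f) (hg : Primrec g)
    (hh : Primrec h) : Primrec (fun x => bb (f x) (g x) (h x)) :=
  Primrec.nat_add.comp (Primrec₂.natPair.comp hf (Primrec₂.natPair.comp hg hh)) (Primrec.const 2)

theorem prim_NN : Primrec NN := by
  unfold NN
  exact Primrec.nat_rec₁ 2 (Primrec.nat_add.comp snd (Primrec.nat_mul.comp snd
    (Primrec.nat_add.comp (Primrec.nat_mul.comp (Primrec.const 4) fst) (Primrec.const 4))))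

theorem prim_MM : Primrec MM :=
  Primrec.nat_mul.comp prim_NN
    (Primrec.nat_add.comp (Primrec.nat_mul.comp (Primrec.const 4) Primrec.id) (Primrec.const 4))

theorem prim_pow2 : Primrec (fun n : ℕ => 2 ^ n) := by
  have h : Primrec (fun n : ℕ => (Nat.rec 1 (fun _ r => r * 2) n : ℕ)) :=
    Primrec.nat_rec₁ 1 (Primrec.nat_mul.comp snd (Primrec.const 2))
  refine h.of_eq (fun n => ?_)
  induction n with
  | zero => rfl
  | succ n ih => rw [pow_succ, ← ih]

variable {a : ℕ → ℕ} (ha : Primrec a)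
include ha

theorem prim_newAt : PrimrecPred (newAt a) := by
  have h : PrimrecRel (fun s t : ℕ => a s ≠ a t) :=
    PrimrecPred.not (Primrec.eq.comp (ha.comp fst) (ha.comp snd))
  exact (PrimrecRel.forall_mem_list h).comp Primrec.list_range Primrec.id

theorem prim_vv : Primrec₂ (vv a) := by
  unfold vv
  refine Primrec.nat_rec (f := fun _ : ℕ => 0)
    (g := fun (n : ℕ) (p : ℕ × ℕ) => if newAt a p.1 ∧ a p.1 ≤ n then p.1 + 1 else p.2)
    (Primrec.const 0) ?_
  refine Primrec.ite (PrimrecPred.and ((prim_newAt ha).comp (fst.comp snd))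
    (Primrec.nat_le.comp (ha.comp (fst.comp snd)) fst)) ?_ ?_
  · exact Primrec.succ.comp (fst.comp snd)
  · exact snd.comp snd

theorem prim_el : Primrec₂ (fun (p : ℕ × ℕ) (n : ℕ) => el a p.1 p.2 n) := by
  unfold el
  refine Primrec.nat_rec (f := fun p : ℕ × ℕ => if p.2 = 1 then 1 else 0)
    (g := fun (p : ℕ × ℕ) (q : ℕ × ℕ) =>
      if p.2 < NN q.1 then q.2 else bb q.1 (vv a q.1 p.1) (p.2 - NN q.1)) ?_ ?_
  · exact Primrec.ite (Primrec.eq.comp snd (Primrec.const 1)) (Primrec.const 1) (Primrec.const 0)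
  · refine Primrec.ite (Primrec.nat_lt.comp (snd.comp fst) (prim_NN.comp (fst.comp snd))) ?_ ?_
    · exact snd.comp snd
    · exact prim_bb (fst.comp snd) ((prim_vv ha).comp (fst.comp snd) (fst.comp fst))
        (Primrec.nat_sub.comp (snd.comp fst) (prim_NN.comp (fst.comp snd)))

theorem prim_cur : PrimrecRel (cur a) := by
  refine PrimrecPred.and (Primrec.eq.comp (prim_ver.comp snd)
    ((prim_vv ha).comp (prim_blk.comp snd) fst))
    (Primrec.nat_lt.comp (prim_idx.comp snd) (prim_MM.comp (prim_blk.comp snd)))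

theorem prim_tgt {α : Type*} [Primcodable α] {t n z : α → ℕ} {w : α → List ℕ}
    (ht : Primrec t) (hn : Primrec n) (hw : Primrec w) (hz : Primrec z) :
    Primrec (fun x => tgt a (t x) (n x) (w x) (z x)) := by
  unfold tgt
  have hcur : PrimrecPred (fun x => cur a (t x) (z x)) := (prim_cur ha).comp ht hz
  refine Primrec.ite (Primrec.nat_lt.comp hz (Primrec.const 2)) hz ?_
  refine Primrec.ite (PrimrecPred.and (Primrec.nat_lt.comp (prim_blk.comp hz) hn) hcur)
    (Primrec.nat_add.comp (prim_NN.comp (prim_blk.comp hz)) (prim_idx.comp hz)) ?_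
  exact Primrec.ite (PrimrecPred.and (Primrec.eq.comp (prim_blk.comp hz) hn) hcur)
    ((Primrec.list_getD 0).comp hw (prim_idx.comp hz)) (Primrec.const 0)

theorem prim_FF {α : Type*} [Primcodable α] {t z : α → ℕ} {w : α → List ℕ}
    (ht : Primrec t) (hw : Primrec w) (hz : Primrec z) :
    Primrec (fun x => FF a (t x) (w x) (z x)) := by
  unfold FF
  have hcur : PrimrecPred (fun x => cur a (t x) (z x)) := (prim_cur ha).comp ht hz
  refine Primrec.ite (PrimrecPred.not ((prim_newAt ha).comp ht)) hz ?_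
  refine Primrec.ite (PrimrecPred.or (Primrec.nat_lt.comp hz (Primrec.const 2))
    (PrimrecPred.and (Primrec.nat_lt.comp (prim_blk.comp hz) (ha.comp ht)) hcur)) hz ?_
  refine Primrec.ite (PrimrecPred.and (Primrec.eq.comp (prim_blk.comp hz) (ha.comp ht)) hcur) ?_ ?_
  · exact (prim_el ha).comp (Primrec.pair ht ((Primrec.list_getD 0).comp hw (prim_idx.comp hz)))
      (ha.comp ht)
  · exact Primrec.ite (Primrec.nat_le.comp (prim_ver.comp hz) ht) (Primrec.const 0) hz

theorem prim_rr : Primrec₂ (fun (p : List (List ℕ) × ℕ) (t : ℕ) => rr a p.1 t p.2) := by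
  unfold rr
  refine Primrec.nat_rec (f := fun p : List (List ℕ) × ℕ => p.2)
    (g := fun (p : List (List ℕ) × ℕ) (q : ℕ × ℕ) => FF a q.1 (p.1.getD q.1 []) q.2) snd ?_
  exact prim_FF ha (fst.comp snd)
    ((Primrec.list_getD []).comp (fst.comp fst) (fst.comp snd)) (snd.comp snd)

omit ha in
theorem prim_outv {α : Type*} [Primcodable α] {c : α → Code} {t r x : α → ℕ}
    (hc : Primrec c) (ht : Primrec t) (hr : Primrec r) (hx : Primrec x) :
    Primrec (fun p => outv (c p) (t p) (r p) (x p)) := by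
  unfold outv
  refine Primrec.list_head?.comp (Primrec.listFilterMap
    (f := fun p => List.range (t p + 1))
    (g := fun p s => (evaln (t p) (c p) (Nat.pair s (Nat.pair (r p % 2 ^ s) (x p)))).bind
      (fun y => if y ≤ t p then some y else none))
    (Primrec.list_range.comp (Primrec.succ.comp ht)) ?_)
  refine Primrec.option_bind
    (f := fun q : α × ℕ => evaln (t q.1) (c q.1) (Nat.pair q.2 (Nat.pair (r q.1 % 2 ^ q.2) (x q.1))))
    (g := fun (q : α × ℕ) (y : ℕ) => if y ≤ t q.1 then some y else none) ?_ ?_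
  · exact primrec_evaln.comp (Primrec.pair (Primrec.pair (ht.comp fst) (hc.comp fst))
      (Primrec₂.natPair.comp snd (Primrec₂.natPair.comp
        (Primrec.nat_mod.comp (hr.comp fst) (prim_pow2.comp snd)) (hx.comp fst))))
  · exact Primrec.ite (Primrec.nat_le.comp snd (ht.comp (fst.comp fst)))
      (Primrec.option_some.comp snd) (Primrec.const none)

/-- Parameter space: `((H, w), (t, n), (j, r))`. -/
abbrev Par := (List (List ℕ) × List ℕ) × (ℕ × ℕ) × (ℕ × ℕ)

theorem prim_gk : Primrec₂ (fun (p : Par) (k : ℕ) =>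
    gk a p.1.1 p.1.2 p.2.1.1 p.2.1.2 p.2.2.1 p.2.2.2 k) := by
  unfold gk
  have hH : Primrec (fun q : Par × ℕ => q.1.1.1) := fst.comp (fst.comp fst)
  have hw : Primrec (fun q : Par × ℕ => q.1.1.2) := snd.comp (fst.comp fst)
  have ht : Primrec (fun q : Par × ℕ => q.1.2.1.1) := fst.comp (fst.comp (snd.comp fst))
  have hn : Primrec (fun q : Par × ℕ => q.1.2.1.2) := snd.comp (fst.comp (snd.comp fst))
  have hj : Primrec (fun q : Par × ℕ => q.1.2.2.1) := fst.comp (snd.comp (snd.comp fst))
  have hr : Primrec (fun q : Par × ℕ => q.1.2.2.2) := snd.comp (snd.comp (snd.comp fst))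
  refine Primrec.option_casesOn
    (o := fun q : Par × ℕ => outv (ofNat Code q.1.2.2.1) q.1.2.1.1 q.1.2.2.2
      (bb q.1.2.1.2 (vv a q.1.2.1.2 q.1.2.1.1) q.2))
    (f := fun _ => false)
    (g := fun (q : Par × ℕ) (y : ℕ) => !(decide (q.1.1.2.getD q.2 0
      = tgt a q.1.2.1.1 q.1.2.1.2 q.1.1.2 (rr a q.1.1.1 q.1.2.1.1 y)))) ?_ ?_ ?_
  · exact prim_outv ((Primrec.ofNat Code).comp hj) ht hr (prim_bb hn ((prim_vv ha).comp hn ht) snd)
  · exact Primrec.const false
  · refine Primrec.not.comp ?_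
    refine (PrimrecPred.decide (Primrec.eq.comp ?_ ?_))
    · exact (Primrec.list_getD 0).comp (hw.comp fst) (snd.comp fst)
    · exact prim_tgt ha (ht.comp fst) (hn.comp fst) (hw.comp fst)
        ((prim_rr ha).comp (Primrec.pair (hH.comp fst) snd) (ht.comp fst))

theorem prim_surv : PrimrecPred (fun p : Par =>
    surv a p.1.1 p.1.2 p.2.1.1 p.2.1.2 p.2.2.1 p.2.2.2) := by
  unfold surv
  have h : PrimrecRel (fun (k : ℕ) (p : Par) =>
      gk a p.1.1 p.1.2 p.2.1.1 p.2.1.2 p.2.2.1 p.2.2.2 k = true) :=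
    Primrec.eq.comp ((prim_gk ha).comp snd fst) (Primrec.const true)
  exact (PrimrecRel.forall_mem_list h).comp
    (Primrec.list_range.comp (prim_MM.comp (snd.comp (fst.comp snd)))) Primrec.id

theorem prim_cnt : Primrec (fun p : (List (List ℕ) × List ℕ) × (ℕ × ℕ) =>
    cnt a p.1.1 p.1.2 p.2.1 p.2.2) := by
  unfold cnt
  have h : PrimrecRel (fun (q : ℕ) (p : (List (List ℕ) × List ℕ) × (ℕ × ℕ)) =>
      surv a p.1.1 p.1.2 p.2.1 p.2.2 (q / 2 ^ p.2.1) (q % 2 ^ p.2.1)) := by
    have hp2 : Primrec (fun x : ℕ × ((List (List ℕ) × List ℕ) × (ℕ × ℕ)) => 2 ^ x.2.2.1) :=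
      prim_pow2.comp (fst.comp (snd.comp snd))
    exact (prim_surv ha).comp (Primrec.pair (fst.comp snd) (Primrec.pair (snd.comp snd)
      (Primrec.pair (Primrec.nat_div.comp fst hp2) (Primrec.nat_mod.comp fst hp2))))
  refine Primrec.list_length.comp ((PrimrecRel.listFilter h).comp
    (g := fun p : (List (List ℕ) × List ℕ) × (ℕ × ℕ) => List.range ((p.2.2 + 1) * 2 ^ p.2.1))
    (h := fun p => p) ?_ Primrec.id)
  exact Primrec.list_range.comp (Primrec.nat_mul.comp (Primrec.succ.comp (snd.comp snd))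
    (prim_pow2.comp (fst.comp snd)))

theorem prim_Good : PrimrecPred (fun p : (ℕ × List (List ℕ)) × ℕ =>
    Good a p.1.1 p.1.2 (ofNat (List ℕ) p.2)) := by
  unfold Good
  have ht : Primrec (fun p : (ℕ × List (List ℕ)) × ℕ => p.1.1) := fst.comp fst
  refine Primrec.nat_le.comp (Primrec.nat_mul.comp ?_ ?_) (prim_pow2.comp ht)
  · exact (prim_cnt ha).comp (Primrec.pair (Primrec.pair (snd.comp fst)
      ((Primrec.ofNat (List ℕ)).comp snd)) (Primrec.pair ht (ha.comp ht)))
  · exact prim_pow2.comp (Primrec.succ.comp (ha.comp ht))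

theorem comp_find : Computable (fun p : ℕ × List (List ℕ) =>
    Nat.find (exists_good a p.1 p.2)) :=
  Computable.find (P := fun (p : ℕ × List (List ℕ)) (i : ℕ) =>
    Good a p.1 p.2 (ofNat (List ℕ) i)) (prim_Good ha).computablePred
    (fun p => exists_good a p.1 p.2)

theorem comp_hist : Computable (hist a) := by
  unfold hist
  have h : Computable₂ (fun (_ : ℕ) (p : ℕ × List (List ℕ)) =>
      p.2 ++ [ofNat (List ℕ) (Nat.find (exists_good a p.1 p.2))]) := by
    have h1 : Computable (fun q : ℕ × (ℕ × List (List ℕ)) =>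
        ofNat (List ℕ) (Nat.find (exists_good a q.2.1 q.2.2))) :=
      (Primrec.ofNat (List ℕ)).to_comp.comp ((comp_find ha).comp Computable.snd)
    exact (Primrec.list_concat.to_comp).comp (Computable.snd.comp Computable.snd) h1
  exact Computable.nat_rec (f := fun t : ℕ => t) (g := fun _ : ℕ => ([] : List (List ℕ)))
    Computable.id (Computable.const []) h

theorem comp_RR : Computable₂ (RR a) := by
  unfold RR
  exact (prim_rr ha).to_comp.comp
    (Computable.pair ((comp_hist ha).comp Computable.fst) Computable.snd) Computable.fst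

theorem re_EE : REPred (fun p : ℕ × ℕ => EE a p.1 p.2) := by
  have h1 : ComputablePred (fun q : (ℕ × ℕ) × ℕ => RR a q.2 q.1.1 = RR a q.2 q.1.2) := by
    have h3 : Computable (fun q : (ℕ × ℕ) × ℕ =>
        decide (RR a q.2 q.1.1 = RR a q.2 q.1.2)) :=
      (Primrec.eq (α := ℕ)).decide.to_comp.comp
        ((comp_RR ha).comp Computable.snd (Computable.fst.comp Computable.fst))
        ((comp_RR ha).comp Computable.snd (Computable.snd.comp Computable.fst))
    exact h3.computablePred
  have h4 : Partrec (fun p : ℕ × ℕ =>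
      Nat.rfind (fun t => Part.some (decide (RR a t p.1 = RR a t p.2)))) :=
    Partrec.rfind h1.decide.partrec
  refine (Partrec.dom_re h4).of_eq (fun p => ?_)
  constructor
  · intro h
    obtain ⟨t, ht, _⟩ := Nat.rfind_dom.1 h
    exact ⟨t, by simpa using ht⟩
  · rintro ⟨t, ht⟩
    exact Nat.rfind_dom.2 ⟨t, by simpa using ht, fun _ => trivial⟩

end Helper423Ceer
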