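import Mathlib
import Pool.Agent.Helper423_Ceer.Prim

namespace Helper423Ceer

open Nat.Partrec (Code)
open Nat.Partrec.Code Encodable Denumerable
open Primrec (fst snd)

/-- The word of the first `k` values of `X`, as a number in base `4`. -/
def wd (X : ℕ → ℕ) : ℕ → ℕ
  | 0 => 0
  | k + 1 => 4 * wd X k + X k

theorem wd_congr {X Y : ℕ → ℕ} {k : ℕ} (h : ∀ i < k, X i = Y i) : wd X k = wd Y k := by
  induction k with
  | zero => rfl
  | succ k ih => simp only [wd]; rw [ih (fun i hi => h i (by omega)), h k (by omega)]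

theorem wd_div {X : ℕ → ℕ} (hX : ∀ i, X i < 4) {j k : ℕ} (h : j ≤ k) :
    wd X k / 4 ^ (k - j) = wd X j := by
  induction k, h using Nat.le_induction with
  | base => simp
  | succ k hk ih =>
    have e1 : k + 1 - j = (k - j) + 1 := by omega
    rw [e1, pow_succ, mul_comm (4 ^ (k - j)) 4, ← Nat.div_div_eq_div_mul]
    have e2 : wd X (k + 1) / 4 = wd X k := by
      have := hX k
      simp only [wd]
      omega
    rw [e2, ih]

open Classical in
/-- `B` is `q`-big above the word `w` with `j` levels to go. -/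
def big (q : ℕ) (B : ℕ → Prop) : ℕ → ℕ → Prop
  | 0, w => B w
  | j + 1, w => q ≤ ((Finset.range 4).filter fun v => big q B j (4 * w + v)).card

theorem big_mono {q : ℕ} {B B' : ℕ → Prop} (h : ∀ w, B w → B' w) (j : ℕ) :
    ∀ w, big q B j w → big q B' j w := by
  classical
  induction j with
  | zero => intro w; exact h w
  | succ j ih =>
    intro w hw
    simp only [big] at hw ⊢
    refine le_trans hw (Finset.card_le_card ?_)
    intro v hv
    rw [Finset.mem_filter] at hv ⊢
    exact ⟨hv.1, ih _ hv.2⟩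

theorem big_split {B0 B1 : ℕ → Prop} (j : ℕ) :
    ∀ w, big 3 (fun w => B0 w ∨ B1 w) j w → big 2 B0 j w ∨ big 2 B1 j w := by
  classical
  induction j with
  | zero => intro w h; exact h
  | succ j ih =>
    intro w hw
    simp only [big] at hw ⊢
    by_contra hcon
    push Not at hcon
    have h1 : ((Finset.range 4).filter fun v => big 3 (fun w => B0 w ∨ B1 w) j (4 * w + v)) ⊆
        ((Finset.range 4).filter fun v => big 2 B0 j (4 * w + v)) ∪
        ((Finset.range 4).filter fun v => big 2 B1 j (4 * w + v)) := by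
      intro v hv
      rw [Finset.mem_filter] at hv
      rw [Finset.mem_union, Finset.mem_filter, Finset.mem_filter]
      rcases ih _ hv.2 with h | h
      · exact Or.inl ⟨hv.1, h⟩
      · exact Or.inr ⟨hv.1, h⟩
    have h2 := le_trans (Finset.card_le_card h1) (Finset.card_union_le _ _)
    omega

theorem big_lim {q : ℕ} {B : ℕ → ℕ → Prop} (hm : ∀ s t w, s ≤ t → B s w → B t w) (j : ℕ) :
    ∀ w, big q (fun w => ∃ s, B s w) j w → ∃ s, big q (B s) j w := by
  classical
  induction j with
  | zero => intro w h; exact h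
  | succ j ih =>
    intro w hw
    simp only [big] at hw ⊢
    have h1 : ∀ v, ∃ s, big q (fun w => ∃ s, B s w) j (4 * w + v) →
        big q (B s) j (4 * w + v) := by
      intro v
      by_cases h : big q (fun w => ∃ s, B s w) j (4 * w + v)
      · obtain ⟨s, hs⟩ := ih _ h
        exact ⟨s, fun _ => hs⟩
      · exact ⟨0, fun h' => absurd h' h⟩
    choose S hS using h1
    refine ⟨(Finset.range 4).sup S, le_trans hw (Finset.card_le_card ?_)⟩
    intro v hv
    rw [Finset.mem_filter] at hv ⊢
    exact ⟨hv.1, big_mono (fun w => hm _ _ w (Finset.le_sup (f := S) hv.1)) j _ (hS v hv.2)⟩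

/-- Valid sequences: at each place at most one value is bad. -/
def Valid (bad : ℕ → ℕ → Prop) (X : ℕ → ℕ) : Prop := ∀ k, X k < 4 ∧ ¬ bad k (X k)

theorem Valid.update {bad : ℕ → ℕ → Prop} {X : ℕ → ℕ} (hX : Valid bad X) {k v : ℕ} (hv : v < 4)
    (hb : ¬ bad k v) : Valid bad (Function.update X k v) := by
  intro i
  by_cases hi : i = k
  · subst hi; simp [hv, hb]
  · simp only [Function.update_of_ne hi]
    exact hX i

theorem wd_update (X : ℕ → ℕ) (k v : ℕ) : wd (Function.update X k v) (k + 1) =
    4 * wd X k + v := by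
  simp only [wd, Function.update_self]
  rw [wd_congr (Y := X) (fun i hi => Function.update_of_ne (by omega) _ _)]

theorem sel_big {bad : ℕ → ℕ → Prop} (hbad : ∀ k v v', bad k v → bad k v' → v = v')
    {B : ℕ → Prop} (j : ℕ) : ∀ (k : ℕ) (X : ℕ → ℕ), Valid bad X → big 2 B j (wd X k) →
    ∃ Y, Valid bad Y ∧ (∀ i < k, Y i = X i) ∧ B (wd Y (k + j)) := by
  classical
  induction j with
  | zero => intro k X hX h; exact ⟨X, hX, fun _ _ => rfl, h⟩
  | succ j ih =>
    intro k X hX h
    simp only [big] at h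
    obtain ⟨v, hv, v', hv', hne⟩ := Finset.one_lt_card.1 (lt_of_lt_of_le (by norm_num) h)
    rw [Finset.mem_filter, Finset.mem_range] at hv hv'
    obtain ⟨u, hu4, hub, hu⟩ : ∃ u < 4, ¬ bad k u ∧ big 2 B j (4 * wd X k + u) := by
      by_cases hb : bad k v
      · refine ⟨v', hv'.1, fun hb' => hne (hbad k v v' hb hb'), hv'.2⟩
      · exact ⟨v, hv.1, hb, hv.2⟩
    obtain ⟨Y, hY1, hY2, hY3⟩ := ih (k + 1) (Function.update X k u) (hX.update hu4 hub)
      (by rw [wd_update]; exact hu)
    refine ⟨Y, hY1, fun i hi => ?_, ?_⟩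
    · rw [hY2 i (by omega), Function.update_of_ne (by omega)]
    · have : k + (j + 1) = k + 1 + j := by omega
      rw [this]; exact hY3

theorem sel_small {bad : ℕ → ℕ → Prop} (hbad : ∀ k v v', bad k v → bad k v' → v = v')
    {B : ℕ → Prop} (j : ℕ) : ∀ (k : ℕ) (X : ℕ → ℕ), Valid bad X → ¬ big 3 B j (wd X k) →
    ∃ Y, Valid bad Y ∧ (∀ i < k, Y i = X i) ∧ ¬ B (wd Y (k + j)) := by
  classical
  induction j with
  | zero => intro k X hX h; exact ⟨X, hX, fun _ _ => rfl, h⟩
  | succ j ih =>
    intro k X hX h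
    simp only [big] at h
    have h4 : ((Finset.range 4).filter fun v => big 3 B j (4 * wd X k + v)).card +
        ((Finset.range 4).filter fun v => ¬ big 3 B j (4 * wd X k + v)).card = 4 := by
      rw [Finset.card_filter_add_card_filter_not]; simp
    obtain ⟨v, hv, v', hv', hne⟩ := Finset.one_lt_card.1
      (show 1 < ((Finset.range 4).filter fun v => ¬ big 3 B j (4 * wd X k + v)).card by omega)
    rw [Finset.mem_filter, Finset.mem_range] at hv hv'
    obtain ⟨u, hu4, hub, hu⟩ : ∃ u < 4, ¬ bad k u ∧ ¬ big 3 B j (4 * wd X k + u) := by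
      by_cases hb : bad k v
      · refine ⟨v', hv'.1, fun hb' => hne (hbad k v v' hb hb'), hv'.2⟩
      · exact ⟨v, hv.1, hb, hv.2⟩
    obtain ⟨Y, hY1, hY2, hY3⟩ := ih (k + 1) (Function.update X k u) (hX.update hu4 hub)
      (by rw [wd_update]; exact hu)
    refine ⟨Y, hY1, fun i hi => ?_, ?_⟩
    · rw [hY2 i (by omega), Function.update_of_ne (by omega)]
    · have : k + (j + 1) = k + 1 + j := by omega
      rw [this]; exact hY3

end Helper423Ceer
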