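import Mathlib
import Pool.Agent.Helper423_Ceer.Prim

namespace Helper423Ceer

open Nat.Partrec (Code)
open Nat.Partrec.Code Encodable Denumerable
open Primrec (fst snd)

/-- The first `t` bits of `X`, coded by a number below `2 ^ t` (bit `i` has weight `2 ^ i`). -/
def pre (X : ℕ → Bool) (t : ℕ) : ℕ := ∑ i ∈ Finset.range t, if X i then 2 ^ i else 0

theorem pre_succ (X : ℕ → Bool) (t : ℕ) :
    pre X (t + 1) = pre X t + if X t then 2 ^ t else 0 := Finset.sum_range_succ _ _

theorem pre_lt (X : ℕ → Bool) (t : ℕ) : pre X t < 2 ^ t := by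
  induction t with
  | zero => simp [pre]
  | succ t ih => rw [pre_succ, pow_succ]; split_ifs <;> omega

theorem pre_mod (X : ℕ → Bool) {s t : ℕ} (h : s ≤ t) : pre X t % 2 ^ s = pre X s := by
  induction t, h using Nat.le_induction with
  | base => exact Nat.mod_eq_of_lt (pre_lt X s)
  | succ t hst ih =>
    rw [pre_succ]
    split_ifs
    · have h2 : 2 ^ s ∣ 2 ^ t := pow_dvd_pow 2 hst
      rw [Nat.add_mod, (Nat.dvd_iff_mod_eq_zero).1 h2, add_zero, Nat.mod_mod, ih]
    · rw [add_zero, ih]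

/-- `X` computes `g`: a partial recursive functional, given longer and longer initial segments of
the oracle `X`, outputs exactly the values of `g`. -/
def Computes (X : ℕ → Bool) (g : ℕ → ℕ) : Prop :=
  ∃ f : ℕ →. ℕ, Nat.Partrec f ∧
    ∀ x y, g x = y ↔ ∃ s, y ∈ f (Nat.pair s (Nat.pair (pre X s) x))

theorem mem_outv {c : Code} {t r x y : ℕ} (h : outv c t r x = some y) :
    y ≤ t ∧ ∃ s ≤ t, y ∈ eval c (Nat.pair s (Nat.pair (r % 2 ^ s) x)) := by
  unfold outv at h
  have h1 := List.mem_of_mem_head? (Option.mem_def.2 h)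
  simp only [List.mem_filterMap, List.mem_range, Option.bind_eq_some_iff] at h1
  obtain ⟨s, hs, y', hy', h2⟩ := h1
  split_ifs at h2 with h3
  obtain rfl : y' = y := by simpa using h2
  exact ⟨h3, s, by omega, evaln_sound hy'⟩

theorem outv_isSome {c : Code} {t r x s y k : ℕ} (hs : s ≤ t) (hk : k ≤ t) (hy : y ≤ t)
    (h : y ∈ evaln k c (Nat.pair s (Nat.pair (r % 2 ^ s) x))) :
    ∃ y', outv c t r x = some y' := by
  have h1 : y ∈ ((List.range (t + 1)).filterMap (fun s =>
    (evaln t c (Nat.pair s (Nat.pair (r % 2 ^ s) x))).bind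
      (fun y => if y ≤ t then some y else none))) := by
    simp only [List.mem_filterMap, List.mem_range, Option.bind_eq_some_iff]
    exact ⟨s, by omega, y, evaln_mono hk h, by rw [if_pos hy]⟩
  unfold outv
  cases hl : ((List.range (t + 1)).filterMap (fun s =>
    (evaln t c (Nat.pair s (Nat.pair (r % 2 ^ s) x))).bind
      (fun y => if y ≤ t then some y else none))) with
  | nil => rw [hl] at h1; simp at h1
  | cons b l => exact ⟨b, rfl⟩

section oracle

variable {X : ℕ → Bool} {c : Code} {D : ℕ → ℕ → Prop}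
  (hc : ∀ x y, D x y ↔ ∃ s, y ∈ eval c (Nat.pair s (Nat.pair (pre X s) x)))
include hc

theorem out_sound {t x y : ℕ} (h : outv c t (pre X t) x = some y) : D x y ∧ y ≤ t := by
  obtain ⟨h1, s, hs, h2⟩ := mem_outv h
  rw [pre_mod X hs] at h2
  exact ⟨(hc x y).2 ⟨s, h2⟩, h1⟩

theorem out_complete (huniq : ∀ x y y', D x y → D x y' → y = y') {x y : ℕ} (h : D x y) :
    ∃ T, ∀ t ≥ T, outv c t (pre X t) x = some y := by
  obtain ⟨s, hs⟩ := (hc x y).1 h
  obtain ⟨k, hk⟩ := evaln_complete.1 hs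
  refine ⟨max s (max k y), fun t ht => ?_⟩
  have h1 : s ≤ t := by omega
  have h2 : k ≤ t := by omega
  have h3 : y ≤ t := by omega
  rw [← pre_mod X h1] at hk
  obtain ⟨y', hy'⟩ := outv_isSome h1 h2 h3 hk
  rw [hy', huniq x y' y (out_sound hc hy').1 h]

theorem out_mono (huniq : ∀ x y y', D x y → D x y' → y = y') {s t x y : ℕ} (hst : s ≤ t)
    (h : outv c s (pre X s) x = some y) : outv c t (pre X t) x = some y := by
  have h0 := out_sound hc h
  unfold outv at h
  have h1 := List.mem_of_mem_head? (Option.mem_def.2 h)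
  simp only [List.mem_filterMap, List.mem_range, Option.bind_eq_some_iff] at h1
  obtain ⟨s', hs', y', hy', h2⟩ := h1
  split_ifs at h2 with h3
  obtain rfl : y' = y := by simpa using h2
  have hy'' : y' ∈ evaln s c (Nat.pair s' (Nat.pair (pre X t % 2 ^ s') x)) := by
    rw [pre_mod X (by omega)]
    rw [pre_mod X (by omega)] at hy'
    exact hy'
  obtain ⟨z, hz⟩ := outv_isSome (show s' ≤ t by omega) hst (show y' ≤ t by omega) hy''
  rw [hz, huniq x z y' (out_sound hc hz).1 h0.1]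

end oracle

/-- If every element of the active block is answered, the oracle string survives. -/
theorem surv_of_conv {a : ℕ → ℕ} {X : ℕ → Bool} {g : ℕ → ℕ} {j t : ℕ} (hnew : newAt a t)
    (hc : ∀ x y, g x = y ↔
      ∃ s, y ∈ eval (ofNat Code j) (Nat.pair s (Nat.pair (pre X s) x)))
    (hg : ∀ x, ¬ EE a (g x) x)
    (hconv : ∀ k < MM (a t), ∃ y,
      outv (ofNat Code j) t (pre X t) (bb (a t) (vv a (a t) t) k) = some y) :
    surv a (hist a t) (ww a t) t (a t) j (pre X t) := by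
  intro k hk
  rw [List.mem_range] at hk
  obtain ⟨y, hy⟩ := hconv k hk
  obtain ⟨hgy, hyt⟩ := out_sound (D := fun x y => g x = y) hc hy
  simp only [gk, hy, Bool.not_eq_true', decide_eq_false_iff_not]
  intro heq
  set b := bb (a t) (vv a (a t) t) k with hb
  have hbfix : RR a t b = b := cur_fixed a (hist a t) hk le_rfl
  have hz : RR a t y < 2 ∨ ver (RR a t y) ≤ t :=
    rr_ver a _ le_rfl (Or.inr (le_trans (ver_le y) hyt))
  have hbt : b < 2 ∨ ver b ≤ t := Or.inr (by rw [hb, ver_bb]; exact vv_le _ _ _)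
  have hcur : cur a t b := by
    refine ⟨?_, ?_⟩
    · rw [hb, ver_bb, blk_bb]
    · rw [hb, blk_bb, idx_bb]; exact hk
  have htb : tgt a t (a t) (ww a t) b = (ww a t).getD k 0 := by
    unfold tgt
    rw [if_neg (by rw [hb]; exact bb_ge _ _ _), if_neg (by rw [hb, blk_bb]; omega),
      if_pos ⟨by rw [hb, blk_bb], hcur⟩, hb, idx_bb]
  have h1 : RR a (t + 1) y = RR a (t + 1) b := by
    rw [RR_succ, RR_succ, hbfix, FF_eq hnew _ hz, FF_eq hnew _ hbt, htb, heq]
    rfl
  apply hg b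
  rw [hgy]
  exact ⟨t + 1, h1⟩

/-- A Martin-Löf test: a uniformly recursively enumerable sequence of sets of strings, the `m`-th
of which generates an open subset of Cantor space of measure at most `2 ^ (-m)`.  The string of
length `t` with bits `x_i` is coded by the pair `t`, `∑ i, x_i 2 ^ i`. -/
def MLTest (V : ℕ → ℕ → ℕ → Prop) : Prop :=
  REPred (fun p : ℕ × ℕ × ℕ => V p.1 p.2.1 p.2.2) ∧
    ∀ m l, {r : ℕ | r < 2 ^ l ∧ ∃ t ≤ l, V m t (r % 2 ^ t)}.ncard * 2 ^ m ≤ 2 ^ l

/-- Martin-Löf randomness. -/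
def MLRandom (X : ℕ → Bool) : Prop :=
  ∀ V, MLTest V → ∃ m, ∀ t, ¬ V m t (pre X t)

def VV (a : ℕ → ℕ) (j m t r : ℕ) : Prop :=
  (newAt a t ∧ m ≤ a t ∧ j ≤ a t) ∧ surv a (hist a t) (ww a t) t (a t) j r

theorem card_mod (Q : ℕ → Prop) [DecidablePred Q] {t l : ℕ} (h : t ≤ l) :
    ((Finset.range (2 ^ l)).filter (fun r => Q (r % 2 ^ t))).card
      ≤ 2 ^ (l - t) * ((Finset.range (2 ^ t)).filter Q).card := by
  have h1 : ((Finset.range (2 ^ l)).filter (fun r => Q (r % 2 ^ t))).card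
      ≤ ((Finset.range (2 ^ (l - t))) ×ˢ ((Finset.range (2 ^ t)).filter Q)).card := by
    apply Finset.card_le_card_of_injOn (fun r => (r / 2 ^ t, r % 2 ^ t))
    · intro r hr
      simp only [Finset.coe_filter, Finset.mem_range, Set.mem_ofPred_eq] at hr
      simp only [Finset.coe_product, Set.mem_prod, Finset.mem_coe, Finset.mem_filter,
        Finset.mem_range]
      refine ⟨?_, Nat.mod_lt _ (by positivity), hr.2⟩
      apply Nat.div_lt_of_lt_mul
      rw [← pow_add]
      have : t + (l - t) = l := by omega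
      rw [this]; exact hr.1
    · intro r _ r' _ h
      simp only [Prod.mk.injEq] at h
      rw [← Nat.div_add_mod r (2 ^ t), ← Nat.div_add_mod r' (2 ^ t), h.1, h.2]
  simpa using h1

theorem card_surv (a : ℕ → ℕ) {j t : ℕ} (hj : j ≤ a t) :
    ((Finset.range (2 ^ t)).filter
      (fun r => surv a (hist a t) (ww a t) t (a t) j r)).card * 2 ^ (a t + 1) ≤ 2 ^ t := by
  refine le_trans (Nat.mul_le_mul_right _ ?_) (ww_good a t)
  have hc : cnt a (hist a t) (ww a t) t (a t)
      = ((Finset.range ((a t + 1) * 2 ^ t)).filter (fun q =>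
        surv a (hist a t) (ww a t) t (a t) (q / 2 ^ t) (q % 2 ^ t))).card := by
    unfold cnt
    rfl
  rw [hc]
  apply Finset.card_le_card_of_injOn (fun r => j * 2 ^ t + r)
  · intro r hr
    simp only [Finset.coe_filter, Finset.mem_range, Set.mem_ofPred_eq] at hr ⊢
    have hp : 0 < 2 ^ t := by positivity
    refine ⟨?_, ?_⟩
    · have : (j + 1) * 2 ^ t ≤ (a t + 1) * 2 ^ t := Nat.mul_le_mul_right _ (by omega)
      nlinarith
    · have h1 : (j * 2 ^ t + r) / 2 ^ t = j := by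
        rw [mul_comm, Nat.mul_add_div hp, Nat.div_eq_of_lt hr.1, add_zero]
      have h2 : (j * 2 ^ t + r) % 2 ^ t = r := by
        rw [mul_comm, Nat.mul_add_mod, Nat.mod_eq_of_lt hr.1]
      rw [h1, h2]; exact hr.2
  · intro r _ r' _ h
    simpa using h

theorem geom_bound (m B : ℕ) :
    ∑ n ∈ Finset.Ico m B, (1 / 2 : ℝ) ^ (n + 1) ≤ (1 / 2) ^ m := by
  rcases Nat.lt_or_ge B m with h | h
  · rw [Finset.Ico_eq_empty (by omega)]; simp
  have h1 : ∑ n ∈ Finset.Ico m B, (1 / 2 : ℝ) ^ (n + 1) = (1 / 2) ^ m - (1 / 2) ^ B := by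
    induction B, h using Nat.le_induction with
    | base => simp
    | succ B hB ih => rw [Finset.sum_Ico_succ_top hB, ih, pow_succ]; ring
  rw [h1]
  have : (0 : ℝ) ≤ (1 / 2) ^ B := by positivity
  linarith

theorem VV_measure (a : ℕ → ℕ) (j m l : ℕ) :
    {r : ℕ | r < 2 ^ l ∧ ∃ t ≤ l, VV a j m t (r % 2 ^ t)}.ncard * 2 ^ m ≤ 2 ^ l := by
  classical
  set S : Finset ℕ := (Finset.range (l + 1)).filter (fun t => newAt a t ∧ m ≤ a t ∧ j ≤ a t)
    with hS
  set U : Finset ℕ := S.biUnion (fun t => (Finset.range (2 ^ l)).filter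
    (fun r => surv a (hist a t) (ww a t) t (a t) j (r % 2 ^ t))) with hU
  have hsub : {r : ℕ | r < 2 ^ l ∧ ∃ t ≤ l, VV a j m t (r % 2 ^ t)} ⊆ (U : Set ℕ) := by
    rintro r ⟨hr, t, ht, hV⟩
    simp only [hU, hS, Finset.coe_biUnion, Finset.coe_filter, Finset.mem_range, Set.mem_iUnion,
      Set.mem_ofPred_eq, exists_prop]
    exact ⟨t, ⟨by omega, hV.1⟩, hr, hV.2⟩
  have h1 : {r : ℕ | r < 2 ^ l ∧ ∃ t ≤ l, VV a j m t (r % 2 ^ t)}.ncard ≤ U.card := by
    rw [← Set.ncard_coe_finset]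
    exact Set.ncard_le_ncard hsub (Finset.finite_toSet _)
  have h2 : U.card ≤ ∑ t ∈ S, ((Finset.range (2 ^ l)).filter
    (fun r => surv a (hist a t) (ww a t) t (a t) j (r % 2 ^ t))).card := Finset.card_biUnion_le
  have h3 : ∀ t ∈ S, (((Finset.range (2 ^ l)).filter
      (fun r => surv a (hist a t) (ww a t) t (a t) j (r % 2 ^ t))).card : ℝ)
      ≤ 2 ^ l * (1 / 2) ^ (a t + 1) := by
    intro t ht
    simp only [hS, Finset.mem_filter, Finset.mem_range] at ht
    have htl : t ≤ l := by omega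
    have e1 := card_mod (fun r => surv a (hist a t) (ww a t) t (a t) j r) htl
    have e2 := card_surv a ht.2.2.2
    have e3 : ((Finset.range (2 ^ l)).filter
      (fun r => surv a (hist a t) (ww a t) t (a t) j (r % 2 ^ t))).card * 2 ^ (a t + 1)
        ≤ 2 ^ l := by
      calc _ ≤ (2 ^ (l - t) * ((Finset.range (2 ^ t)).filter
            (fun r => surv a (hist a t) (ww a t) t (a t) j r)).card) * 2 ^ (a t + 1) :=
            Nat.mul_le_mul_right _ e1
        _ = 2 ^ (l - t) * (((Finset.range (2 ^ t)).filter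
            (fun r => surv a (hist a t) (ww a t) t (a t) j r)).card * 2 ^ (a t + 1)) := by ring
        _ ≤ 2 ^ (l - t) * 2 ^ t := Nat.mul_le_mul_left _ e2
        _ = 2 ^ l := by rw [← pow_add]; congr 1; omega
    have e4 : (((Finset.range (2 ^ l)).filter
      (fun r => surv a (hist a t) (ww a t) t (a t) j (r % 2 ^ t))).card : ℝ) * 2 ^ (a t + 1)
        ≤ 2 ^ l := by exact_mod_cast e3
    have hp : (0 : ℝ) < 2 ^ (a t + 1) := by positivity
    rw [one_div, inv_pow, ← div_eq_mul_inv, le_div_iff₀ hp]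
    exact e4
  have hinj : Set.InjOn a (S : Set ℕ) := by
    intro t1 ht1 t2 ht2 h
    simp only [hS, Finset.coe_filter, Set.mem_ofPred_eq] at ht1 ht2
    rcases lt_trichotomy t1 t2 with h' | h' | h'
    · exact absurd h (ht2.2.1 t1 (List.mem_range.2 h'))
    · exact h'
    · exact absurd h.symm (ht1.2.1 t2 (List.mem_range.2 h'))
  have h4 : ∑ t ∈ S, (1 / 2 : ℝ) ^ (a t + 1) ≤ (1 / 2) ^ m := by
    rw [← Finset.sum_image (f := fun n => (1 / 2 : ℝ) ^ (n + 1)) hinj]
    refine le_trans (Finset.sum_le_sum_of_subset_of_nonneg (t := Finset.Ico m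
      ((S.image a).sup id + 1)) ?_ (fun _ _ _ => by positivity)) (geom_bound m _)
    intro n hn
    rw [Finset.mem_Ico]
    refine ⟨?_, Nat.lt_succ_of_le (Finset.le_sup (f := id) hn)⟩
    obtain ⟨t, ht, rfl⟩ := Finset.mem_image.1 hn
    simp only [hS, Finset.mem_filter] at ht
    exact ht.2.2.1
  have h5 : (({r : ℕ | r < 2 ^ l ∧ ∃ t ≤ l, VV a j m t (r % 2 ^ t)}.ncard : ℕ) : ℝ) * 2 ^ m
      ≤ 2 ^ l := by
    have e1 : (({r : ℕ | r < 2 ^ l ∧ ∃ t ≤ l, VV a j m t (r % 2 ^ t)}.ncard : ℕ) : ℝ)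
        ≤ 2 ^ l * (1 / 2) ^ m := by
      calc (({r : ℕ | r < 2 ^ l ∧ ∃ t ≤ l, VV a j m t (r % 2 ^ t)}.ncard : ℕ) : ℝ)
          ≤ ((∑ t ∈ S, ((Finset.range (2 ^ l)).filter (fun r =>
              surv a (hist a t) (ww a t) t (a t) j (r % 2 ^ t))).card : ℕ) : ℝ) := by
            exact_mod_cast le_trans h1 h2
        _ = ∑ t ∈ S, (((Finset.range (2 ^ l)).filter (fun r =>
              surv a (hist a t) (ww a t) t (a t) j (r % 2 ^ t))).card : ℝ) := by push_cast; rfl
        _ ≤ ∑ t ∈ S, 2 ^ l * (1 / 2 : ℝ) ^ (a t + 1) := Finset.sum_le_sum h3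
        _ = 2 ^ l * ∑ t ∈ S, (1 / 2 : ℝ) ^ (a t + 1) := by rw [Finset.mul_sum]
        _ ≤ 2 ^ l * (1 / 2) ^ m := by
            apply mul_le_mul_of_nonneg_left h4; positivity
    calc (({r : ℕ | r < 2 ^ l ∧ ∃ t ≤ l, VV a j m t (r % 2 ^ t)}.ncard : ℕ) : ℝ) * 2 ^ m
        ≤ (2 ^ l * (1 / 2) ^ m) * 2 ^ m := by
          apply mul_le_mul_of_nonneg_right e1; positivity
      _ = 2 ^ l := by
          rw [mul_assoc, ← mul_pow]; norm_num
  exact_mod_cast h5

def pick (a : ℕ → ℕ) (p : ℕ × List (List ℕ)) : List ℕ :=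
  ofNat (List ℕ) (Nat.find (exists_good a p.1 p.2))

theorem comp_pick {a : ℕ → ℕ} (ha : Primrec a) : Computable (pick a) := by
  have h : Computable (fun q : ℕ × List (List ℕ) =>
      ofNat (List ℕ) (Nat.find (exists_good a q.1 q.2))) :=
    (Primrec.ofNat (List ℕ)).to_comp.comp (comp_find ha)
  exact h

theorem ww_eq_pick (a : ℕ → ℕ) (t : ℕ) : pick a (t, hist a t) = ww a t := by
  unfold pick ww
  rfl

theorem comp_ww {a : ℕ → ℕ} (ha : Primrec a) : Computable (ww a) := by
  have h1 : Computable (fun t : ℕ => (t, hist a t)) :=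
    Computable.pair Computable.id (comp_hist ha)
  have h2 : Computable (fun t : ℕ => pick a (t, hist a t)) :=
    Computable.comp (comp_pick ha) h1
  exact h2.of_eq (ww_eq_pick a)

theorem VV_re {a : ℕ → ℕ} (ha : Primrec a) (j : ℕ) :
    REPred (fun p : ℕ × ℕ × ℕ => VV a j p.1 p.2.1 p.2.2) := by
  apply ComputablePred.to_re
  have e0 : Primrec (fun p : ℕ × ℕ × ℕ => p.2.1) := fst.comp snd
  have e1 : PrimrecPred (fun p : ℕ × ℕ × ℕ => newAt a p.2.1) := (prim_newAt ha).comp e0
  have e2 : PrimrecPred (fun p : ℕ × ℕ × ℕ => p.1 ≤ a p.2.1) :=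
    Primrec.nat_le.comp fst (ha.comp e0)
  have e3 : PrimrecPred (fun p : ℕ × ℕ × ℕ => j ≤ a p.2.1) :=
    Primrec.nat_le.comp (Primrec.const j) (ha.comp e0)
  obtain ⟨f1, hf1, hf1'⟩ := ComputablePred.computable_iff.1 (e1.and (e2.and e3)).computablePred
  obtain ⟨f2, hf2, hf2'⟩ := ComputablePred.computable_iff.1 (prim_surv ha).computablePred
  have hww : Computable (ww a) := comp_ww ha
  have e4 : Computable (fun p : ℕ × ℕ × ℕ =>
      (((hist a p.2.1, ww a p.2.1), (p.2.1, a p.2.1), (j, p.2.2)) : Par)) :=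
    Computable.pair (Computable.pair ((comp_hist ha).comp (Computable.fst.comp Computable.snd))
      (hww.comp (Computable.fst.comp Computable.snd)))
      (Computable.pair (Computable.pair (Computable.fst.comp Computable.snd)
        (ha.to_comp.comp (Computable.fst.comp Computable.snd)))
        (Computable.pair (Computable.const j) (Computable.snd.comp Computable.snd)))
  apply ComputablePred.computable_iff.2
  refine ⟨fun p => f1 p && f2 ((hist a p.2.1, ww a p.2.1), (p.2.1, a p.2.1), (j, p.2.2)),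
    (Primrec.and.to_comp).comp hf1 (hf2.comp e4), ?_⟩
  funext p
  have g1 := congrFun hf1' p
  have g2 := congrFun hf2' ((hist a p.2.1, ww a p.2.1), (p.2.1, a p.2.1), (j, p.2.2))
  simp only at g1 g2
  simp only [VV, Bool.and_eq_true, g1, g2]

theorem VV_test {a : ℕ → ℕ} (ha : Primrec a) (j : ℕ) : MLTest (VV a j) :=
  ⟨VV_re ha j, fun m l => VV_measure a j m l⟩

end Helper423Ceer
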