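import Mathlib
import Pool.Agent.Helper423_Ceer.Rand

namespace Helper423Ceer

open Nat.Partrec (Code)
open Nat.Partrec.Code Encodable Denumerable
open Primrec (fst snd)
open Filter

def conv (a : ℕ → ℕ) (c : Code) (s r m : ℕ) : Prop :=
  ∀ k ∈ List.range (MM m), (outv c s r (bb m (vv a m s) k)).isSome = true

def cert (a : ℕ → ℕ) (c : Code) (n0 s0 s r n : ℕ) : Prop :=
  s0 ≤ s ∧ ∀ m ∈ List.range (n + 1),
    (¬ n0 ≤ m) ∨ (∃ t ∈ List.range s, a t = m) ∨ conv a c s r m

theorem prim_conv {a : ℕ → ℕ} (ha : Primrec a) (c : Code) :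
    PrimrecPred (fun q : (ℕ × ℕ) × ℕ => conv a c q.1.1 q.1.2 q.2) := by
  unfold conv
  have h : PrimrecRel (fun (k : ℕ) (q : (ℕ × ℕ) × ℕ) =>
      (outv c q.1.1 q.1.2 (bb q.2 (vv a q.2 q.1.1) k)).isSome = true) := by
    have e1 : Primrec (fun p : ℕ × ((ℕ × ℕ) × ℕ) => p.2.1.1) := fst.comp (fst.comp snd)
    have e2 : Primrec (fun p : ℕ × ((ℕ × ℕ) × ℕ) => p.2.1.2) := snd.comp (fst.comp snd)
    have e3 : Primrec (fun p : ℕ × ((ℕ × ℕ) × ℕ) => p.2.2) := snd.comp snd
    have e4 : Primrec (fun p : ℕ × ((ℕ × ℕ) × ℕ) => vv a p.2.2 p.2.1.1) :=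
      (prim_vv ha).comp e3 e1
    have e5 : Primrec (fun p : ℕ × ((ℕ × ℕ) × ℕ) =>
      outv c p.2.1.1 p.2.1.2 (bb p.2.2 (vv a p.2.2 p.2.1.1) p.1)) :=
      prim_outv (Primrec.const c) e1 e2 (prim_bb e3 e4 fst)
    exact Primrec.eq.comp (Primrec.option_isSome.comp e5) (Primrec.const true)
  exact (PrimrecRel.forall_mem_list h).comp (Primrec.list_range.comp (prim_MM.comp snd))
    Primrec.id

theorem prim_seen {a : ℕ → ℕ} (ha : Primrec a) :
    PrimrecRel (fun s m : ℕ => ∃ t ∈ List.range s, a t = m) := by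
  have h : PrimrecRel (fun t m : ℕ => a t = m) := Primrec.eq.comp (ha.comp fst) snd
  exact (PrimrecRel.exists_mem_list h).comp (Primrec.list_range.comp fst) snd

theorem prim_cert {a : ℕ → ℕ} (ha : Primrec a) (c : Code) (n0 s0 : ℕ) :
    PrimrecPred (fun p : (ℕ × ℕ) × ℕ => cert a c n0 s0 p.1.1 p.1.2 p.2) := by
  unfold cert
  have h : PrimrecRel (fun (m : ℕ) (p : (ℕ × ℕ) × ℕ) =>
      (¬ n0 ≤ m) ∨ (∃ t ∈ List.range p.1.1, a t = m) ∨ conv a c p.1.1 p.1.2 m) := by
    have e1 : Primrec (fun p : ℕ × ((ℕ × ℕ) × ℕ) => p.2.1.1) := fst.comp (fst.comp snd)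
    have e2 : Primrec (fun p : ℕ × ((ℕ × ℕ) × ℕ) => p.2.1) := fst.comp snd
    have h1 : PrimrecPred (fun p : ℕ × ((ℕ × ℕ) × ℕ) => ¬ n0 ≤ p.1) :=
      PrimrecPred.not (Primrec.nat_le.comp (Primrec.const n0) fst)
    have h2 : PrimrecPred (fun p : ℕ × ((ℕ × ℕ) × ℕ) =>
        ∃ t ∈ List.range p.2.1.1, a t = p.1) := (prim_seen ha).comp e1 fst
    have h3 : PrimrecPred (fun p : ℕ × ((ℕ × ℕ) × ℕ) => conv a c p.2.1.1 p.2.1.2 p.1) :=
      (prim_conv ha c).comp (Primrec.pair e2 fst)
    exact h1.or (h2.or h3)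
  refine PrimrecPred.and (Primrec.nat_le.comp (Primrec.const s0) (fst.comp fst)) ?_
  exact (PrimrecRel.forall_mem_list h).comp (Primrec.list_range.comp (Primrec.succ.comp snd))
    Primrec.id

theorem vv_stable {a : ℕ → ℕ} {n s t : ℕ} (hst : s ≤ t)
    (h : ∀ u, s ≤ u → u < t → ¬ (newAt a u ∧ a u ≤ n)) : vv a n t = vv a n s := by
  induction t, hst using Nat.le_induction with
  | base => rfl
  | succ t hst ih =>
    rw [vv_succ, if_neg (h t hst (by omega))]
    exact ih (fun u h1 h2 => h u h1 (by omega))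

theorem newAt_inj {a : ℕ → ℕ} {s t : ℕ} (hs : newAt a s) (ht : newAt a t) (h : a s = a t) :
    s = t := by
  rcases lt_trichotomy s t with h' | h' | h'
  · exact absurd h (ht s (List.mem_range.2 h'))
  · exact h'
  · exact absurd h.symm (hs t (List.mem_range.2 h'))

theorem vv_ev (a : ℕ → ℕ) (n : ℕ) : ∃ T, ∀ t ≥ T, vv a n t = vv a n T := by
  have hfin : {t : ℕ | newAt a t ∧ a t ≤ n}.Finite := by
    apply Set.Finite.of_injOn (f := a) (t := (Set.Iic n)) _ _ (Set.finite_Iic n)
    · rintro t ⟨_, ht⟩; exact ht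
    · rintro s ⟨hs, _⟩ t ⟨ht, _⟩ h
      exact newAt_inj hs ht h
  obtain ⟨T, hT⟩ := hfin.bddAbove
  refine ⟨T + 1, fun t ht => vv_stable ht (fun u hu _ h => ?_)⟩
  have := hT h
  omega

section

variable {a : ℕ → ℕ} {X : ℕ → Bool} {g : ℕ → ℕ} {c : Code}
  (hc : ∀ x y, g x = y ↔ ∃ s, y ∈ eval c (Nat.pair s (Nat.pair (pre X s) x)))
include hc

theorem cert_sound {n0 s0 s n : ℕ} (hg : ∀ x, ¬ EE a (g x) x)
    (hX : ∀ t, newAt a t → n0 ≤ a t →
      ¬ surv a (hist a t) (ww a t) t (a t) (encode c) (pre X t))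
    (hs0 : ∀ m < n0, (∃ t, a t = m) → ∃ t < s0, a t = m)
    (hcert : cert a c n0 s0 s (pre X s) n) (hn : ∃ t, a t = n) : ∃ t < s, a t = n := by
  classical
  by_contra hcon
  push Not at hcon
  have ht1 := Nat.find_spec hn
  set t1 := Nat.find hn with ht1def
  have hmin1 : ∀ t' < t1, a t' ≠ n := fun t' h => Nat.find_min hn h
  have hnew1 : newAt a t1 := by
    intro s' hs'
    rw [ht1]
    exact hmin1 s' (List.mem_range.1 hs')
  have hst1 : s ≤ t1 := by
    by_contra h
    exact hcon t1 (by omega) ht1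
  have hP : ∃ u, s ≤ u ∧ newAt a u ∧ a u ≤ n := ⟨t1, hst1, hnew1, le_of_eq ht1⟩
  obtain ⟨hst, hnew, hle⟩ := Nat.find_spec hP
  set t := Nat.find hP with htdef
  have hmin : ∀ u < t, ¬ (s ≤ u ∧ newAt a u ∧ a u ≤ n) := fun u h => Nat.find_min hP h
  have hnseen : ¬ ∃ t' < t, a t' = a t := by
    rintro ⟨t', h1, h2⟩
    exact hnew t' (List.mem_range.2 h1) h2
  have hn0 : n0 ≤ a t := by
    by_contra h
    obtain ⟨t', h1, h2⟩ := hs0 (a t) (by omega) ⟨t, rfl⟩
    exact hnseen ⟨t', by have := hcert.1; omega, h2⟩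
  have hconv : conv a c s (pre X s) (a t) := by
    rcases hcert.2 (a t) (List.mem_range.2 (by omega)) with h | ⟨t', h1, h2⟩ | h
    · exact absurd hn0 h
    · exact absurd ⟨t', by have := List.mem_range.1 h1; omega, h2⟩ hnseen
    · exact h
  have hv : vv a (a t) t = vv a (a t) s :=
    vv_stable hst (fun u h1 h2 h3 => hmin u h2 ⟨h1, h3.1, le_trans h3.2 hle⟩)
  have huniq : ∀ x y y', g x = y → g x = y' → y = y' := fun x y y' h h' => h ▸ h'
  apply hX t hnew hn0
  apply surv_of_conv hnew (g := g) (by rw [ofNat_encode]; exact hc) hg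
  intro k hk
  rw [ofNat_encode, hv]
  have h1 := hconv k (List.mem_range.2 hk)
  rw [Option.isSome_iff_exists] at h1
  obtain ⟨y, hy⟩ := h1
  exact ⟨y, out_mono (D := fun x y => g x = y) hc huniq hst hy⟩

theorem cert_exists (n0 s0 n : ℕ) : ∃ s, cert a c n0 s0 s (pre X s) n := by
  have huniq : ∀ x y y', g x = y → g x = y' → y = y' := fun x y y' h h' => h ▸ h'
  have h1 : ∀ m, ∀ᶠ s in atTop, conv a c s (pre X s) m := by
    intro m
    obtain ⟨T, hT⟩ := vv_ev a m
    have h2 : ∀ k ∈ Finset.range (MM m), ∀ᶠ s in atTop,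
        (outv c s (pre X s) (bb m (vv a m T) k)).isSome = true := by
      intro k _
      obtain ⟨T', hT'⟩ := out_complete (D := fun x y => g x = y) hc huniq
        (x := bb m (vv a m T) k) rfl
      filter_upwards [eventually_ge_atTop T'] with s hs
      rw [hT' s hs]; rfl
    have h3 := (Filter.eventually_all_finset (Finset.range (MM m))).2 h2
    filter_upwards [h3, eventually_ge_atTop T] with s hs hsT
    intro k hk
    rw [hT s hsT]
    exact hs k (Finset.mem_range.2 (List.mem_range.1 hk))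
  have h4 := (Filter.eventually_all_finset (Finset.range (n + 1))).2
    (fun m (_ : m ∈ Finset.range (n + 1)) => h1 m)
  obtain ⟨s, hs1, hs2⟩ := (h4.and (eventually_ge_atTop s0)).exists
  exact ⟨s, hs2, fun m hm => Or.inr (Or.inr (hs1 m (Finset.mem_range.2 (List.mem_range.1 hm))))⟩

end

open Classical in
noncomputable def chi (A : Set ℕ) (n : ℕ) : ℕ := if n ∈ A then 1 else 0

open Classical in
/-- A Martin-Löf random oracle computing a diagonal function for `EE a` computes the range
of `a`. -/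
theorem random_computes {a : ℕ → ℕ} (ha : Primrec a) {X : ℕ → Bool} (hX : MLRandom X)
    {g : ℕ → ℕ} (hg : ∀ x, ¬ EE a (g x) x) (hcomp : Computes X g) :
    Computes X (chi (Set.range a)) := by
  obtain ⟨f, hf, hfc⟩ := hcomp
  obtain ⟨c, rfl⟩ := exists_code.1 hf
  obtain ⟨m, hm⟩ := hX _ (VV_test ha (encode c))
  set n0 := max m (encode c) with hn0
  have hXs : ∀ t, newAt a t → n0 ≤ a t →
      ¬ surv a (hist a t) (ww a t) t (a t) (encode c) (pre X t) := by
    intro t h1 h2 h3
    exact hm t ⟨⟨h1, by omega, by omega⟩, h3⟩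
  obtain ⟨s0, hs0⟩ : ∃ s0, ∀ m < n0, (∃ t, a t = m) → ∃ t < s0, a t = m := by
    have h1 : ∀ m, ∀ᶠ s0 in atTop, (∃ t, a t = m) → ∃ t < s0, a t = m := by
      intro m
      by_cases h : ∃ t, a t = m
      · obtain ⟨t, ht⟩ := h
        filter_upwards [eventually_gt_atTop t] with s hs _
        exact ⟨t, hs, ht⟩
      · exact Eventually.of_forall (fun _ h' => absurd h' h)
    have h2 := (Filter.eventually_all_finset (Finset.range n0)).2
      (fun m (_ : m ∈ Finset.range n0) => h1 m)
    obtain ⟨s0, hs0⟩ := h2.exists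
    exact ⟨s0, fun m hm => hs0 m (Finset.mem_range.2 hm)⟩
  refine ⟨fun q => ((if cert a c n0 s0 q.unpair.1 q.unpair.2.unpair.1 q.unpair.2.unpair.2 then
    some (if ∃ t ∈ List.range q.unpair.1, a t = q.unpair.2.unpair.2 then 1 else 0)
    else none : Option ℕ) : Part ℕ), ?_, ?_⟩
  · refine Partrec.nat_iff.1 ?_
    apply Computable.ofOption
    apply Primrec.to_comp
    have e1 : Primrec (fun q : ℕ => q.unpair.1) := fst.comp Primrec.unpair
    have e2 : Primrec (fun q : ℕ => q.unpair.2.unpair.1) :=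
      fst.comp (Primrec.unpair.comp (snd.comp Primrec.unpair))
    have e3 : Primrec (fun q : ℕ => q.unpair.2.unpair.2) :=
      snd.comp (Primrec.unpair.comp (snd.comp Primrec.unpair))
    refine Primrec.ite ((prim_cert ha c n0 s0).comp (Primrec.pair (Primrec.pair e1 e2) e3)) ?_
      (Primrec.const none)
    refine Primrec.option_some.comp (Primrec.ite ((prim_seen ha).comp e1 e3)
      (Primrec.const 1) (Primrec.const 0))
  · intro n y
    simp only [Nat.unpair_pair, Part.mem_coe, Option.mem_def]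
    have key : ∀ s, cert a c n0 s0 s (pre X s) n →
        (if ∃ t ∈ List.range s, a t = n then 1 else 0) = chi (Set.range a) n := by
      intro s hs
      unfold chi
      by_cases h : ∃ t, a t = n
      · have h1 := cert_sound hfc hg hXs hs0 hs h
        rw [if_pos (show n ∈ Set.range a from h), if_pos]
        obtain ⟨t, ht, h2⟩ := h1
        exact ⟨t, List.mem_range.2 ht, h2⟩
      · rw [if_neg (show n ∉ Set.range a from h), if_neg]
        rintro ⟨t, _, h2⟩
        exact h ⟨t, h2⟩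
    constructor
    · rintro rfl
      obtain ⟨s, hs⟩ := cert_exists (a := a) hfc n0 s0 n
      exact ⟨s, by rw [if_pos hs, key s hs]⟩
    · rintro ⟨s, hs⟩
      by_cases h : cert a c n0 s0 s (pre X s) n
      · rw [if_pos h, key s h] at hs
        simpa using hs
      · rw [if_neg h] at hs
        simp at hs

/-- The halting set, coded by pairs (program, input). -/
def haltSet : Set ℕ := {q | (eval (ofNat Code q.unpair.1) q.unpair.2).Dom}

def aK (t : ℕ) : ℕ :=
  if (evaln t.unpair.2 (ofNat Code t.unpair.1.unpair.1) t.unpair.1.unpair.2).isSome = true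
  then t.unpair.1 else Nat.pair (encode Code.zero) 0

theorem prim_aK : Primrec aK := by
  unfold aK
  have e1 : Primrec (fun t : ℕ => t.unpair.1) := fst.comp Primrec.unpair
  have e2 : Primrec (fun t : ℕ => t.unpair.2) := snd.comp Primrec.unpair
  have e3 : Primrec (fun t : ℕ => t.unpair.1.unpair.1) := fst.comp (Primrec.unpair.comp e1)
  have e4 : Primrec (fun t : ℕ => t.unpair.1.unpair.2) := snd.comp (Primrec.unpair.comp e1)
  refine Primrec.ite (Primrec.eq.comp (Primrec.option_isSome.comp ?_) (Primrec.const true)) e1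
    (Primrec.const _)
  exact primrec_evaln.comp (Primrec.pair (Primrec.pair e2 ((Primrec.ofNat Code).comp e3)) e4)

theorem range_aK : Set.range aK = haltSet := by
  ext q
  constructor
  · rintro ⟨t, rfl⟩
    unfold aK
    split_ifs with h
    · rw [Option.isSome_iff_exists] at h
      obtain ⟨y, hy⟩ := h
      exact Part.dom_iff_mem.2 ⟨y, evaln_sound (Option.mem_def.2 hy)⟩
    · simp [haltSet, eval, pure, PFun.pure]
  · intro hq
    obtain ⟨y, hy⟩ := Part.dom_iff_mem.1 hq
    obtain ⟨k, hk⟩ := evaln_complete.1 hy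
    refine ⟨Nat.pair q k, ?_⟩
    unfold aK
    simp only [Nat.unpair_pair]
    rw [if_pos]
    rw [Option.isSome_iff_exists]
    exact ⟨y, hk⟩

/-- Oracles computing the halting set compute diagonal functions for all nontrivial ceers. -/
theorem halt_diag {X : ℕ → Bool} (hK : Computes X (chi haltSet)) (E : ℕ → ℕ → Prop)
    (hE : Equivalence E) (hre : REPred (fun p : ℕ × ℕ => E p.1 p.2)) {u v : ℕ}
    (huv : ¬ E u v) : ∃ g : ℕ → ℕ, (∀ x, ¬ E (g x) x) ∧ Computes X g := by
  classical
  obtain ⟨f, hf, hfc⟩ := hK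
  have h1 : Partrec (fun x : ℕ => Part.assert (E x u) fun _ => Part.some ()) :=
    hre.comp (Computable.pair Computable.id (Computable.const u))
  have h2 : Partrec (fun x : ℕ => (Part.assert (E x u) fun _ => Part.some ()).map
      (fun _ => (0 : ℕ))) := h1.map (Computable.const 0).to₂
  obtain ⟨e, he⟩ := exists_code.1 (Partrec.nat_iff.1 h2)
  have he' : ∀ x, (eval e x).Dom ↔ E x u := by
    intro x
    rw [he]
    simp [Part.assert]
  have hchi : ∀ x, chi haltSet (Nat.pair (encode e) x) = if E x u then 1 else 0 := by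
    intro x
    unfold chi haltSet
    simp only [Set.mem_ofPred_eq, Nat.unpair_pair, ofNat_encode, he']
  refine ⟨fun x => if E x u then v else u, ?_, ?_⟩
  · intro x
    simp only
    split_ifs with h
    · intro h3
      exact huv (hE.symm (hE.trans h3 h))
    · intro h3
      exact h (hE.symm h3)
  · refine ⟨fun q => (f (Nat.pair q.unpair.1 (Nat.pair q.unpair.2.unpair.1
      (Nat.pair (encode e) q.unpair.2.unpair.2)))).map (fun b => if b = 1 then v else u), ?_, ?_⟩
    · refine Partrec.nat_iff.1 ?_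
      have e1 : Primrec (fun q : ℕ => q.unpair.1) := fst.comp Primrec.unpair
      have e2 : Primrec (fun q : ℕ => q.unpair.2.unpair.1) :=
        fst.comp (Primrec.unpair.comp (snd.comp Primrec.unpair))
      have e3 : Primrec (fun q : ℕ => q.unpair.2.unpair.2) :=
        snd.comp (Primrec.unpair.comp (snd.comp Primrec.unpair))
      have e4 : Primrec (fun q : ℕ => Nat.pair q.unpair.1 (Nat.pair q.unpair.2.unpair.1
          (Nat.pair (encode e) q.unpair.2.unpair.2))) :=
        Primrec₂.natPair.comp e1 (Primrec₂.natPair.comp e2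
          (Primrec₂.natPair.comp (Primrec.const _) e3))
      refine Partrec.map ((Partrec.nat_iff.2 hf).comp e4.to_comp)
        (g := fun _ b => if b = 1 then v else u) ?_
      exact (Primrec.ite (Primrec.eq.comp snd (Primrec.const 1)) (Primrec.const v)
        (Primrec.const u)).to_comp
    · intro x y
      simp only [Nat.unpair_pair, Part.mem_map_iff]
      constructor
      · rintro rfl
        obtain ⟨s, hs⟩ := (hfc (Nat.pair (encode e) x) _).1 rfl
        refine ⟨s, _, hs, ?_⟩
        rw [hchi]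
        split_ifs <;> simp_all
      · rintro ⟨s, b, hb, rfl⟩
        have h3 := (hfc (Nat.pair (encode e) x) b).2 ⟨s, hb⟩
        rw [hchi] at h3
        subst h3
        split_ifs <;> simp_all

end Helper423Ceer
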