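import Mathlib
import Pool.Agent.Helper423_Ceer.Decide

namespace Helper423Ceer

open Nat.Partrec (Code)
open Nat.Partrec.Code Encodable Denumerable
open Primrec (fst snd)
open Filter

/-- The oracle `X` as a partial function in Mathlib's sense. -/
def orc (X : ℕ → Bool) : ℕ →. ℕ := fun n => Part.some (X n).toNat

theorem pre_bit (X : ℕ → Bool) {x s : ℕ} (h : x < s) : pre X s / 2 ^ x % 2 = (X x).toNat := by
  have h1 : pre X s % 2 ^ (x + 1) = pre X (x + 1) := pre_mod X h
  have h2 : pre X s / 2 ^ x % 2 = pre X s % 2 ^ (x + 1) / 2 ^ x := by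
    rw [pow_succ, Nat.mod_mul_right_div_self]
  have h3 := pre_lt X x
  rw [h2, h1, pre_succ]
  cases hX : X x
  · simp [Nat.div_eq_of_lt h3]
  · simp only [if_true, Bool.toNat_true]
    rw [Nat.add_div_right _ (by positivity), Nat.div_eq_of_lt h3]

/-- `F` approximates `h` with finite parts of the oracle `X`. -/
def Apx (X : ℕ → Bool) (h : ℕ →. ℕ) : Prop :=
  ∃ F : ℕ × ℕ → ℕ →. ℕ, Partrec₂ F ∧
    (∀ s x y, y ∈ F (s, pre X s) x → y ∈ h x) ∧
    (∀ x y, y ∈ h x → ∀ᶠ s in atTop, y ∈ F (s, pre X s) x)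

theorem apx_partrec {X : ℕ → Bool} {h : ℕ →. ℕ} (hh : Nat.Partrec h) : Apx X h :=
  ⟨fun _ x => h x, (Partrec.nat_iff.2 hh).comp Computable.snd, fun _ _ _ h => h,
    fun _ _ h => Eventually.of_forall fun _ => h⟩

theorem apx_of_recursiveIn {X : ℕ → Bool} {h : ℕ →. ℕ} (hh : Nat.RecursiveIn {orc X} h) :
    Apx X h := by
  induction hh with
  | zero => exact apx_partrec Nat.Partrec.zero
  | succ => exact apx_partrec Nat.Partrec.succ
  | left => exact apx_partrec Nat.Partrec.left
  | right => exact apx_partrec Nat.Partrec.right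
  | oracle g hg =>
    rw [Set.mem_singleton_iff] at hg
    subst hg
    refine ⟨fun p x => ((if x < p.1 then some (p.2 / 2 ^ x % 2) else none : Option ℕ) : Part ℕ),
      ?_, ?_, ?_⟩
    · apply Computable.ofOption
      apply Primrec.to_comp
      refine Primrec.ite (Primrec.nat_lt.comp snd (fst.comp fst)) ?_ (Primrec.const none)
      refine Primrec.option_some.comp (Primrec.nat_mod.comp (Primrec.nat_div.comp
        (snd.comp fst) (prim_pow2.comp snd)) (Primrec.const 2))
    · intro s x y hy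
      change y ∈ ((if x < s then some (pre X s / 2 ^ x % 2) else none : Option ℕ) : Part ℕ) at hy
      split_ifs at hy with h1
      · rw [pre_bit X h1] at hy
        simpa [orc] using hy
      · simp at hy
    · intro x y hy
      filter_upwards [eventually_gt_atTop x] with s hs
      change y ∈ ((if x < s then some (pre X s / 2 ^ x % 2) else none : Option ℕ) : Part ℕ)
      rw [if_pos hs, pre_bit X hs]
      simpa [orc] using hy
  | @pair f h _ _ ihf ihh =>
    obtain ⟨F, hF, sF, cF⟩ := ihf
    obtain ⟨H, hH, sH, cH⟩ := ihh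
    refine ⟨fun p x => (F p x).bind fun y => (H p x).map fun z => Nat.pair y z, ?_, ?_, ?_⟩
    · refine Partrec.bind hF ?_
      refine Partrec.map (hH.comp (Computable.fst.comp Computable.fst)
        (Computable.snd.comp Computable.fst)) ?_
      exact (Primrec₂.natPair.comp (snd.comp fst) snd).to_comp
    · intro s x y hy
      change y ∈ (F (s, pre X s) x).bind fun y => (H (s, pre X s) x).map fun z => Nat.pair y z
        at hy
      change y ∈ Nat.pair <$> f x <*> h x
      simp only [Part.mem_bind_iff, Part.mem_map_iff] at hy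
      obtain ⟨u, hu, v, hv, rfl⟩ := hy
      simp only [Seq.seq, Part.map_eq_map, Part.mem_bind_iff, Part.mem_map_iff]
      exact ⟨_, ⟨u, sF _ _ _ hu, rfl⟩, v, sH _ _ _ hv, rfl⟩
    · intro x y hy
      change y ∈ Nat.pair <$> f x <*> h x at hy
      simp only [Seq.seq, Part.map_eq_map, Part.mem_bind_iff, Part.mem_map_iff] at hy
      obtain ⟨_, ⟨u, hu, rfl⟩, v, hv, rfl⟩ := hy
      filter_upwards [cF _ _ hu, cH _ _ hv] with s h1 h2
      simp only [Part.mem_bind_iff, Part.mem_map_iff]
      exact ⟨u, h1, v, h2, rfl⟩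
  | @comp f h _ _ ihf ihh =>
    obtain ⟨F, hF, sF, cF⟩ := ihf
    obtain ⟨H, hH, sH, cH⟩ := ihh
    refine ⟨fun p x => (H p x).bind fun y => F p y, ?_, ?_, ?_⟩
    · exact Partrec.bind hH (hF.comp (Computable.fst.comp Computable.fst) Computable.snd)
    · intro s x y hy
      obtain ⟨u, hu, hv⟩ := Part.mem_bind_iff.1 hy
      exact Part.mem_bind_iff.2 ⟨u, sH _ _ _ hu, sF _ _ _ hv⟩
    · intro x y hy
      obtain ⟨u, hu, hv⟩ := Part.mem_bind_iff.1 hy
      filter_upwards [cH _ _ hu, cF _ _ hv] with s h1 h2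
      exact Part.mem_bind_iff.2 ⟨u, h1, h2⟩
  | @prec f h _ _ ihf ihh =>
    obtain ⟨F, hF, sF, cF⟩ := ihf
    obtain ⟨H, hH, sH, cH⟩ := ihh
    refine ⟨fun p x => Nat.rec (motive := fun _ => Part ℕ) (F p x.unpair.1)
      (fun y IH => IH.bind fun i => H p (Nat.pair x.unpair.1 (Nat.pair y i))) x.unpair.2,
      ?_, ?_, ?_⟩
    · refine Partrec.nat_rec (f := fun q : (ℕ × ℕ) × ℕ => q.2.unpair.2)
        (g := fun q : (ℕ × ℕ) × ℕ => F q.1 q.2.unpair.1)
        (h := fun q (r : ℕ × ℕ) => H q.1 (Nat.pair q.2.unpair.1 (Nat.pair r.1 r.2))) ?_ ?_ ?_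
      · exact (snd.comp (Primrec.unpair.comp snd)).to_comp
      · exact hF.comp Computable.fst (fst.comp (Primrec.unpair.comp snd)).to_comp
      · refine hH.comp (Computable.fst.comp Computable.fst) ?_
        exact (Primrec₂.natPair.comp (fst.comp (Primrec.unpair.comp (snd.comp fst)))
          (Primrec₂.natPair.comp (fst.comp snd) (snd.comp snd))).to_comp
    · intro s x
      simp only
      generalize x.unpair.1 = a
      generalize x.unpair.2 = n
      induction n with
      | zero => intro y hy; exact sF _ _ _ hy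
      | succ n ih =>
        intro y hy
        obtain ⟨u, hu, hv⟩ := Part.mem_bind_iff.1 hy
        exact Part.mem_bind_iff.2 ⟨u, ih _ hu, sH _ _ _ hv⟩
    · intro x
      simp only
      generalize x.unpair.1 = a
      generalize x.unpair.2 = n
      induction n with
      | zero => intro y hy; exact cF _ _ hy
      | succ n ih =>
        intro y hy
        obtain ⟨u, hu, hv⟩ := Part.mem_bind_iff.1 hy
        filter_upwards [ih _ hu, cH _ _ hv] with s h1 h2
        exact Part.mem_bind_iff.2 ⟨u, h1, h2⟩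
  | @rfind f _ ihf =>
    obtain ⟨F, hF, sF, cF⟩ := ihf
    refine ⟨fun p x => Nat.rfind fun n => (F p (Nat.pair x n)).map fun m => decide (m = 0),
      ?_, ?_, ?_⟩
    · refine Partrec.rfind ?_
      refine Partrec.map (hF.comp (Computable.fst.comp Computable.fst)
        (Primrec₂.natPair.comp (snd.comp fst) snd).to_comp) ?_
      have h0 : Primrec (fun q : ((((ℕ × ℕ) × ℕ) × ℕ) × ℕ) => decide (q.2 = 0)) := by
        have : PrimrecPred (fun q : ((((ℕ × ℕ) × ℕ) × ℕ) × ℕ) => q.2 = 0) :=
          Primrec.eq.comp snd (Primrec.const 0)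
        exact this.decide
      exact h0.to_comp
    · intro s x y hy
      obtain ⟨h1, h2⟩ := Nat.mem_rfind.1 hy
      refine Nat.mem_rfind.2 ?_
      constructor
      · obtain ⟨u, hu, hv⟩ := (Part.mem_map_iff _).1 h1
        exact (Part.mem_map_iff _).2 ⟨u, sF _ _ _ hu, hv⟩
      · intro m hm
        obtain ⟨u, hu, hv⟩ := (Part.mem_map_iff _).1 (h2 hm)
        exact (Part.mem_map_iff _).2 ⟨u, sF _ _ _ hu, hv⟩
    · intro x y hy
      obtain ⟨h1, h2⟩ := Nat.mem_rfind.1 hy
      obtain ⟨u, hu, hv⟩ := (Part.mem_map_iff _).1 h1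
      have h3 : ∀ m ∈ Finset.range y, ∀ᶠ s in atTop,
          false ∈ ((F (s, pre X s) (Nat.pair x m)).map fun m => decide (m = 0)) := by
        intro m hm
        obtain ⟨u', hu', hv'⟩ := (Part.mem_map_iff _).1 (h2 (Finset.mem_range.1 hm))
        filter_upwards [cF _ _ hu'] with s hs
        exact (Part.mem_map_iff _).2 ⟨u', hs, hv'⟩
      have h4 := (Filter.eventually_all_finset (Finset.range y)).2 h3
      filter_upwards [cF _ _ hu, h4] with s h5 h6
      exact Nat.mem_rfind.2
        ⟨(Part.mem_map_iff _).2 ⟨u, h5, hv⟩, fun {m} hm => h6 m (Finset.mem_range.2 hm)⟩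

theorem computes_of_recursiveIn {X : ℕ → Bool} {g : ℕ → ℕ}
    (h : TuringReducible (fun n => Part.some (g n)) (orc X)) : Computes X g := by
  obtain ⟨F, hF, sF, cF⟩ := apx_of_recursiveIn (RecursiveIn.iff_nat.1 h)
  refine ⟨fun q => F (q.unpair.1, q.unpair.2.unpair.1) q.unpair.2.unpair.2, ?_, ?_⟩
  · refine Partrec.nat_iff.1 ?_
    have e1 : Primrec (fun q : ℕ => q.unpair.1) := fst.comp Primrec.unpair
    have e2 : Primrec (fun q : ℕ => q.unpair.2.unpair.1) :=
      fst.comp (Primrec.unpair.comp (snd.comp Primrec.unpair))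
    have e3 : Primrec (fun q : ℕ => q.unpair.2.unpair.2) :=
      snd.comp (Primrec.unpair.comp (snd.comp Primrec.unpair))
    exact hF.comp (Primrec.pair e1 e2).to_comp e3.to_comp
  · intro x y
    simp only [Nat.unpair_pair]
    constructor
    · rintro rfl
      exact (cF x (g x) (Part.mem_some _)).exists
    · rintro ⟨s, hs⟩
      exact ((Part.mem_some_iff).1 (sF _ _ _ hs)).symm

section

variable {O : Set (ℕ →. ℕ)}

/-- Total functions recursive in `O`. -/
def TR (O : Set (ℕ →. ℕ)) (g : ℕ → ℕ) : Prop := Nat.RecursiveIn O (fun n => Part.some (g n))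

theorem TR.prim {g : ℕ → ℕ} (hg : Primrec g) : TR O g :=
  Nat.Partrec.recursiveIn (Partrec.nat_iff.1 hg.to_comp)

theorem TR.comp {f g : ℕ → ℕ} (hf : TR O f) (hg : TR O g) : TR O (fun n => f (g n)) := by
  refine (Nat.RecursiveIn.comp hf hg).of_eq fun n => ?_
  simp

theorem TR.pair {f g : ℕ → ℕ} (hf : TR O f) (hg : TR O g) :
    TR O (fun n => Nat.pair (f n) (g n)) := by
  refine (Nat.RecursiveIn.pair hf hg).of_eq fun n => ?_
  simp [Seq.seq]

theorem TR.rec {f h : ℕ → ℕ} (hf : TR O f) (hh : TR O h) :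
    TR O (fun p => Nat.rec (f p.unpair.1)
      (fun y i => h (Nat.pair p.unpair.1 (Nat.pair y i))) p.unpair.2) := by
  refine (Nat.RecursiveIn.prec hf hh).of_eq fun p => ?_
  simp only
  generalize p.unpair.1 = a
  generalize p.unpair.2 = n
  induction n with
  | zero => rfl
  | succ n ih => simp only [ih]; simp

theorem tr_pre (X : ℕ → Bool) : TR {orc X} (pre X) := by
  have hX : TR {orc X} (fun n => (X n).toNat) := Nat.RecursiveIn.oracle _ rfl
  have h1 : TR {orc X} (fun q : ℕ => q.unpair.2.unpair.2 +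
      (X q.unpair.2.unpair.1).toNat * 2 ^ q.unpair.2.unpair.1) := by
    have e2 : Primrec (fun q : ℕ => q.unpair.2.unpair.1) :=
      fst.comp (Primrec.unpair.comp (snd.comp Primrec.unpair))
    have e3 : Primrec (fun q : ℕ => q.unpair.2.unpair.2) :=
      snd.comp (Primrec.unpair.comp (snd.comp Primrec.unpair))
    have h2 : TR {orc X} (fun q : ℕ => Nat.pair q (X q.unpair.2.unpair.1).toNat) :=
      (TR.prim Primrec.id).pair (hX.comp (TR.prim e2))
    have h3 : Primrec (fun r : ℕ => r.unpair.1.unpair.2.unpair.2 +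
        r.unpair.2 * 2 ^ r.unpair.1.unpair.2.unpair.1) := by
      have a1 : Primrec (fun r : ℕ => r.unpair.1) := fst.comp Primrec.unpair
      have a2 : Primrec (fun r : ℕ => r.unpair.2) := snd.comp Primrec.unpair
      exact Primrec.nat_add.comp (e3.comp a1)
        (Primrec.nat_mul.comp a2 (prim_pow2.comp (e2.comp a1)))
    have h4 := (TR.prim (O := {orc X}) h3).comp h2
    simpa using h4
  have h5 := (TR.rec (TR.prim (Primrec.const 0)) h1).comp
    ((TR.prim (Primrec.const 0)).pair (TR.prim Primrec.id))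
  have h6 : (fun n => pre X n) = fun n => (Nat.rec (motive := fun _ => ℕ) 0
      (fun y i => i + (X y).toNat * 2 ^ y) n : ℕ) := by
    funext n
    induction n with
    | zero => simp [pre]
    | succ n ih =>
      rw [pre_succ, ih]
      cases h : X n <;> simp [h]
  change TR {orc X} (fun n => pre X n)
  rw [h6]
  simpa using h5

theorem recursiveIn_of_computes {X : ℕ → Bool} {g : ℕ → ℕ} (h : Computes X g) :
    TuringReducible (fun n => Part.some (g n)) (orc X) := by
  refine RecursiveIn.iff_nat.2 ?_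
  obtain ⟨f, hf, hfc⟩ := h
  obtain ⟨c, rfl⟩ := exists_code.1 hf
  have huniq : ∀ x y y', g x = y → g x = y' → y = y' := fun x y y' h h' => h ▸ h'
  -- the stage function, total and recursive in the oracle
  have h1 : Primrec (fun q : ℕ => encode (outv c q.unpair.1 q.unpair.2.unpair.1
      q.unpair.2.unpair.2)) := by
    have e1 : Primrec (fun q : ℕ => q.unpair.1) := fst.comp Primrec.unpair
    have e2 : Primrec (fun q : ℕ => q.unpair.2.unpair.1) :=
      fst.comp (Primrec.unpair.comp (snd.comp Primrec.unpair))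
    have e3 : Primrec (fun q : ℕ => q.unpair.2.unpair.2) :=
      snd.comp (Primrec.unpair.comp (snd.comp Primrec.unpair))
    exact Primrec.encode.comp (prim_outv (Primrec.const c) e1 e2 e3)
  have hl : Primrec (fun q : ℕ => q.unpair.1) := fst.comp Primrec.unpair
  have hr : Primrec (fun q : ℕ => q.unpair.2) := snd.comp Primrec.unpair
  -- input: `pair x s`
  have h2 : TR {orc X} (fun q : ℕ => encode (outv c q.unpair.2 (pre X q.unpair.2)
      q.unpair.1)) := by
    have h3 := (TR.prim (O := {orc X}) h1).comp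
      ((TR.prim hr).pair (((tr_pre X).comp (TR.prim hr)).pair (TR.prim hl)))
    simpa using h3
  have h4 : TR {orc X} (fun q : ℕ => 1 - encode (outv c q.unpair.2 (pre X q.unpair.2)
      q.unpair.1)) := (TR.prim (Primrec.nat_sub.comp (Primrec.const 1) Primrec.id)).comp h2
  have h5 : Nat.RecursiveIn {orc X} (fun x => Nat.rfind fun s =>
      (fun m => decide (m = 0)) <$> (Part.some (1 - encode (outv c (Nat.pair x s).unpair.2
        (pre X (Nat.pair x s).unpair.2) (Nat.pair x s).unpair.1)) : Part ℕ)) :=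
    Nat.RecursiveIn.rfind h4
  have h6 : TR {orc X} (fun q : ℕ => encode (outv c q.unpair.2 (pre X q.unpair.2)
      q.unpair.1) - 1) := (TR.prim (Primrec.nat_sub.comp Primrec.id (Primrec.const 1))).comp h2
  have h7 := Nat.RecursiveIn.comp h6
    (Nat.RecursiveIn.pair (TR.prim (O := {orc X}) Primrec.id) h5)
  refine h7.of_eq fun x => ?_
  rw [Part.eq_some_iff]
  obtain ⟨T, hT⟩ := out_complete (D := fun x y => g x = y) hfc huniq (x := x) rfl
  have hex : ∃ s, (outv c s (pre X s) x).isSome = true := ⟨T, by rw [hT T le_rfl]; rfl⟩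
  have hs := Nat.find_spec hex
  set s := Nat.find hex with hsdef
  have hmin : ∀ s' < s, ¬ (outv c s' (pre X s') x).isSome = true :=
    fun s' h => Nat.find_min hex h
  obtain ⟨y, hy⟩ := Option.isSome_iff_exists.1 hs
  have hyg : g x = y := (out_sound (D := fun x y => g x = y) hfc hy).1
  have hfind : s ∈ Nat.rfind fun s =>
      (fun m => decide (m = 0)) <$> (Part.some (1 - encode (outv c (Nat.pair x s).unpair.2
        (pre X (Nat.pair x s).unpair.2) (Nat.pair x s).unpair.1)) : Part ℕ) := by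
    refine Nat.mem_rfind.2 ?_
    constructor
    · simp [hy]
    · intro m hm
      have := hmin m hm
      rw [Bool.not_eq_true, Option.isSome_eq_false_iff, Option.isNone_iff_eq_none] at this
      simp [this]
  simp only [Seq.seq, Part.map_eq_map, Part.bind_eq_bind, Part.mem_bind_iff, Part.mem_map_iff]
  refine ⟨Nat.pair x s, ⟨Nat.pair x, ⟨x, Part.mem_some _, rfl⟩, s, ?_, rfl⟩, ?_⟩
  · exact hfind
  · simp [hy, hyg]

theorem computes_iff {X : ℕ → Bool} {g : ℕ → ℕ} :
    TuringReducible (fun n => Part.some (g n)) (orc X) ↔ Computes X g :=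
  ⟨computes_of_recursiveIn, recursiveIn_of_computes⟩

end

/-- `E` is a ceer with at least two classes. -/
def NontrivialCeer (E : ℕ → ℕ → Prop) : Prop :=
  Equivalence E ∧ REPred (fun p : ℕ × ℕ => E p.1 p.2) ∧ ∃ u v, ¬ E u v

/-- The oracle `Y` computes a diagonal function for `E`. -/
def ComputesDiagonal (Y : ℕ →. ℕ) (E : ℕ → ℕ → Prop) : Prop :=
  ∃ g : ℕ → ℕ, (∀ x, ¬ E (g x) x) ∧ TuringReducible (fun n => Part.some (g n)) Y

/-- The Turing degree of `Y` belongs to the class `Diag`. -/
def InDiag (Y : ℕ →. ℕ) : Prop := ∀ E, NontrivialCeer E → ComputesDiagonal Y E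

/-- The oracle `Y` computes the halting set. -/
def ComputesHalting (Y : ℕ →. ℕ) : Prop :=
  TuringReducible (fun n => Part.some (chi haltSet n)) Y

theorem main : ∃ E0, NontrivialCeer E0 ∧ ∀ X : ℕ → Bool, MLRandom X →
    List.TFAE [ComputesDiagonal (orc X) E0,
      ∃ Y : ℕ → ℕ, TuringReducible (fun n => Part.some (Y n)) (orc X) ∧
        InDiag (fun n => Part.some (Y n)),
      InDiag (orc X), ComputesHalting (orc X)] := by
  have hN : NontrivialCeer (EE aK) := ⟨EE_equiv aK, re_EE prim_aK, 0, 1, EE_ne aK⟩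
  refine ⟨EE aK, hN, fun X hX => ?_⟩
  tfae_have 1 → 4 := by
    rintro ⟨g, hg, hc⟩
    have h1 := random_computes prim_aK hX hg (computes_iff.1 hc)
    rw [range_aK] at h1
    exact computes_iff.2 h1
  tfae_have 4 → 3 := by
    rintro h E ⟨hE, hre, u, v, huv⟩
    obtain ⟨g, hg, hc⟩ := halt_diag (computes_iff.1 h) E hE hre huv
    exact ⟨g, hg, computes_iff.2 hc⟩
  tfae_have 3 → 2 := fun h => ⟨fun n => (X n).toNat, TuringReducible.refl _, h⟩
  tfae_have 2 → 1 := by
    rintro ⟨Y, hY, h⟩
    obtain ⟨g, hg, hc⟩ := h _ hN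
    exact ⟨g, hg, TuringReducible.trans hc hY⟩
  tfae_finish

end Helper423Ceer
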