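import Mathlib
import Pool.Agent.Helper423_Ceer.Bridge

namespace Helper423Ceer

open Classical in
/-- The words of length `l` with an initial segment in `V`. -/
noncomputable def cov (V : ℕ → ℕ → Prop) (l : ℕ) : Finset ℕ :=
  (Finset.range (2 ^ l)).filter fun r => ∃ t ≤ l, V t (r % 2 ^ t)

/-- The set `A` of bit sequences has measure zero: for every `m` it is covered by the cylinders of
a set `V` of words such that for every `l` at most the fraction `2 ^ (-m)` of the words of length
`l` have an initial segment in `V`. -/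
def Null (A : Set (ℕ → Bool)) : Prop :=
  ∀ m : ℕ, ∃ V : ℕ → ℕ → Prop, (∀ X ∈ A, ∃ t, V t (pre X t)) ∧
    ∀ l, {r : ℕ | r < 2 ^ l ∧ ∃ t ≤ l, V t (r % 2 ^ t)}.ncard * 2 ^ m ≤ 2 ^ l

theorem cov_ncard (V : ℕ → ℕ → Prop) (l : ℕ) :
    {r : ℕ | r < 2 ^ l ∧ ∃ t ≤ l, V t (r % 2 ^ t)}.ncard = (cov V l).card := by
  rw [← Set.ncard_coe_finset]
  congr 1
  ext r
  simp [cov]

theorem cov_card_le (V : ℕ → ℕ → Prop) (l : ℕ) : (cov V l).card ≤ 2 ^ l := by
  have h : cov V l ⊆ Finset.range (2 ^ l) := by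
    intro r hr
    simp only [cov, Finset.mem_filter] at hr
    exact hr.1
  simpa using Finset.card_le_card h

theorem null_iff {A : Set (ℕ → Bool)} : Null A ↔ ∀ m : ℕ, ∃ V : ℕ → ℕ → Prop,
    (∀ X ∈ A, ∃ t, V t (pre X t)) ∧ ∀ l, (cov V l).card * 2 ^ m ≤ 2 ^ l := by
  unfold Null
  simp only [cov_ncard]

theorem Null.mono {A B : Set (ℕ → Bool)} (h : A ⊆ B) (hB : Null B) : Null A := by
  intro m
  obtain ⟨V, h1, h2⟩ := hB m
  exact ⟨V, fun X hX => h1 X (h hX), h2⟩

theorem null_iUnion {A : ℕ → Set (ℕ → Bool)} (h : ∀ i, Null (A i)) : Null (⋃ i, A i) := by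
  rw [null_iff]
  intro m
  choose V hV hc using fun i => null_iff.1 (h i) (m + i + 1)
  refine ⟨fun t r => ∃ i, V i t r, ?_, fun l => ?_⟩
  · intro X hX
    obtain ⟨i, hi⟩ := Set.mem_iUnion.1 hX
    obtain ⟨t, ht⟩ := hV i X hi
    exact ⟨t, i, ht⟩
  · have h1 : cov (fun t r => ∃ i, V i t r) l ⊆ (Finset.range l).biUnion fun i => cov (V i) l := by
      intro r hr
      simp only [cov, Finset.mem_filter, Finset.mem_range] at hr
      obtain ⟨hr, t, ht, i, hi⟩ := hr
      have hmem : r ∈ cov (V i) l := by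
        simp only [cov, Finset.mem_filter, Finset.mem_range]
        exact ⟨hr, t, ht, hi⟩
      refine Finset.mem_biUnion.2 ⟨i, ?_, hmem⟩
      rw [Finset.mem_range]
      by_contra hil
      have h2 := hc i l
      have h3 : 1 ≤ (cov (V i) l).card := Finset.card_pos.2 ⟨r, hmem⟩
      have h4 : 2 ^ l < 2 ^ (m + i + 1) := Nat.pow_lt_pow_right (by norm_num) (by omega)
      have h5 : 1 * 2 ^ (m + i + 1) ≤ (cov (V i) l).card * 2 ^ (m + i + 1) :=
        Nat.mul_le_mul_right _ h3
      omega
    have h2 : ((cov (fun t r => ∃ i, V i t r) l).card : ℝ) ≤ 2 ^ l * (1 / 2) ^ m := by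
      calc ((cov (fun t r => ∃ i, V i t r) l).card : ℝ)
          ≤ ∑ i ∈ Finset.range l, ((cov (V i) l).card : ℝ) := by
            exact_mod_cast le_trans (Finset.card_le_card h1) Finset.card_biUnion_le
        _ ≤ ∑ i ∈ Finset.range l, 2 ^ l * (1 / 2 : ℝ) ^ (m + i + 1) := by
            apply Finset.sum_le_sum
            intro i _
            have h3 : ((cov (V i) l).card : ℝ) * 2 ^ (m + i + 1) ≤ 2 ^ l := by
              exact_mod_cast hc i l
            have hp : (0 : ℝ) < 2 ^ (m + i + 1) := by positivity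
            rw [one_div, inv_pow, ← div_eq_mul_inv, le_div_iff₀ hp]
            exact h3
        _ = 2 ^ l * ∑ i ∈ Finset.range l, (1 / 2 : ℝ) ^ (m + i + 1) := by rw [Finset.mul_sum]
        _ ≤ 2 ^ l * (1 / 2) ^ m := by
            apply mul_le_mul_of_nonneg_left _ (by positivity)
            have h4 := geom_bound m (m + l)
            rw [Finset.sum_Ico_eq_sum_range] at h4
            simpa using h4
    have h3 : ((cov (fun t r => ∃ i, V i t r) l).card : ℝ) * 2 ^ m ≤ 2 ^ l := by
      calc ((cov (fun t r => ∃ i, V i t r) l).card : ℝ) * 2 ^ m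
          ≤ (2 ^ l * (1 / 2) ^ m) * 2 ^ m := by
            apply mul_le_mul_of_nonneg_right h2; positivity
        _ = 2 ^ l := by rw [mul_assoc, ← mul_pow]; norm_num
    exact_mod_cast h3

open Classical in
/-- The part of `A` in the cylinder of the word `(t0, r0)` can be covered by half of the
cylinder. -/
def HalfCov (A : Set (ℕ → Bool)) (t0 r0 : ℕ) : Prop :=
  ∃ V : ℕ → ℕ → Prop, (∀ X ∈ A, pre X t0 = r0 → ∃ t, V t (pre X t)) ∧
    ∀ l ≥ t0, ((Finset.range (2 ^ l)).filter
      fun r => r % 2 ^ t0 = r0 ∧ ∃ t ≤ l, V t (r % 2 ^ t)).card * 2 ≤ 2 ^ (l - t0)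

theorem mod_mod_pow (r : ℕ) {s t : ℕ} (h : s ≤ t) : r % 2 ^ t % 2 ^ s = r % 2 ^ s :=
  Nat.mod_mod_of_dvd _ (pow_dvd_pow 2 h)

theorem card_cyl {t0 l r0 : ℕ} (h : t0 ≤ l) (hr : r0 < 2 ^ t0) :
    2 ^ (l - t0) ≤ ((Finset.range (2 ^ l)).filter fun r => r % 2 ^ t0 = r0).card := by
  have h1 : ((Finset.range (2 ^ (l - t0))).image fun k => r0 + 2 ^ t0 * k) ⊆
      (Finset.range (2 ^ l)).filter fun r => r % 2 ^ t0 = r0 := by
    intro r hr'
    obtain ⟨k, hk, rfl⟩ := Finset.mem_image.1 hr'
    rw [Finset.mem_range] at hk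
    simp only [Finset.mem_filter, Finset.mem_range]
    constructor
    · have e1 : 2 ^ l = 2 ^ t0 * 2 ^ (l - t0) := by rw [← pow_add]; congr 1; omega
      have e2 : 2 ^ t0 * (k + 1) ≤ 2 ^ t0 * 2 ^ (l - t0) := Nat.mul_le_mul_left _ hk
      rw [Nat.mul_succ] at e2
      omega
    · rw [Nat.add_mul_mod_self_left, Nat.mod_eq_of_lt hr]
  refine le_trans (le_of_eq ?_) (Finset.card_le_card h1)
  rw [Finset.card_image_of_injective, Finset.card_range]
  intro a b hab
  have hp : 0 < 2 ^ t0 := by positivity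
  simp only at hab
  exact Nat.eq_of_mul_eq_mul_left hp (Nat.add_left_cancel hab)

theorem null_of_half {A : Set (ℕ → Bool)} (h : ∀ t0 r0, r0 < 2 ^ t0 → HalfCov A t0 r0) :
    Null A := by
  classical
  have h' : ∀ t0 r0, HalfCov A t0 r0 := by
    intro t0 r0
    by_cases hr : r0 < 2 ^ t0
    · exact h t0 r0 hr
    · refine ⟨fun _ _ => False, fun X _ hX => absurd (hX ▸ pre_lt X t0) hr, fun l _ => ?_⟩
      simp
  choose W hW hWc using h'
  rw [null_iff]
  intro m
  induction m with
  | zero =>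
    refine ⟨fun _ _ => True, fun X _ => ⟨0, trivial⟩, fun l => ?_⟩
    have := cov_card_le (fun _ _ => True) l
    simpa using this
  | succ m ih =>
    obtain ⟨V, hV, hVc⟩ := ih
    -- the members of `W` of a word are longer than the word
    have hlong : ∀ t0 r0 t r, W t0 r0 t (r % 2 ^ t) → r % 2 ^ t0 = r0 → r < 2 ^ t0 ∨ t0 ≤ t →
        t0 ≤ t := by
      intro t0 r0 t r h1 h2 h3
      rcases h3 with h3 | h3
      · by_contra hcon
        have h4 := hWc t0 r0 t0 le_rfl
        have h5 : 1 ≤ ((Finset.range (2 ^ t0)).filter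
            fun r => r % 2 ^ t0 = r0 ∧ ∃ t ≤ t0, W t0 r0 t (r % 2 ^ t)).card := by
          refine Finset.card_pos.2 ⟨r, ?_⟩
          simp only [Finset.mem_filter, Finset.mem_range]
          exact ⟨h3, h2, t, by omega, h1⟩
        simp at h4
        omega
      · exact h3
    let mn : ℕ → ℕ → Prop := fun t r => V t r ∧ ∀ t' < t, ¬ V t' (r % 2 ^ t')
    refine ⟨fun t r => ∃ t0 ≤ t, mn t0 (r % 2 ^ t0) ∧ W t0 (r % 2 ^ t0) t r, ?_, fun l => ?_⟩
    · intro X hX
      have hex := hV X hX
      have h1 := Nat.find_spec hex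
      have hmin : ∀ t' < Nat.find hex, ¬ V t' (pre X t') := fun t' h => Nat.find_min hex h
      set t0 := Nat.find hex with ht0
      obtain ⟨t, ht⟩ := hW t0 (pre X t0) X hX rfl
      have hle : t0 ≤ t := by
        rcases le_or_gt t0 t with h3 | h3
        · exact h3
        · refine hlong t0 (pre X t0) t (pre X t0) ?_ (Nat.mod_eq_of_lt (pre_lt X t0))
            (Or.inl (pre_lt X t0))
          rw [pre_mod X h3.le]
          exact ht
      refine ⟨t, t0, hle, ?_, ?_⟩
      · rw [pre_mod X hle]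
        refine ⟨h1, fun t' ht' => ?_⟩
        rw [pre_mod X ht'.le]
        exact hmin t' ht'
      · rw [pre_mod X hle]
        exact ht
    · set V' : ℕ → ℕ → Prop := fun t r => ∃ t0 ≤ t, mn t0 (r % 2 ^ t0) ∧ W t0 (r % 2 ^ t0) t r
        with hV'
      let fs : ℕ → ℕ := fun r => if h : ∃ t, t ≤ l ∧ V t (r % 2 ^ t) then Nat.find h else 0
      let tau : ℕ → ℕ × ℕ := fun r => (fs r, r % 2 ^ fs r)
      have hfs : ∀ r t0, t0 ≤ l → V t0 (r % 2 ^ t0) → (∀ t' < t0, ¬ V t' (r % 2 ^ t')) →
          fs r = t0 := by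
        intro r t0 h1 h2 h3
        have hex : ∃ t, t ≤ l ∧ V t (r % 2 ^ t) := ⟨t0, h1, h2⟩
        simp only [fs, dif_pos hex]
        refine le_antisymm (Nat.find_min' hex ⟨h1, h2⟩) ?_
        by_contra hcon
        exact h3 _ (by omega) (Nat.find_spec hex).2
      have hTS : cov V' l ⊆ cov V l := by
        intro r hr
        simp only [cov, Finset.mem_filter, Finset.mem_range, hV'] at hr ⊢
        obtain ⟨hr, t, ht, t0, ht0, h1, -⟩ := hr
        rw [mod_mod_pow r ht0] at h1
        exact ⟨hr, t0, by omega, h1.1⟩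
      have hfib : ∀ s ∈ (cov V l).image tau, 2 * ((cov V' l).filter fun r => tau r = s).card ≤
          ((cov V l).filter fun r => tau r = s).card := by
        intro s hs
        obtain ⟨r1, hr1, rfl⟩ := Finset.mem_image.1 hs
        simp only [cov, Finset.mem_filter, Finset.mem_range] at hr1
        obtain ⟨hr1l, hex⟩ := hr1
        have hfr : fs r1 = Nat.find hex := by simp only [fs, dif_pos hex]
        have hsp := Nat.find_spec hex
        have hmin : ∀ t' < Nat.find hex, ¬ (t' ≤ l ∧ V t' (r1 % 2 ^ t')) :=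
          fun t' h => Nat.find_min hex h
        set t0 := Nat.find hex with ht0
        have htau : tau r1 = (t0, r1 % 2 ^ t0) := by simp only [tau, hfr]
        rw [htau]
        have e1 : ((cov V' l).filter fun r => tau r = (t0, r1 % 2 ^ t0)) ⊆
            (Finset.range (2 ^ l)).filter fun r => r % 2 ^ t0 = r1 % 2 ^ t0 ∧
              ∃ t ≤ l, W t0 (r1 % 2 ^ t0) t (r % 2 ^ t) := by
          intro r hr
          simp only [cov, Finset.mem_filter, Finset.mem_range, hV'] at hr ⊢
          obtain ⟨⟨hr, t, ht, t2, ht2, h1, h2⟩, h3⟩ := hr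
          rw [mod_mod_pow r ht2] at h1 h2
          have h4 : fs r = t2 := hfs r t2 (by omega) h1.1 (fun t' ht' => by
            have := h1.2 t' ht'
            rwa [mod_mod_pow r ht'.le] at this)
          simp only [tau, Prod.mk.injEq] at h3
          obtain ⟨h5, h6⟩ := h3
          rw [h5] at h6
          have h7 : t2 = t0 := by omega
          subst h7
          refine ⟨hr, h6, t, ht, ?_⟩
          rw [← h6]
          exact h2
        have e2 : ((Finset.range (2 ^ l)).filter fun r => r % 2 ^ t0 = r1 % 2 ^ t0) ⊆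
            (cov V l).filter fun r => tau r = (t0, r1 % 2 ^ t0) := by
          intro r hr
          simp only [cov, Finset.mem_filter, Finset.mem_range] at hr ⊢
          obtain ⟨hr, h1⟩ := hr
          have h2 : ∀ t' ≤ t0, r % 2 ^ t' = r1 % 2 ^ t' := by
            intro t' ht'
            rw [← mod_mod_pow r ht', h1, mod_mod_pow r1 ht']
          have h3 : fs r = t0 := hfs r t0 hsp.1 (by rw [h1]; exact hsp.2) (fun t' ht' hv => by
            rw [h2 t' ht'.le] at hv
            exact hmin t' ht' ⟨by omega, hv⟩)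
          refine ⟨⟨hr, t0, hsp.1, by rw [h1]; exact hsp.2⟩, ?_⟩
          simp only [tau, h3, h1]
        have e3 := hWc t0 (r1 % 2 ^ t0) l hsp.1
        have e4 := card_cyl (l := l) hsp.1 (Nat.mod_lt r1 (show 2 ^ t0 > 0 by positivity))
        calc 2 * ((cov V' l).filter fun r => tau r = (t0, r1 % 2 ^ t0)).card
            ≤ 2 * ((Finset.range (2 ^ l)).filter fun r => r % 2 ^ t0 = r1 % 2 ^ t0 ∧
              ∃ t ≤ l, W t0 (r1 % 2 ^ t0) t (r % 2 ^ t)).card :=
              Nat.mul_le_mul_left _ (Finset.card_le_card e1)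
          _ ≤ 2 ^ (l - t0) := by rw [mul_comm]; exact e3
          _ ≤ ((Finset.range (2 ^ l)).filter fun r => r % 2 ^ t0 = r1 % 2 ^ t0).card := e4
          _ ≤ _ := Finset.card_le_card e2
      have h2 : 2 * (cov V' l).card ≤ (cov V l).card := by
        rw [Finset.card_eq_sum_card_fiberwise (f := tau) (s := cov V' l)
          (t := (cov V l).image tau) (fun r hr => Finset.mem_coe.2
            (Finset.mem_image_of_mem tau (hTS hr))),
          Finset.card_eq_sum_card_fiberwise (f := tau) (s := cov V l)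
          (t := (cov V l).image tau) (fun r hr => Finset.mem_coe.2
            (Finset.mem_image_of_mem tau hr)), Finset.mul_sum]
        exact Finset.sum_le_sum hfib
      calc (cov V' l).card * 2 ^ (m + 1) = (2 * (cov V' l).card) * 2 ^ m := by ring
        _ ≤ (cov V l).card * 2 ^ m := Nat.mul_le_mul_right _ h2
        _ ≤ 2 ^ l := hVc l

end Helper423Ceer
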