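import Mathlib
import Pool.Agent.Helper423_Ceer.Null

namespace Helper423Ceer

open Nat.Partrec (Code)
open Nat.Partrec.Code Encodable Denumerable
open Primrec (fst snd)
open Filter

theorem card_cyl_le {t0 l r0 : ℕ} (h : t0 ≤ l) :
    ((Finset.range (2 ^ l)).filter fun r => r % 2 ^ t0 = r0).card ≤ 2 ^ (l - t0) := by
  have h1 := card_mod (fun r => r = r0) h
  have h2 : ((Finset.range (2 ^ t0)).filter fun r => r = r0).card ≤ 1 := by
    rw [Finset.card_le_one]
    intro a ha b hb
    simp only [Finset.mem_filter] at ha hb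
    rw [ha.2, hb.2]
  calc _ ≤ _ := h1
    _ ≤ 2 ^ (l - t0) * 1 := Nat.mul_le_mul_left _ h2
    _ = _ := mul_one _

theorem HalfCov.intro {A : Set (ℕ → Bool)} {t0 r0 : ℕ} (V : ℕ → ℕ → Prop)
    (h1 : ∀ X ∈ A, pre X t0 = r0 → ∃ t, V t (pre X t))
    (h2 : ∀ l ≥ t0, ∀ S : Finset ℕ,
      (∀ r ∈ S, r < 2 ^ l ∧ r % 2 ^ t0 = r0 ∧ ∃ t ≤ l, V t (r % 2 ^ t)) →
      S.card * 2 ≤ 2 ^ (l - t0)) : HalfCov A t0 r0 := by
  refine ⟨V, h1, fun l hl => h2 l hl _ fun r hr => ?_⟩
  simp only [Finset.mem_filter, Finset.mem_range] at hr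
  exact hr

/-- The event that there is a certificate for `n` in `r` up to stage `l`, inside a cylinder. -/
def ev (a : ℕ → ℕ) (c : Code) (n0 s0 t0 r0 : ℕ) (r : ℕ) (p : ℕ × ℕ) : Prop :=
  r % 2 ^ t0 = r0 ∧ ∃ t ∈ List.range (p.2 + 1), cert a c n0 s0 t (r % 2 ^ t) p.1

noncomputable instance (a : ℕ → ℕ) (c : Code) (n0 s0 t0 r0 : ℕ) :
    DecidableRel (ev a c n0 s0 t0 r0) := fun _ _ => Classical.dec _

noncomputable def cnt2 (a : ℕ → ℕ) (c : Code) (n0 s0 t0 r0 : ℕ) (p : ℕ × ℕ) : ℕ :=
  ((List.range (2 ^ p.2)).filter (fun r => decide (ev a c n0 s0 t0 r0 r p))).length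

theorem prim_ev {a : ℕ → ℕ} (ha : Primrec a) (c : Code) (n0 s0 t0 r0 : ℕ) :
    PrimrecRel (ev a c n0 s0 t0 r0) := by
  unfold ev
  have h : PrimrecRel (fun (t : ℕ) (q : ℕ × (ℕ × ℕ)) =>
      cert a c n0 s0 t (q.1 % 2 ^ t) q.2.1) := by
    have e1 : Primrec (fun x : ℕ × (ℕ × (ℕ × ℕ)) => x.2.1 % 2 ^ x.1) :=
      Primrec.nat_mod.comp (fst.comp snd) (prim_pow2.comp fst)
    exact (prim_cert ha c n0 s0).comp (Primrec.pair (Primrec.pair fst e1)
      (fst.comp (snd.comp snd)))
  have h2 : PrimrecPred (fun q : ℕ × (ℕ × ℕ) =>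
      ∃ t ∈ List.range (q.2.2 + 1), cert a c n0 s0 t (q.1 % 2 ^ t) q.2.1) :=
    (PrimrecRel.exists_mem_list h).comp
      (Primrec.list_range.comp (Primrec.succ.comp (snd.comp snd))) Primrec.id
  have h3 : PrimrecPred (fun q : ℕ × (ℕ × ℕ) => q.1 % 2 ^ t0 = r0) :=
    Primrec.eq.comp (Primrec.nat_mod.comp fst (Primrec.const _)) (Primrec.const _)
  exact h3.and h2

theorem prim_cnt2 {a : ℕ → ℕ} (ha : Primrec a) (c : Code) (n0 s0 t0 r0 : ℕ) :
    Primrec (cnt2 a c n0 s0 t0 r0) := by
  unfold cnt2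
  refine Primrec.list_length.comp ((PrimrecRel.listFilter (prim_ev ha c n0 s0 t0 r0)).comp
    (g := fun p : ℕ × ℕ => List.range (2 ^ p.2)) (h := fun p => p) ?_ Primrec.id)
  exact Primrec.list_range.comp (prim_pow2.comp snd)

theorem cnt2_eq (a : ℕ → ℕ) (c : Code) (n0 s0 t0 r0 : ℕ) (p : ℕ × ℕ) :
    cnt2 a c n0 s0 t0 r0 p =
      ((Finset.range (2 ^ p.2)).filter fun r => ev a c n0 s0 t0 r0 r p).card := rfl

/-- The sequences which compute a diagonal function for `EE a` with the program `c`, and pass the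
test of level `m`. -/
def AA (a : ℕ → ℕ) (c : Code) (m : ℕ) : Set (ℕ → Bool) :=
  {X | (∃ g : ℕ → ℕ, (∀ x, ¬ EE a (g x) x) ∧
    ∀ x y, g x = y ↔ ∃ s, y ∈ eval c (Nat.pair s (Nat.pair (pre X s) x))) ∧
    ∀ t, ¬ VV a (encode c) m t (pre X t)}

theorem half_AA {a : ℕ → ℕ} (ha : Primrec a) (hn : ¬ ComputablePred (fun n => n ∈ Set.range a))
    (c : Code) (m t0 r0 : ℕ) : HalfCov (AA a c m) t0 r0 := by
  classical
  by_contra hH
  apply hn
  set n0 := max m (encode c) with hn0
  obtain ⟨s0, hs0⟩ : ∃ s0, ∀ m < n0, (∃ t, a t = m) → ∃ t < s0, a t = m := by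
    have h1 : ∀ m, ∀ᶠ s0 in atTop, (∃ t, a t = m) → ∃ t < s0, a t = m := by
      intro m
      by_cases h : ∃ t, a t = m
      · obtain ⟨t, ht⟩ := h
        filter_upwards [eventually_gt_atTop t] with s hs _
        exact ⟨t, hs, ht⟩
      · exact Eventually.of_forall (fun _ h' => absurd h' h)
    have h2 := (Filter.eventually_all_finset (Finset.range n0)).2
      (fun m (_ : m ∈ Finset.range n0) => h1 m)
    obtain ⟨s0, hs0⟩ := h2.exists
    exact ⟨s0, fun m hm => hs0 m (Finset.mem_range.2 hm)⟩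
  -- certificates are found, and are correct, for the members of `AA a c m`
  have hex : ∀ X ∈ AA a c m, ∀ n, ∃ s, cert a c n0 s0 s (pre X s) n := by
    rintro X ⟨⟨g, hg, hc⟩, -⟩ n
    exact cert_exists (a := a) hc n0 s0 n
  have hsound : ∀ X ∈ AA a c m, ∀ s n, cert a c n0 s0 s (pre X s) n → (∃ t, a t = n) →
      ∃ t < s, a t = n := by
    rintro X ⟨⟨g, hg, hc⟩, hV⟩ s n h1 h2
    refine cert_sound hc hg (fun t h3 h4 h5 => hV t ⟨⟨h3, by omega, by omega⟩, h5⟩) hs0 h1 h2
  -- the search for a stage at which the majority has certificates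
  have hfind : ∀ n, ∃ l, t0 ≤ l ∧ 2 ^ (l - t0) < cnt2 a c n0 s0 t0 r0 (n, l) * 2 := by
    intro n
    by_contra hcon
    push Not at hcon
    apply hH
    refine HalfCov.intro (fun t r => cert a c n0 s0 t r n) (fun X hX _ => hex X hX n)
      fun l hl S hS => ?_
    have h1 := hcon l hl
    rw [cnt2_eq] at h1
    refine le_trans (Nat.mul_le_mul_right _ (Finset.card_le_card fun r hr => ?_)) h1
    obtain ⟨h3, h4, t, ht, h5⟩ := hS r hr
    simp only [Finset.mem_filter, Finset.mem_range]
    exact ⟨h3, h4, t, List.mem_range.2 (Nat.lt_succ_of_le ht), h5⟩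
  have hP : ComputablePred (fun q : ℕ × ℕ =>
      t0 ≤ q.2 ∧ 2 ^ (q.2 - t0) < cnt2 a c n0 s0 t0 r0 (q.1, q.2) * 2) := by
    apply PrimrecPred.computablePred
    refine PrimrecPred.and (Primrec.nat_le.comp (Primrec.const _) snd) ?_
    refine Primrec.nat_lt.comp (prim_pow2.comp (Primrec.nat_sub.comp snd (Primrec.const _))) ?_
    exact Primrec.nat_mul.comp ((prim_cnt2 ha c n0 s0 t0 r0).comp Primrec.id) (Primrec.const 2)
  have hcf : Computable (fun n => Nat.find (hfind n)) :=
    Computable.find (P := fun (n : ℕ) (l : ℕ) =>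
      t0 ≤ l ∧ 2 ^ (l - t0) < cnt2 a c n0 s0 t0 r0 (n, l) * 2) hP hfind
  -- this gives a decision procedure
  have key : ∀ n, n ∈ Set.range a ↔ ∃ t ∈ List.range (Nat.find (hfind n)), a t = n := by
    intro n
    constructor
    · intro hna
      obtain ⟨hl, hcount⟩ := Nat.find_spec (hfind n)
      set l := Nat.find (hfind n) with hldef
      by_contra hcon
      have hcon' : ∀ t < l, a t ≠ n := fun t ht h => hcon ⟨t, List.mem_range.2 ht, h⟩
      apply hH
      set D := (Finset.range (2 ^ l)).filter fun r => r % 2 ^ t0 = r0 ∧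
        ¬ ev a c n0 s0 t0 r0 r (n, l) with hD
      refine HalfCov.intro (fun t r => t = l ∧ r ∈ D) (fun X hX hX0 => ⟨l, rfl, ?_⟩)
        fun l' hl' S hS => ?_
      · simp only [hD, Finset.mem_filter, Finset.mem_range]
        refine ⟨pre_lt X l, by rw [pre_mod X hl, hX0], ?_⟩
        rintro ⟨-, t, ht, h1⟩
        rw [List.mem_range, Nat.lt_succ_iff] at ht
        simp only at ht
        rw [pre_mod X ht] at h1
        obtain ⟨t', ht', h2⟩ := hsound X hX t n h1 hna
        exact hcon' t' (by omega) h2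
      · have hDc : D.card * 2 ≤ 2 ^ (l - t0) := by
          have h1 : D.card + cnt2 a c n0 s0 t0 r0 (n, l) ≤ 2 ^ (l - t0) := by
            rw [cnt2_eq]
            refine le_trans (le_of_eq ?_) (card_cyl_le (r0 := r0) hl)
            rw [← Finset.card_union_of_disjoint]
            · congr 1
              ext r
              simp only [hD, Finset.mem_union, Finset.mem_filter, Finset.mem_range]
              constructor
              · rintro (⟨h1, h2, -⟩ | ⟨h1, h2, -⟩)
                · exact ⟨h1, h2⟩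
                · exact ⟨h1, h2⟩
              · rintro ⟨h1, h2⟩
                by_cases h3 : ev a c n0 s0 t0 r0 r (n, l)
                · exact Or.inr ⟨h1, h3⟩
                · exact Or.inl ⟨h1, h2, h3⟩
            · rw [Finset.disjoint_left]
              intro r hr hr'
              simp only [hD, Finset.mem_filter] at hr hr'
              exact hr.2.2 hr'.2
          omega
        rcases lt_or_ge l' l with hlt | hge
        · have : S = ∅ := by
            rw [Finset.eq_empty_iff_forall_notMem]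
            intro r hr
            obtain ⟨-, -, t, ht, h1, -⟩ := hS r hr
            omega
          rw [this]
          simp
        · have h1 : S ⊆ (Finset.range (2 ^ l')).filter fun r => r % 2 ^ l ∈ D := by
            intro r hr
            obtain ⟨h3, -, t, -, h4, h5⟩ := hS r hr
            subst h4
            simp only [Finset.mem_filter, Finset.mem_range]
            exact ⟨h3, h5⟩
          have h2 := card_mod (fun r => r ∈ D) hge
          have h3 : ((Finset.range (2 ^ l)).filter fun r => r ∈ D).card ≤ D.card := by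
            apply Finset.card_le_card
            intro r hr
            simp only [Finset.mem_filter] at hr
            exact hr.2
          calc S.card * 2 ≤ (2 ^ (l' - l) * D.card) * 2 :=
                Nat.mul_le_mul_right _ (le_trans (Finset.card_le_card h1)
                  (le_trans h2 (Nat.mul_le_mul_left _ h3)))
            _ = 2 ^ (l' - l) * (D.card * 2) := by ring
            _ ≤ 2 ^ (l' - l) * 2 ^ (l - t0) := Nat.mul_le_mul_left _ hDc
            _ = 2 ^ (l' - t0) := by rw [← pow_add]; congr 1; omega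
    · rintro ⟨t, -, ht⟩
      exact ⟨t, ht⟩
  obtain ⟨f2, hf2, hf2'⟩ := ComputablePred.computable_iff.1 (prim_seen ha).computablePred
  apply ComputablePred.computable_iff.2
  refine ⟨fun n => f2 (Nat.find (hfind n), n), hf2.comp (Computable.pair hcf Computable.id), ?_⟩
  funext n
  have h1 := congrFun hf2' (Nat.find (hfind n), n)
  simp only at h1
  rw [← h1]
  exact propext (key n)

theorem null_AA {a : ℕ → ℕ} (ha : Primrec a) (hn : ¬ ComputablePred (fun n => n ∈ Set.range a))
    (c : Code) (m : ℕ) : Null (AA a c m) :=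
  null_of_half fun t0 r0 _ => half_AA ha hn c m t0 r0

theorem null_diag {a : ℕ → ℕ} (ha : Primrec a)
    (hn : ¬ ComputablePred (fun n => n ∈ Set.range a)) :
    Null {X : ℕ → Bool | ∃ g : ℕ → ℕ, (∀ x, ¬ EE a (g x) x) ∧ Computes X g} := by
  have h1 : ∀ i : ℕ, Null (if i.unpair.1 = 0 then
      {X : ℕ → Bool | ∀ m, ∃ t, VV a i.unpair.2 m t (pre X t)}
      else AA a (ofNat Code i.unpair.2.unpair.1) i.unpair.2.unpair.2) := by
    intro i
    split_ifs
    · intro m
      exact ⟨VV a i.unpair.2 m, fun X hX => hX m, fun l => VV_measure a i.unpair.2 m l⟩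
    · exact null_AA ha hn _ _
  refine Null.mono ?_ (null_iUnion h1)
  rintro X ⟨g, hg, f, hf, hfc⟩
  obtain ⟨c, rfl⟩ := exists_code.1 hf
  rw [Set.mem_iUnion]
  by_cases h : ∀ m, ∃ t, VV a (encode c) m t (pre X t)
  · refine ⟨Nat.pair 0 (encode c), ?_⟩
    simp only [Nat.unpair_pair, if_true]
    exact h
  · push Not at h
    obtain ⟨m, hm⟩ := h
    refine ⟨Nat.pair 1 (Nat.pair (encode c) m), ?_⟩
    simp only [Nat.unpair_pair, one_ne_zero, if_false, ofNat_encode]
    exact ⟨⟨g, hg, hfc⟩, hm⟩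

theorem not_computable_aK : ¬ ComputablePred (fun n => n ∈ Set.range aK) := by
  rw [range_aK]
  intro h
  apply ComputablePred.halting_problem 0
  obtain ⟨f, hf, hf'⟩ := ComputablePred.computable_iff.1 h
  apply ComputablePred.computable_iff.2
  refine ⟨fun c => f (Nat.pair (encode c) 0), hf.comp ?_, ?_⟩
  · exact (Primrec₂.natPair.comp Primrec.encode (Primrec.const 0)).to_comp
  · funext c
    have h1 := congrFun hf' (Nat.pair (encode c) 0)
    simp only [haltSet, Set.mem_ofPred_eq, Nat.unpair_pair, ofNat_encode] at h1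
    exact h1

theorem null_main : Null {X : ℕ → Bool | ComputesDiagonal (orc X) (EE aK)} := by
  refine Null.mono ?_ (null_diag prim_aK not_computable_aK)
  rintro X ⟨g, hg, hc⟩
  exact ⟨g, hg, computes_iff.1 hc⟩

end Helper423Ceer
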