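import Mathlib
import Pool.Agent.Helper423_Ceer.Zero
import Pool.Agent.Helper583.WDDefs

namespace Helper423Ceer

open Nat.Partrec (Code)
open Nat.Partrec.Code Encodable Denumerable
open Primrec (fst snd)
open Pool.Agent.Helper583

variable {O : Set (ℕ →. ℕ)}

theorem TR.search {G s : ℕ → ℕ} (hG : TR O G) (h1 : ∀ n, ∃ j, G (Nat.pair n j) = s n + 1)
    (h2 : ∀ n j, G (Nat.pair n j) ≠ 0 → G (Nat.pair n j) = s n + 1) : TR O s := by
  have h4 : TR O (fun q : ℕ => 1 - G q) :=
    (TR.prim (Primrec.nat_sub.comp (Primrec.const 1) Primrec.id)).comp hG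
  have h5 : Nat.RecursiveIn O (fun x => Nat.rfind fun j =>
      (fun m => decide (m = 0)) <$> (Part.some (1 - G (Nat.pair x j)) : Part ℕ)) :=
    Nat.RecursiveIn.rfind h4
  have h6 : TR O (fun q : ℕ => G q - 1) :=
    (TR.prim (Primrec.nat_sub.comp Primrec.id (Primrec.const 1))).comp hG
  have h7 := Nat.RecursiveIn.comp h6 (Nat.RecursiveIn.pair (TR.prim (O := O) Primrec.id) h5)
  refine h7.of_eq fun x => ?_
  rw [Part.eq_some_iff]
  have hex : ∃ j, G (Nat.pair x j) ≠ 0 := by
    obtain ⟨j, hj⟩ := h1 x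
    exact ⟨j, by omega⟩
  have hs := Nat.find_spec hex
  have hmin : ∀ j' < Nat.find hex, ¬ G (Nat.pair x j') ≠ 0 := fun j' h => Nat.find_min hex h
  set j := Nat.find hex with hjdef
  have hj := h2 x j hs
  have hfind : j ∈ Nat.rfind fun j =>
      (fun m => decide (m = 0)) <$> (Part.some (1 - G (Nat.pair x j)) : Part ℕ) := by
    refine Nat.mem_rfind.2 ?_
    constructor
    · simp [hj]
    · intro m hm
      have := hmin m hm
      rw [not_not] at this
      simp [this]
  simp only [Seq.seq, Part.map_eq_map, Part.bind_eq_bind, Part.mem_bind_iff, Part.mem_map_iff]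
  refine ⟨Nat.pair x j, ⟨Nat.pair x, ⟨x, Part.mem_some _, rfl⟩, j, ?_, rfl⟩, ?_⟩
  · exact hfind
  · simp [hj]

theorem TR.preList {z : ℕ → ℕ} (hz : TR O z) : TR O (fun m => encode (WD.pre z m)) := by
  have h1 : TR O (fun q : ℕ => encode (ofNat (List ℕ) q.unpair.2.unpair.2 ++
      [z q.unpair.2.unpair.1])) := by
    have e2 : Primrec (fun q : ℕ => q.unpair.2.unpair.1) :=
      fst.comp (Primrec.unpair.comp (snd.comp Primrec.unpair))
    have e3 : Primrec (fun q : ℕ => q.unpair.2.unpair.2) :=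
      snd.comp (Primrec.unpair.comp (snd.comp Primrec.unpair))
    have h2 : TR O (fun q : ℕ => Nat.pair q (z q.unpair.2.unpair.1)) :=
      (TR.prim Primrec.id).pair (hz.comp (TR.prim e2))
    have h3 : Primrec (fun r : ℕ => encode (ofNat (List ℕ) r.unpair.1.unpair.2.unpair.2 ++
        [r.unpair.2])) := by
      have a1 : Primrec (fun r : ℕ => r.unpair.1) := fst.comp Primrec.unpair
      have a2 : Primrec (fun r : ℕ => r.unpair.2) := snd.comp Primrec.unpair
      exact Primrec.encode.comp (Primrec.list_concat.comp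
        ((Primrec.ofNat (List ℕ)).comp (e3.comp a1)) a2)
    have h4 := (TR.prim (O := O) h3).comp h2
    simpa using h4
  have h5 := (TR.rec (TR.prim (Primrec.const (encode ([] : List ℕ)))) h1).comp
    ((TR.prim (Primrec.const 0)).pair (TR.prim Primrec.id))
  have h6 : (fun n => encode (WD.pre z n)) = fun n => (Nat.rec (motive := fun _ => ℕ)
      (encode ([] : List ℕ))
      (fun y i => encode (ofNat (List ℕ) i ++ [z y])) n : ℕ) := by
    funext n
    induction n with
    | zero => simp [WD.pre]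
    | succ n ih =>
      simp only
      rw [← ih, ofNat_encode]
      congr 1
      simp [WD.pre, List.range_succ]
  rw [h6]
  simpa using h5

theorem TR.of_computes {ψ : List ℕ × ℕ →. ℕ} (hψ : Partrec ψ) {z s : ℕ → ℕ} (hz : TR O z)
    (h : WD.Computes ψ z s) : TR O s := by
  obtain ⟨c, hc⟩ := exists_code.1 hψ
  have hc' : ∀ (L : List ℕ) (n : ℕ), eval c (Nat.pair (encode L) n) = ψ (L, n) := by
    intro L n
    rw [hc]
    have : (Nat.pair (encode L) n) = encode (L, n) := by simp
    rw [this]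
    change (((decode (encode (L, n)) : Option (List ℕ × ℕ)) : Part (List ℕ × ℕ)).bind
      fun a => Part.map encode (ψ a)) = ψ (L, n)
    rw [encodek]
    simp [Part.map_id']
  have hr1 : Primrec (fun q : ℕ => q.unpair.1) := fst.comp Primrec.unpair
  have hr2 : Primrec (fun q : ℕ => q.unpair.2) := snd.comp Primrec.unpair
  have hr21 : Primrec (fun q : ℕ => q.unpair.2.unpair.1) := hr1.comp hr2
  have hr22 : Primrec (fun q : ℕ => q.unpair.2.unpair.2) := hr2.comp hr2
  -- input: `pair n (pair m k)`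
  have hG : TR O (fun q : ℕ => encode (evaln q.unpair.2.unpair.2 c
      (Nat.pair (encode (WD.pre z q.unpair.2.unpair.1)) q.unpair.1))) := by
    have h1 : TR O (fun q : ℕ => Nat.pair q (encode (WD.pre z q.unpair.2.unpair.1))) :=
      (TR.prim Primrec.id).pair (hz.preList.comp (TR.prim hr21))
    have h2 : Primrec (fun r : ℕ => encode (evaln r.unpair.1.unpair.2.unpair.2 c
        (Nat.pair r.unpair.2 r.unpair.1.unpair.1))) := by
      refine Primrec.encode.comp (primrec_evaln.comp (Primrec.pair (Primrec.pair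
        (hr22.comp hr1) (Primrec.const c)) ?_))
      exact Primrec₂.natPair.comp hr2 (hr1.comp hr1)
    have h3 := (TR.prim (O := O) h2).comp h1
    simpa using h3
  refine TR.search hG ?_ ?_
  · intro n
    obtain ⟨m, hm⟩ := (h n).1
    rw [← hc'] at hm
    obtain ⟨k, hk⟩ := evaln_complete.1 hm
    refine ⟨Nat.pair m k, ?_⟩
    simp only [Nat.unpair_pair]
    rw [Option.mem_def.1 hk]
    rfl
  · intro n j hj
    simp only [Nat.unpair_pair] at hj ⊢
    cases hv : evaln j.unpair.2 c (Nat.pair (encode (WD.pre z j.unpair.1)) n) with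
    | none => rw [hv] at hj; exact absurd rfl hj
    | some v =>
      have h1 := evaln_sound (Option.mem_def.2 hv)
      rw [hc'] at h1
      rw [(h n).2 _ _ h1]
      rfl

theorem TR.join {p q : ℕ → ℕ} (hp : TR O p) (hq : TR O q) : TR O (WD.join p q) := by
  have h1 : TR O (fun n => Nat.pair n (Nat.pair (p (n / 2)) (q (n / 2)))) :=
    (TR.prim Primrec.id).pair ((hp.comp (TR.prim (Primrec.nat_div.comp Primrec.id
      (Primrec.const 2)))).pair (hq.comp (TR.prim (Primrec.nat_div.comp Primrec.id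
      (Primrec.const 2)))))
  have h2 : Primrec (fun r : ℕ => if r.unpair.1 % 2 = 0 then r.unpair.2.unpair.1
      else r.unpair.2.unpair.2) := by
    have hr1 : Primrec (fun q : ℕ => q.unpair.1) := fst.comp Primrec.unpair
    have hr2 : Primrec (fun q : ℕ => q.unpair.2) := snd.comp Primrec.unpair
    exact Primrec.ite (Primrec.eq.comp (Primrec.nat_mod.comp hr1 (Primrec.const 2))
      (Primrec.const 0)) (hr1.comp hr2) (hr2.comp hr2)
  have h3 := (TR.prim (O := O) h2).comp h1
  have h4 : WD.join p q = fun n => if n % 2 = 0 then p (n / 2) else q (n / 2) := rfl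
  rw [h4]
  simpa using h3

theorem TR.of_computable {g : ℕ → ℕ} (hg : Computable g) : TR O g :=
  Nat.Partrec.recursiveIn (Partrec.nat_iff.1 hg)

theorem computable_of_TR {g : ℕ → ℕ} (hg : TR ∅ g) : Computable g :=
  Partrec.nat_iff.2 (Nat.RecursiveIn.partrec_of_oracle (O := ∅)
    (fun g h => absurd h (Set.notMem_empty g)) hg)

/-- A computable name of the ceer. -/
def nm (k : ℕ) : ℕ :=
  if RR aK k.unpair.1 k.unpair.2.unpair.1 = RR aK k.unpair.1 k.unpair.2.unpair.2
  then k.unpair.2 else Nat.pair 0 0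

theorem comp_nm : Computable nm := by
  unfold nm
  have hr1 : Computable (fun q : ℕ => q.unpair.1) := (fst.comp Primrec.unpair).to_comp
  have hr2 : Computable (fun q : ℕ => q.unpair.2) := (snd.comp Primrec.unpair).to_comp
  have e1 : Computable (fun k : ℕ => RR aK k.unpair.1 k.unpair.2.unpair.1) :=
    (comp_RR prim_aK).comp hr1 (hr1.comp hr2)
  have e2 : Computable (fun k : ℕ => RR aK k.unpair.1 k.unpair.2.unpair.2) :=
    (comp_RR prim_aK).comp hr1 (hr2.comp hr2)
  have e3 : Computable (fun k : ℕ => decide (RR aK k.unpair.1 k.unpair.2.unpair.1 =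
      RR aK k.unpair.1 k.unpair.2.unpair.2)) := by
    have : Computable₂ (fun a b : ℕ => decide (a = b)) := Primrec.eq.decide.to_comp
    exact this.comp e1 e2
  refine (Computable.cond e3 hr2 (Computable.const (Nat.pair 0 0))).of_eq fun k => ?_
  by_cases h : RR aK k.unpair.1 k.unpair.2.unpair.1 = RR aK k.unpair.1 k.unpair.2.unpair.2
  · simp [h]
  · simp [h]

theorem rel_nm (x y : ℕ) : WD.Rel nm x y ↔ EE aK x y := by
  constructor
  · rintro ⟨k, hk⟩
    unfold nm at hk
    split_ifs at hk with h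
    · rw [hk] at h
      simp only [Nat.unpair_pair] at h
      exact ⟨_, h⟩
    · obtain ⟨rfl, rfl⟩ := Nat.pair_eq_pair.1 hk
      exact (EE_equiv aK).refl _
  · rintro ⟨t, ht⟩
    refine ⟨Nat.pair t (Nat.pair x y), ?_⟩
    unfold nm
    simp only [Nat.unpair_pair]
    rw [if_pos ht]

theorem inst_nm : WD.DIAG.inst nm := by
  have h : WD.Rel nm = EE aK := by
    funext x y
    exact propext (rel_nm x y)
  constructor
  · rw [h]; exact EE_equiv aK
  · rw [h]; exact ⟨0, 1, EE_ne aK⟩

/-- `X` computes a solution of the instance `r` of the problem `Q`. -/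
def Solves (Q : WD.Problem) (r : ℕ → ℕ) (X : ℕ → Bool) : Prop :=
  ∃ q : ℕ → ℕ, Q.sol r q ∧ TuringReducible (fun n => Part.some (q n)) (orc X)

theorem null_nm : Null {X | Solves WD.DIAG nm X} := by
  refine Null.mono ?_ null_main
  rintro X ⟨g, hg, hc⟩
  exact ⟨g, fun x h => hg x ((rel_nm _ _).2 h), hc⟩

theorem not_le {Q : WD.Problem}
    (hQ : ∀ r, Computable r → Q.inst r → ¬ Null {X | Solves Q r X}) : ¬ WD.WLE WD.DIAG Q := by
  rintro ⟨φ, ψ, hφ, hψ, hr⟩
  obtain ⟨r, h1, h2, h3⟩ := hr nm inst_nm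
  have hrc : Computable r :=
    computable_of_TR (TR.of_computes hφ (TR.of_computable comp_nm) h1)
  apply hQ r hrc h2
  refine Null.mono ?_ null_nm
  rintro X ⟨q, hq, hqX⟩
  obtain ⟨s, hs1, hs2⟩ := h3 q hq
  refine ⟨s, hs2, ?_⟩
  have hqX' : TR {orc X} q := RecursiveIn.iff_nat.1 hqX
  exact RecursiveIn.iff_nat.2 (TR.of_computes hψ (TR.join (TR.of_computable comp_nm) hqX') hs1)

end Helper423Ceer
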