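import Mathlib
import Pool.Agent.Helper423_Ceer.Wei

namespace Helper423Ceer

open Pool.Agent.Helper583

theorem pre_testBit (r l : ℕ) : pre (fun i => r.testBit i) l = r % 2 ^ l := by
  induction l with
  | zero => simp [pre, Nat.mod_one]
  | succ l ih =>
    rw [pre_succ, ih, Nat.mod_pow_succ, Nat.testBit_eq_decide_div_mod_eq]
    have h : r / 2 ^ l % 2 < 2 := Nat.mod_lt _ (by norm_num)
    by_cases h1 : r / 2 ^ l % 2 = 1
    · simp [h1]
    · have h0 : r / 2 ^ l % 2 = 0 := by omega
      simp [h0]

theorem continuous_pre (t : ℕ) : Continuous (fun X : ℕ → Bool => pre X t) := by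
  unfold pre
  refine continuous_finsetSum _ fun i _ => ?_
  have h : Continuous (fun b : Bool => if b = true then 2 ^ i else 0) :=
    continuous_of_discreteTopology
  exact h.comp (continuous_apply i)

theorem not_null_univ : ¬ Null (Set.univ : Set (ℕ → Bool)) := by
  intro h
  obtain ⟨V, h1, h2⟩ := null_iff.1 h 1
  have h3 : ∀ l, ∃ r, r < 2 ^ l ∧ ∀ t ≤ l, ¬ V t (r % 2 ^ t) := by
    intro l
    by_contra hcon
    push Not at hcon
    have h4 : Finset.range (2 ^ l) ⊆ cov V l := by
      intro r hr
      rw [Finset.mem_range] at hr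
      simp only [cov, Finset.mem_filter, Finset.mem_range]
      exact ⟨hr, hcon r hr⟩
    have h5 := Finset.card_le_card h4
    rw [Finset.card_range] at h5
    have h6 := h2 l
    have h7 : 0 < 2 ^ l := by positivity
    omega
  let F : ℕ → Set (ℕ → Bool) := fun l => {X | ∀ t ≤ l, ¬ V t (pre X t)}
  have hclosed : ∀ l, IsClosed (F l) := by
    intro l
    have : F l = ⋂ t : ℕ, ⋂ _ : t ≤ l, (fun X : ℕ → Bool => pre X t) ⁻¹' {r | ¬ V t r} := by
      ext X
      simp [F]
    rw [this]
    refine isClosed_iInter fun t => isClosed_iInter fun _ => ?_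
    exact (isClosed_discrete _).preimage (continuous_pre t)
  obtain ⟨X, hX⟩ := IsCompact.nonempty_iInter_of_sequence_nonempty_isCompact_isClosed F
    (fun l X hX t ht => hX t (by omega))
    (fun l => by
      obtain ⟨r, hr, hr'⟩ := h3 l
      refine ⟨fun i => r.testBit i, fun t ht => ?_⟩
      rw [pre_testBit]
      exact hr' t ht)
    (hclosed 0).isCompact hclosed
  obtain ⟨t, ht⟩ := h1 X (Set.mem_univ _)
  exact (Set.mem_iInter.1 hX t) t le_rfl ht

theorem Null.union {A B : Set (ℕ → Bool)} (hA : Null A) (hB : Null B) : Null (A ∪ B) := by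
  have h := null_iUnion (A := fun i => if i = 0 then A else B) (fun i => by
    by_cases hi : i = 0
    · simp only [hi, if_true]; exact hA
    · simp only [hi, if_false]; exact hB)
  refine Null.mono ?_ h
  rintro X (hX | hX)
  · exact Set.mem_iUnion.2 ⟨0, by simpa using hX⟩
  · exact Set.mem_iUnion.2 ⟨1, by simpa using hX⟩

theorem not_null_compl {A : Set (ℕ → Bool)} (hA : Null A) : ¬ Null Aᶜ := by
  intro h
  apply not_null_univ
  rw [← Set.union_compl_self A]
  exact hA.union h

/-- The problem: given `p`, find a point of the Cantor space outside of the set `N p`. -/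
def AV (N : (ℕ → ℕ) → Set (ℕ → Bool)) : WD.Problem where
  inst _ := True
  sol p q := ∃ X : ℕ → Bool, X ∉ N p ∧ q = fun n => (X n).toNat

theorem not_le_av {P : WD.Problem}
    (hP : ∀ r, Computable r → P.inst r → ∃ q, Computable q ∧ P.sol r q)
    {N : (ℕ → ℕ) → Set (ℕ → Bool)} (hN : ∀ p, Null (N p)) :
    ¬ WD.WLE WD.DIAG (WD.prod P (AV N)) := by
  apply not_le
  rintro r hr ⟨hr1, -⟩ hnull
  have hl : Computable (WD.left r) :=
    hr.comp (Primrec.nat_mul.comp (Primrec.const 2) Primrec.id).to_comp
  obtain ⟨q, hq, hq'⟩ := hP _ hl hr1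
  apply not_null_compl (hN (WD.right r))
  refine Null.mono ?_ hnull
  intro X hX
  refine ⟨WD.join q (fun n => (X n).toNat), ⟨?_, ?_⟩, ?_⟩
  · have : WD.left (WD.join q fun n => (X n).toNat) = q := by
      funext n
      simp [WD.left, WD.join]
    rw [this]
    exact hq'
  · refine ⟨X, hX, ?_⟩
    funext n
    have h1 : (2 * n + 1) % 2 = 1 := by omega
    have h2 : (2 * n + 1) / 2 = n := by omega
    simp [WD.right, WD.join, h1, h2]
  · have hX' : TR {orc X} (fun n => (X n).toNat) := Nat.RecursiveIn.oracle _ rfl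
    exact RecursiveIn.iff_nat.2 (TR.join (TR.of_computable hq) hX')

end Helper423Ceer
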