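import Mathlib
import Pool.Agent.Helper423_Ceer.Big

namespace Helper423Ceer

open Nat.Partrec (Code)
open Nat.Partrec.Code Encodable Denumerable
open Primrec (fst snd)

def c4 (T : List Bool) (r : ℕ) : ℕ :=
  (T.getD (4 * r) false).toNat + (T.getD (4 * r + 1) false).toNat +
    (T.getD (4 * r + 2) false).toNat + (T.getD (4 * r + 3) false).toNat

/-- The table of the values of `big 2`, from the leaves upwards. -/
def tab (b : ℕ → Bool) (j : ℕ) : ℕ → List Bool
  | 0 => (List.range (4 ^ j)).map b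
  | m + 1 => (List.range (4 ^ (j - (m + 1)))).map fun r => decide (2 ≤ c4 (tab b j m) r)

theorem tab_spec {B : ℕ → Prop} {b : ℕ → Bool} {w0 j : ℕ}
    (hb : ∀ r, b r = true ↔ B (w0 * 4 ^ j + r)) (m : ℕ) : m ≤ j → ∀ r < 4 ^ (j - m),
    ((tab b j m).getD r false = true ↔ big 2 B m (w0 * 4 ^ (j - m) + r)) := by
  classical
  induction m with
  | zero =>
    intro _ r hr
    rw [Nat.sub_zero] at hr
    simp only [tab, big, Nat.sub_zero]
    rw [← hb, List.getD_eq_getElem?_getD, List.getElem?_map, List.getElem?_range hr]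
    simp
  | succ m ih =>
    intro hm r hr
    have e1 : 4 ^ (j - m) = 4 * 4 ^ (j - (m + 1)) := by
      rw [mul_comm, ← pow_succ]; congr 1; omega
    have h1 : ∀ v < 4, ((tab b j m).getD (4 * r + v) false = true ↔
        big 2 B m (4 * (w0 * 4 ^ (j - (m + 1)) + r) + v)) := by
      intro v hv
      rw [ih (by omega) (4 * r + v) (by omega)]
      have e2 : w0 * 4 ^ (j - m) + (4 * r + v) = 4 * (w0 * 4 ^ (j - (m + 1)) + r) + v := by
        rw [e1]; ring
      rw [e2]
    simp only [tab, big]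
    rw [List.getD_eq_getElem?_getD, List.getElem?_map, List.getElem?_range hr]
    simp only [Option.map_some, Option.getD_some, decide_eq_true_eq]
    have h2 : c4 (tab b j m) r = ((Finset.range 4).filter fun v =>
        big 2 B m (4 * (w0 * 4 ^ (j - (m + 1)) + r) + v)).card := by
      have h3 : ∀ v < 4, ((tab b j m).getD (4 * r + v) false).toNat =
          if big 2 B m (4 * (w0 * 4 ^ (j - (m + 1)) + r) + v) then 1 else 0 := by
        intro v hv
        have h4 := h1 v hv
        by_cases h5 : big 2 B m (4 * (w0 * 4 ^ (j - (m + 1)) + r) + v)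
        · rw [if_pos h5, h4.2 h5]; rfl
        · rw [if_neg h5]
          cases h6 : (tab b j m).getD (4 * r + v) false
          · rfl
          · exact absurd (h4.1 h6) h5
      rw [Finset.card_filter]
      simp only [Finset.sum_range_succ, Finset.range_zero, Finset.sum_empty, zero_add]
      rw [← h3 0 (by norm_num), ← h3 1 (by norm_num), ← h3 2 (by norm_num),
        ← h3 3 (by norm_num)]
      simp only [c4, Nat.add_zero]
    rw [h2]

/-- The indicator of the leaves. -/
def lf (c : Code) (w0 : ℕ) (p : ℕ × ℕ × ℕ × ℕ × ℕ) (r : ℕ) : Bool :=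
  decide (evaln p.2.2.1 c (Nat.pair p.2.2.2.1 ((w0 * 4 ^ p.1 + r) / 4 ^ p.2.1)) =
    some p.2.2.2.2)

def bigT (c : Code) (w0 : ℕ) (p : ℕ × ℕ × ℕ × ℕ × ℕ) : Bool :=
  (tab (lf c w0 p) p.1 p.1).getD 0 false

theorem bigT_spec (c : Code) (w0 j d s n i : ℕ) : bigT c w0 (j, d, s, n, i) = true ↔
    big 2 (fun w => evaln s c (Nat.pair n (w / 4 ^ d)) = some i) j w0 := by
  unfold bigT
  have h := tab_spec (B := fun w => evaln s c (Nat.pair n (w / 4 ^ d)) = some i)
    (b := lf c w0 (j, d, s, n, i)) (w0 := w0) (j := j) (fun r => by simp [lf]) j le_rfl 0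
    (by simp)
  simpa using h

theorem prim_pow4 : Primrec (fun n : ℕ => 4 ^ n) := by
  have h : Primrec (fun n : ℕ => 2 ^ n * 2 ^ n) :=
    Primrec.nat_mul.comp prim_pow2 prim_pow2
  refine h.of_eq fun n => ?_
  rw [← mul_pow]
  norm_num

theorem prim_bigT (c : Code) (w0 : ℕ) : Primrec (bigT c w0) := by
  have hlf : Primrec₂ (lf c w0) := by
    unfold lf
    have hx : Primrec (fun q : (ℕ × ℕ × ℕ × ℕ × ℕ) × ℕ =>
        evaln q.1.2.2.1 c (Nat.pair q.1.2.2.2.1 ((w0 * 4 ^ q.1.1 + q.2) / 4 ^ q.1.2.1))) := by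
      have e1 : Primrec (fun q : (ℕ × ℕ × ℕ × ℕ × ℕ) × ℕ => 4 ^ q.1.1) :=
        prim_pow4.comp (fst.comp fst)
      have e2 : Primrec (fun q : (ℕ × ℕ × ℕ × ℕ × ℕ) × ℕ => 4 ^ q.1.2.1) :=
        prim_pow4.comp (fst.comp (snd.comp fst))
      have e3 : Primrec (fun q : (ℕ × ℕ × ℕ × ℕ × ℕ) × ℕ => q.1.2.2.1) :=
        fst.comp (snd.comp (snd.comp fst))
      have e4 : Primrec (fun q : (ℕ × ℕ × ℕ × ℕ × ℕ) × ℕ => q.1.2.2.2.1) :=
        fst.comp (snd.comp (snd.comp (snd.comp fst)))
      have e5 : Primrec (fun q : (ℕ × ℕ × ℕ × ℕ × ℕ) × ℕ =>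
          (w0 * 4 ^ q.1.1 + q.2) / 4 ^ q.1.2.1) :=
        Primrec.nat_div.comp (Primrec.nat_add.comp (Primrec.nat_mul.comp (Primrec.const _) e1)
          snd) e2
      exact primrec_evaln.comp (Primrec.pair (Primrec.pair e3 (Primrec.const c))
        (Primrec₂.natPair.comp e4 e5))
    have hy : Primrec (fun q : (ℕ × ℕ × ℕ × ℕ × ℕ) × ℕ => some q.1.2.2.2.2) :=
      Primrec.option_some.comp (snd.comp (snd.comp (snd.comp (snd.comp fst))))
    have hxy : PrimrecPred (fun q : (ℕ × ℕ × ℕ × ℕ × ℕ) × ℕ =>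
        evaln q.1.2.2.1 c (Nat.pair q.1.2.2.2.1 ((w0 * 4 ^ q.1.1 + q.2) / 4 ^ q.1.2.1)) =
          some q.1.2.2.2.2) := Primrec.eq.comp hx hy
    exact hxy.decide
  have hc4 : Primrec₂ c4 := by
    unfold c4
    have hn : Primrec Bool.toNat := Primrec.dom_finite _
    have hg : ∀ k : ℕ, Primrec (fun q : List Bool × ℕ => (q.1.getD (4 * q.2 + k) false).toNat) :=
      fun k => hn.comp ((Primrec.list_getD false).comp fst (Primrec.nat_add.comp
        (Primrec.nat_mul.comp (Primrec.const 4) snd) (Primrec.const k)))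
    have h := Primrec.nat_add.comp (Primrec.nat_add.comp (Primrec.nat_add.comp (hg 0) (hg 1))
      (hg 2)) (hg 3)
    exact h
  have h0 : Primrec (fun p : ℕ × ℕ × ℕ × ℕ × ℕ => (List.range (4 ^ p.1)).map (lf c w0 p)) :=
    Primrec.list_map (Primrec.list_range.comp (prim_pow4.comp fst)) hlf
  have hstep : Primrec₂ (fun (p : ℕ × ℕ × ℕ × ℕ × ℕ) (q : ℕ × List Bool) =>
      (List.range (4 ^ (p.1 - (q.1 + 1)))).map fun r => decide (2 ≤ c4 q.2 r)) := by
    refine Primrec.list_map (Primrec.list_range.comp (prim_pow4.comp (Primrec.nat_sub.comp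
      (fst.comp fst) (Primrec.succ.comp (fst.comp snd))))) ?_
    have hd : PrimrecPred (fun q : ((ℕ × ℕ × ℕ × ℕ × ℕ) × (ℕ × List Bool)) × ℕ =>
        2 ≤ c4 q.1.2.2 q.2) :=
      Primrec.nat_le.comp (Primrec.const 2) (hc4.comp (snd.comp (snd.comp fst)) snd)
    exact hd.decide
  have hrec := Primrec.nat_rec' (f := fun p : ℕ × ℕ × ℕ × ℕ × ℕ => p.1) fst h0 hstep
  unfold bigT
  refine (Primrec.list_getD false).comp (hrec.of_eq fun p => ?_) (Primrec.const 0)
  have : ∀ m, (Nat.rec (motive := fun _ => List Bool) ((List.range (4 ^ p.1)).map (lf c w0 p))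
      (fun n IH => (List.range (4 ^ (p.1 - (n + 1)))).map fun r => decide (2 ≤ c4 IH r)) m) =
      tab (lf c w0 p) p.1 m := by
    intro m
    induction m with
    | zero => rfl
    | succ m ih => simp only [tab]; rw [← ih]
  exact this p.1

/-- One requirement. -/
theorem step {bad : ℕ → ℕ → Prop} (hbad : ∀ k v v', bad k v → bad k v' → v = v') (c : Code)
    {u : ℕ → ℕ} (hu : Computable u) (k : ℕ) {X : ℕ → ℕ} (hX : Valid bad X) :
    ∃ (Y : ℕ → ℕ) (L : ℕ), Valid bad Y ∧ (∀ i < k, Y i = X i) ∧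
      ∀ Z : ℕ → ℕ, Valid bad Z → (∀ i < L, Z i = Y i) → ∀ f : ℕ → ℕ, (∀ n, f n < 2) →
        (∀ n, f n ∉ eval (ofNat Code n) n) → ¬ ∀ n, f n ∈ eval c (Nat.pair n (wd Z (u n))) := by
  classical
  -- the parameters for the argument `n`
  let LL : ℕ → ℕ := fun n => max (u n) k
  have hLL : Computable LL := Primrec.nat_max.to_comp.comp hu (Computable.const k)
  let par : ℕ → ℕ → ℕ → ℕ × ℕ × ℕ × ℕ × ℕ := fun n s i => (LL n - k, LL n - u n, s, n, i)
  let f0 : ℕ → ℕ → Option ℕ := fun n s =>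
    if bigT c (wd X k) (par n s 0) = true then some 0
    else if bigT c (wd X k) (par n s 1) = true then some 1 else none
  have hf0 : Computable₂ f0 := by
    have hpar : ∀ i : ℕ, Computable (fun q : ℕ × ℕ => par q.1 q.2 i) := by
      intro i
      have e1 : Computable (fun q : ℕ × ℕ => LL q.1) := hLL.comp Computable.fst
      have e2 : Computable (fun q : ℕ × ℕ => u q.1) := hu.comp Computable.fst
      exact Computable.pair (Primrec.nat_sub.to_comp.comp e1 (Computable.const k))
        (Computable.pair (Primrec.nat_sub.to_comp.comp e1 e2)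
          (Computable.pair Computable.snd (Computable.pair Computable.fst (Computable.const i))))
    have hb : ∀ i : ℕ, Computable (fun q : ℕ × ℕ => bigT c (wd X k) (par q.1 q.2 i)) :=
      fun i => (prim_bigT c (wd X k)).to_comp.comp (hpar i)
    have h := Computable.cond (hb 0) (Computable.const (some 0))
      (Computable.cond (hb 1) (Computable.const (some 1)) (Computable.const none))
    refine h.of_eq fun q => ?_
    simp only [f0]
    cases bigT c (wd X k) (par q.1 q.2 0) <;> cases bigT c (wd X k) (par q.1 q.2 1) <;> rfl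
  have hF : Partrec₂ (fun (e : Code) (_ : ℕ) => Nat.rfindOpt (f0 (encode e))) := by
    have h1 : Partrec (fun n => Nat.rfindOpt (f0 n)) := Partrec.rfindOpt hf0
    exact h1.comp (Primrec.encode.comp fst).to_comp
  obtain ⟨e, he⟩ := fixed_point₂ hF
  set n := encode e with hn
  have hen : eval (ofNat Code n) n = Nat.rfindOpt (f0 n) := by
    rw [hn, ofNat_encode, he]
  set L := LL n with hL
  have hkL : k ≤ L := le_max_right _ _
  have huL : u n ≤ L := le_max_left _ _
  have hspec : ∀ s i, bigT c (wd X k) (par n s i) = true ↔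
      big 2 (fun w => evaln s c (Nat.pair n (w / 4 ^ (L - u n))) = some i) (L - k) (wd X k) :=
    fun s i => bigT_spec c (wd X k) (L - k) (L - u n) s n i
  by_cases hex : ∃ i, i ∈ Nat.rfindOpt (f0 n)
  · obtain ⟨i, hi⟩ := hex
    obtain ⟨s, hs⟩ := Nat.rfindOpt_spec hi
    have hbT : bigT c (wd X k) (par n s i) = true := by
      simp only [f0, Option.mem_def] at hs
      split_ifs at hs with h1 h2
      · obtain rfl : 0 = i := by simpa using hs
        exact h1
      · obtain rfl : 1 = i := by simpa using hs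
        exact h2
    obtain ⟨Y, hY1, hY2, hY3⟩ := sel_big hbad (L - k) k X hX ((hspec s i).1 hbT)
    refine ⟨Y, L, hY1, hY2, fun Z hZ hZY f _ hf hcomp => ?_⟩
    rw [Nat.add_sub_cancel' hkL, wd_div (fun i => (hY1 i).1) huL] at hY3
    have h1 := evaln_sound (Option.mem_def.2 hY3)
    have h2 := hcomp n
    rw [wd_congr (Y := Y) (fun i hi => hZY i (by omega))] at h2
    have h3 := Part.mem_unique h2 h1
    apply hf n
    rw [h3, hen]
    exact hi
  · have hno : ∀ s i, i < 2 → ¬ bigT c (wd X k) (par n s i) = true := by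
      intro s i hi hb
      apply hex
      have hdom : (Nat.rfindOpt (f0 n)).Dom := by
        rw [Nat.rfindOpt_dom]
        by_cases h0 : bigT c (wd X k) (par n s 0) = true
        · exact ⟨s, 0, by simp only [f0, if_pos h0, Option.mem_def]⟩
        · have : i = 1 := by
            rcases Nat.lt_or_ge i 1 with h | h
            · obtain rfl : i = 0 := by omega
              exact absurd hb h0
            · omega
          subst this
          exact ⟨s, 1, by simp only [f0, if_neg h0, if_pos hb, Option.mem_def]⟩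
      exact Part.dom_iff_mem.1 hdom
    have hnb : ∀ i, i < 2 → ¬ big 2 (fun w => ∃ s,
        evaln s c (Nat.pair n (w / 4 ^ (L - u n))) = some i) (L - k) (wd X k) := by
      intro i hi hb
      obtain ⟨s, hs⟩ := big_lim (B := fun s w =>
        evaln s c (Nat.pair n (w / 4 ^ (L - u n))) = some i)
        (fun s t w hst h => Option.mem_def.1 (evaln_mono hst (Option.mem_def.2 h))) _ _ hb
      exact hno s i hi ((hspec s i).2 hs)
    have h3 : ¬ big 3 (fun w => (∃ s, evaln s c (Nat.pair n (w / 4 ^ (L - u n))) = some 0) ∨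
        ∃ s, evaln s c (Nat.pair n (w / 4 ^ (L - u n))) = some 1) (L - k) (wd X k) := by
      intro h
      rcases big_split _ _ h with h | h
      · exact hnb 0 (by norm_num) h
      · exact hnb 1 (by norm_num) h
    obtain ⟨Y, hY1, hY2, hY3⟩ := sel_small hbad (L - k) k X hX h3
    refine ⟨Y, L, hY1, hY2, fun Z hZ hZY f hf2 hf hcomp => ?_⟩
    rw [Nat.add_sub_cancel' hkL, wd_div (fun i => (hY1 i).1) huL] at hY3
    have h2 := hcomp n
    rw [wd_congr (Y := Y) (fun i hi => hZY i (by omega))] at h2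
    obtain ⟨s, hs⟩ := evaln_complete.1 h2
    apply hY3
    have h4 := hf2 n
    rcases Nat.lt_or_ge (f n) 1 with h | h
    · have h5 : f n = 0 := by omega
      rw [h5] at hs
      exact Or.inl ⟨s, Option.mem_def.1 hs⟩
    · have h5 : f n = 1 := by omega
      rw [h5] at hs
      exact Or.inr ⟨s, Option.mem_def.1 hs⟩

/-- The limit of the construction. -/
theorem generic {bad : ℕ → ℕ → Prop} (hbad : ∀ k v v', bad k v → bad k v' → v = v')
    {R : ℕ → (ℕ → ℕ) → Prop}
    (hR : ∀ (i k : ℕ) (X : ℕ → ℕ), Valid bad X → ∃ (Y : ℕ → ℕ) (L : ℕ), Valid bad Y ∧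
      (∀ j < k, Y j = X j) ∧ ∀ Z : ℕ → ℕ, Valid bad Z → (∀ j < L, Z j = Y j) → R i Z) :
    ∃ Z, Valid bad Z ∧ ∀ i, R i Z := by
  classical
  have h0 : ∃ X, Valid bad X := by
    refine ⟨fun k => if bad k 0 then 1 else 0, fun k => ?_⟩
    by_cases h : bad k 0
    · simp only [if_pos h]
      exact ⟨by norm_num, fun h1 => absurd (hbad k 0 1 h h1) (by norm_num)⟩
    · simp only [if_neg h]
      exact ⟨by norm_num, fun h1 => h h1⟩
  obtain ⟨X0, hX0⟩ := h0
  choose YY LL h1 h2 h3 using hR
  let seq : ℕ → {p : (ℕ → ℕ) × ℕ // Valid bad p.1} := fun i => Nat.rec ⟨(X0, 0), hX0⟩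
    (fun i s => ⟨(YY i s.1.2 s.1.1 s.2, max (LL i s.1.2 s.1.1 s.2) (s.1.2 + 1)),
      h1 i s.1.2 s.1.1 s.2⟩) i
  have hs : ∀ i, seq (i + 1) = ⟨(YY i (seq i).1.2 (seq i).1.1 (seq i).2,
      max (LL i (seq i).1.2 (seq i).1.1 (seq i).2) ((seq i).1.2 + 1)),
      h1 i (seq i).1.2 (seq i).1.1 (seq i).2⟩ := fun i => rfl
  have hk : ∀ i, (seq i).1.2 + 1 ≤ (seq (i + 1)).1.2 := fun i => by
    rw [hs]; exact le_max_right _ _
  have hki : ∀ i, i ≤ (seq i).1.2 := by
    intro i
    induction i with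
    | zero => exact Nat.zero_le _
    | succ i ih => exact le_trans (Nat.succ_le_succ ih) (hk i)
  have hkm : ∀ i j, i ≤ j → (seq i).1.2 ≤ (seq j).1.2 := by
    intro i j hij
    induction j, hij using Nat.le_induction with
    | base => exact le_rfl
    | succ j _ ih => exact le_trans ih (le_trans (Nat.le_succ _) (hk j))
  have hag : ∀ i j, i ≤ j → ∀ n < (seq i).1.2, (seq j).1.1 n = (seq i).1.1 n := by
    intro i j hij
    induction j, hij using Nat.le_induction with
    | base => intro n _; rfl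
    | succ j hij ih =>
      intro n hn
      rw [← ih n hn, hs]
      exact h2 j (seq j).1.2 (seq j).1.1 (seq j).2 n (lt_of_lt_of_le hn (hkm i j hij))
  let Z : ℕ → ℕ := fun n => (seq (n + 1)).1.1 n
  have hZ : Valid bad Z := fun n => (seq (n + 1)).2 n
  have hZa : ∀ i, ∀ n < (seq i).1.2, Z n = (seq i).1.1 n := by
    intro i n hn
    rcases le_total (n + 1) i with h | h
    · exact (hag (n + 1) i h n (by have := hki (n + 1); omega)).symm
    · exact hag i (n + 1) h n hn
  refine ⟨Z, hZ, fun i => ?_⟩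
  refine h3 i (seq i).1.2 (seq i).1.1 (seq i).2 Z hZ fun j hj => ?_
  have h4 := hZa (i + 1) j (by rw [hs]; exact lt_of_lt_of_le hj (le_max_left _ _))
  rw [h4, hs]

end Helper423Ceer
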