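import Mathlib
import Pool.Agent.Helper423_Ceer.Wtt
import Pool.Agent.Helper423_Ceer.Bridge

namespace Helper423Ceer

open Nat.Partrec (Code)
open Nat.Partrec.Code Encodable Denumerable
open Primrec (fst snd)

/-- `f` is computable from the words `X ↾ u n`, for a computable bound `u`. -/
def Wtt4 (f X : ℕ → ℕ) : Prop :=
  ∃ u : ℕ → ℕ, Computable u ∧ ∃ F : ℕ →. ℕ, Nat.Partrec F ∧
    ∀ n, f n ∈ F (Nat.pair n (wd X (u n)))

theorem code_of_re {E : ℕ → ℕ → Prop} (hre : REPred (fun p : ℕ × ℕ => E p.1 p.2)) :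
    ∃ c : Code, ∀ x y, E x y ↔ (eval c (Nat.pair x y)).Dom := by
  have h1 : Partrec (fun n : ℕ => Part.assert (E n.unpair.1 n.unpair.2) fun _ => Part.some ()) :=
    hre.comp Primrec.unpair.to_comp
  have h2 : Partrec (fun n : ℕ => (Part.assert (E n.unpair.1 n.unpair.2)
      fun _ => Part.some ()).map (fun _ => (0 : ℕ))) := h1.map (Computable.const 0).to₂
  obtain ⟨e, he⟩ := exists_code.1 (Partrec.nat_iff.1 h2)
  refine ⟨e, fun x y => ?_⟩
  rw [he]
  simp [Part.assert]

/-- Ceers with two or three classes have computable diagonal functions. -/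
theorem fin_diag {E : ℕ → ℕ → Prop} (hE : Equivalence E)
    (hre : REPred (fun p : ℕ × ℕ => E p.1 p.2)) {r0 r1 r2 : ℕ} (h01 : ¬ E r0 r1)
    (h21 : ¬ E r2 r1) (hall : ∀ x, E x r0 ∨ E x r1 ∨ E x r2) :
    ∃ g : ℕ → ℕ, Computable g ∧ ∀ x, ¬ E (g x) x := by
  obtain ⟨c, hc⟩ := code_of_re hre
  let G : ℕ → ℕ → Option ℕ := fun x s =>
    if (evaln s c (Nat.pair x r1)).isSome = true then some r0
    else if (evaln s c (Nat.pair x r0)).isSome = true then some r1
    else if (evaln s c (Nat.pair x r2)).isSome = true then some r1 else none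
  have hev : ∀ r, PrimrecPred (fun q : ℕ × ℕ => (evaln q.2 c (Nat.pair q.1 r)).isSome = true) := by
    intro r
    refine Primrec.eq.comp (Primrec.option_isSome.comp ?_) (Primrec.const true)
    exact primrec_evaln.comp (Primrec.pair (Primrec.pair snd (Primrec.const c))
      (Primrec₂.natPair.comp fst (Primrec.const r)))
  have hG : Computable₂ G := by
    apply Primrec.to_comp
    exact Primrec.ite (hev r1) (Primrec.const _) (Primrec.ite (hev r0) (Primrec.const _)
      (Primrec.ite (hev r2) (Primrec.const _) (Primrec.const _)))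
  have hsome : ∀ x r, E x r → ∃ s, (evaln s c (Nat.pair x r)).isSome = true := by
    intro x r h
    obtain ⟨y, hy⟩ := Part.dom_iff_mem.1 ((hc x r).1 h)
    obtain ⟨s, hs⟩ := evaln_complete.1 hy
    exact ⟨s, Option.isSome_iff_exists.2 ⟨y, hs⟩⟩
  have hsound : ∀ x r s, (evaln s c (Nat.pair x r)).isSome = true → E x r := by
    intro x r s h
    obtain ⟨y, hy⟩ := Option.isSome_iff_exists.1 h
    exact (hc x r).2 (Part.dom_iff_mem.2 ⟨y, evaln_sound (Option.mem_def.2 hy)⟩)
  have hdom : ∀ x, (Nat.rfindOpt (G x)).Dom := by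
    intro x
    rw [Nat.rfindOpt_dom]
    have : ∃ s, G x s ≠ none := by
      rcases hall x with h | h | h
      · obtain ⟨s, hs⟩ := hsome x r0 h
        refine ⟨s, ?_⟩
        simp only [G]
        split_ifs <;> simp_all
      · obtain ⟨s, hs⟩ := hsome x r1 h
        refine ⟨s, ?_⟩
        simp only [G]
        split_ifs
        simp
      · obtain ⟨s, hs⟩ := hsome x r2 h
        refine ⟨s, ?_⟩
        simp only [G]
        split_ifs <;> simp_all
    obtain ⟨s, hs⟩ := this
    obtain ⟨y, hy⟩ := Option.ne_none_iff_exists'.1 hs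
    exact ⟨s, y, hy⟩
  refine ⟨fun x => (Nat.rfindOpt (G x)).get (hdom x),
    (Partrec.rfindOpt hG).of_eq_tot fun x => Part.get_mem _, fun x hx => ?_⟩
  obtain ⟨s, hs⟩ := Nat.rfindOpt_spec (Part.get_mem (hdom x))
  simp only at hx
  simp only [G, Option.mem_def] at hs
  split_ifs at hs with h1 h2 h3
  · have h4 := hsound _ _ _ h1
    have h5 : r0 = (Nat.rfindOpt (G x)).get (hdom x) := by simpa using hs
    rw [← h5] at hx
    exact h01 (hE.trans hx h4)
  · have h4 := hsound _ _ _ h2
    have h5 : r1 = (Nat.rfindOpt (G x)).get (hdom x) := by simpa using hs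
    rw [← h5] at hx
    exact h01 (hE.symm (hE.trans hx h4))
  · have h4 := hsound _ _ _ h3
    have h5 : r1 = (Nat.rfindOpt (G x)).get (hdom x) := by simpa using hs
    rw [← h5] at hx
    exact h21 (hE.symm (hE.trans hx h4))

def Four (E : ℕ → ℕ → Prop) (P : ℕ → ℕ) : Prop :=
  ∀ v < 4, ∀ v' < 4, v ≠ v' → ¬ E (P v) (P v')

theorem four_or {E : ℕ → ℕ → Prop} (hE : Equivalence E) {u v : ℕ} (huv : ¬ E u v) :
    (∃ P, Four E P) ∨ ∃ r0 r1 r2, ¬ E r0 r1 ∧ ¬ E r2 r1 ∧ ∀ x, E x r0 ∨ E x r1 ∨ E x r2 := by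
  by_cases h : ∃ w, ¬ E w u ∧ ¬ E w v
  · obtain ⟨w, hwu, hwv⟩ := h
    by_cases h' : ∃ x, ¬ E x u ∧ ¬ E x v ∧ ¬ E x w
    · obtain ⟨x, hxu, hxv, hxw⟩ := h'
      left
      refine ⟨fun n => if n = 0 then u else if n = 1 then v else if n = 2 then w else x, ?_⟩
      have hs : ∀ {a b}, ¬ E a b → ¬ E b a := fun h h' => h (hE.symm h')
      have hvu := hs huv
      have huw := hs hwu
      have hvw := hs hwv
      have hux := hs hxu
      have hvx := hs hxv
      have hwx := hs hxw
      intro a ha b hb hab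
      interval_cases a <;> interval_cases b <;> simp_all
    · right
      refine ⟨u, v, w, huv, hwv, fun x => ?_⟩
      by_contra hcon
      apply h'
      exact ⟨x, fun h1 => hcon (Or.inl h1), fun h1 => hcon (Or.inr (Or.inl h1)),
        fun h1 => hcon (Or.inr (Or.inr h1))⟩
  · right
    refine ⟨u, v, u, huv, huv, fun x => ?_⟩
    by_contra hcon
    apply h
    exact ⟨x, fun h1 => hcon (Or.inl h1), fun h1 => hcon (Or.inr (Or.inl h1))⟩

/-- The relation with index `i`. -/
def EC (i x y : ℕ) : Prop := (eval (ofNat Code i) (Nat.pair x y)).Dom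

open Classical in
noncomputable def PP (i : ℕ) : ℕ → ℕ := if h : ∃ P, Four (EC i) P then h.choose else fun _ => 0

def bad (k v : ℕ) : Prop :=
  Equivalence (EC k.unpair.1) ∧ (∃ P, Four (EC k.unpair.1) P) ∧ v < 4 ∧
    EC k.unpair.1 (PP k.unpair.1 v) k.unpair.2

theorem PP_spec {i : ℕ} (h : ∃ P, Four (EC i) P) : Four (EC i) (PP i) := by
  unfold PP
  rw [dif_pos h]
  exact h.choose_spec

theorem bad_unique (k v v' : ℕ) (h : bad k v) (h' : bad k v') : v = v' := by
  obtain ⟨h1, h2, h3, h4⟩ := h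
  obtain ⟨-, -, h3', h4'⟩ := h'
  by_contra hne
  exact PP_spec h2 v h3 v' h3' hne (h1.trans h4 (h1.symm h4'))

theorem exists_oracle : ∃ X : ℕ → ℕ, (∀ n, X n < 4) ∧
    (∀ E, NontrivialCeer E → ∃ g : ℕ → ℕ, (∀ x, ¬ E (g x) x) ∧ Wtt4 g X) ∧
    ∀ f : ℕ → ℕ, (∀ n, f n < 2) → (∀ n, f n ∉ eval (ofNat Code n) n) → ¬ Wtt4 f X := by
  classical
  obtain ⟨Z, hZ, hRZ⟩ := generic (bad := bad) bad_unique
    (R := fun j Z => ∀ u : ℕ → ℕ, Computable u → (∀ n, u n ∈ eval (ofNat Code j.unpair.2) n) →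
      ∀ f : ℕ → ℕ, (∀ n, f n < 2) → (∀ n, f n ∉ eval (ofNat Code n) n) →
        ¬ ∀ n, f n ∈ eval (ofNat Code j.unpair.1) (Nat.pair n (wd Z (u n))))
    (by
      intro j k X hX
      by_cases hu : ∃ u : ℕ → ℕ, Computable u ∧ ∀ n, u n ∈ eval (ofNat Code j.unpair.2) n
      · obtain ⟨u, hu1, hu2⟩ := hu
        obtain ⟨Y, L, h1, h2, h3⟩ := step (bad := bad) bad_unique (ofNat Code j.unpair.1) hu1 k hX
        refine ⟨Y, L, h1, h2, fun Z hZ hZY u' hu' hu'2 => ?_⟩
        have : u' = u := funext fun n => Part.mem_unique (hu'2 n) (hu2 n)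
        subst this
        exact h3 Z hZ hZY
      · exact ⟨X, 0, hX, fun _ _ => rfl, fun Z _ _ u hu1 hu2 => absurd ⟨u, hu1, hu2⟩ hu⟩)
  refine ⟨Z, fun n => (hZ n).1, ?_, ?_⟩
  · rintro E ⟨hE, hre, u, v, huv⟩
    rcases four_or hE huv with ⟨P, hP⟩ | ⟨r0, r1, r2, h01, h21, hall⟩
    · obtain ⟨c, hc⟩ := code_of_re hre
      have hEC : EC (encode c) = E := by
        funext x y
        unfold EC
        rw [ofNat_encode]
        exact propext (hc x y).symm
      set Q := PP (encode c) with hQ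
      let q : ℕ → ℕ := fun v => if v = 0 then Q 0 else if v = 1 then Q 1 else
        if v = 2 then Q 2 else Q 3
      have hq : ∀ v < 4, q v = Q v := by
        intro v hv
        interval_cases v <;> simp [q]
      refine ⟨fun x => Q (Z (Nat.pair (encode c) x)), fun x hx => ?_,
        fun x => Nat.pair (encode c) x + 1, ?_,
        fun p => Part.some (q (p.unpair.2 % 4)), ?_, fun x => ?_⟩
      · apply (hZ (Nat.pair (encode c) x)).2
        refine ⟨?_, ?_, (hZ _).1, ?_⟩
        · rw [Nat.unpair_pair]; simp only; rw [hEC]; exact hE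
        · rw [Nat.unpair_pair]; simp only; rw [hEC]; exact ⟨P, hP⟩
        · rw [Nat.unpair_pair]; simp only; rw [hEC]; exact hx
      · exact (Primrec.succ.comp (Primrec₂.natPair.comp (Primrec.const _) Primrec.id)).to_comp
      · have h1 : Primrec q := Primrec.ite (Primrec.eq.comp Primrec.id (Primrec.const 0))
          (Primrec.const _) (Primrec.ite (Primrec.eq.comp Primrec.id (Primrec.const 1))
          (Primrec.const _) (Primrec.ite (Primrec.eq.comp Primrec.id (Primrec.const 2))
          (Primrec.const _) (Primrec.const _)))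
        have h2 : Computable (fun p : ℕ => q (p.unpair.2 % 4)) :=
          (h1.comp (Primrec.nat_mod.comp (snd.comp Primrec.unpair) (Primrec.const 4))).to_comp
        exact Partrec.nat_iff.1 h2
      · simp only [Nat.unpair_pair, wd, Part.mem_some_iff]
        have h1 := (hZ (Nat.pair (encode c) x)).1
        have h2 : (4 * wd Z (Nat.pair (encode c) x) + Z (Nat.pair (encode c) x)) % 4 =
            Z (Nat.pair (encode c) x) := by omega
        rw [h2, hq _ h1]
    · obtain ⟨g, hg, hg'⟩ := fin_diag hE hre h01 h21 hall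
      refine ⟨g, hg', fun _ => 0, Computable.const 0, fun p => Part.some (g p.unpair.1), ?_, ?_⟩
      · have h2 : Computable (fun p : ℕ => g p.unpair.1) :=
          hg.comp (fst.comp Primrec.unpair).to_comp
        exact Partrec.nat_iff.1 h2
      · intro n
        simp
  · rintro f hf2 hf ⟨u, hu, F, hF, h⟩
    obtain ⟨c, rfl⟩ := exists_code.1 hF
    obtain ⟨cu, hcu⟩ := exists_code.1 (Partrec.nat_iff.1 hu)
    refine hRZ (Nat.pair (encode c) (encode cu)) u hu ?_ f hf2 hf ?_
    · intro n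
      rw [Nat.unpair_pair]
      simp only [ofNat_encode, hcu]
      exact Part.mem_some _
    · intro n
      rw [Nat.unpair_pair]
      simp only [ofNat_encode]
      exact h n

end Helper423Ceer
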