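import Mathlib
import Pool.Agent.Helper423_Ceer.WttCeer

namespace Helper423Ceer

open Nat.Partrec (Code)
open Nat.Partrec.Code Encodable Denumerable
open Primrec (fst snd)

/-- Weak truth-table reducibility of the function `f` to the bit sequence `A`: the value `f n` is
computed from the first `u n` bits of `A`, where the bound `u` is computable. -/
def Wtt (f : ℕ → ℕ) (A : ℕ → Bool) : Prop :=
  ∃ u : ℕ → ℕ, Computable u ∧ ∃ F : ℕ →. ℕ, Nat.Partrec F ∧
    ∀ n, f n ∈ F (Nat.pair n (pre A (u n)))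

/-- Two bits for each value of `X`. -/
def bits (X : ℕ → ℕ) (i : ℕ) : Bool := decide (X (i / 2) / 2 ^ (i % 2) % 2 = 1)

theorem pre_bits {X : ℕ → ℕ} (hX : ∀ i, X i < 4) (k : ℕ) :
    pre (bits X) (2 * (k + 1)) = pre (bits X) (2 * k) + 4 ^ k * X k := by
  have e1 : 2 * (k + 1) = 2 * k + 1 + 1 := by ring
  rw [e1, pre_succ, pre_succ]
  have h1 : 2 * k / 2 = k := by omega
  have h2 : (2 * k + 1) / 2 = k := by omega
  have h3 : 2 * k % 2 = 0 := by omega
  have h4 : (2 * k + 1) % 2 = 1 := by omega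
  have h5 : 4 ^ k = 2 ^ (2 * k) := by rw [pow_mul]; norm_num
  have h6 := hX k
  simp only [bits, h1, h2, h3, h4, decide_eq_true_eq, pow_zero, Nat.div_one, pow_one]
  rw [h5, pow_succ]
  generalize X k = x at h6 ⊢
  interval_cases x <;> simp <;> ring

theorem bits_digit {X : ℕ → ℕ} (hX : ∀ i, X i < 4) {k L : ℕ} (h : k < L) :
    pre (bits X) (2 * L) / 4 ^ k % 4 = X k := by
  have e1 : pre (bits X) (2 * L) / 4 ^ k % 4 = pre (bits X) (2 * L) % 4 ^ (k + 1) / 4 ^ k := by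
    rw [pow_succ, Nat.mod_mul_right_div_self]
  have e2 : (4 : ℕ) ^ (k + 1) = 2 ^ (2 * (k + 1)) := by rw [pow_mul]; norm_num
  have e3 : (4 : ℕ) ^ k = 2 ^ (2 * k) := by rw [pow_mul]; norm_num
  rw [e1, e2, pre_mod _ (by omega), pre_bits hX, Nat.add_mul_div_left _ _ (by positivity),
    Nat.div_eq_of_lt (by rw [e3]; exact pre_lt _ _), zero_add]

theorem wd_digit {X : ℕ → ℕ} (hX : ∀ i, X i < 4) {j m : ℕ} (h : j < m) :
    wd X m / 4 ^ (m - (j + 1)) % 4 = X j := by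
  rw [wd_div hX h]
  have := hX j
  simp only [wd]
  omega

def dec4 (L p : ℕ) : ℕ := Nat.rec 0 (fun k w => 4 * w + p / 4 ^ k % 4) L

theorem dec4_spec {X : ℕ → ℕ} (hX : ∀ i, X i < 4) (L : ℕ) :
    dec4 L (pre (bits X) (2 * L)) = wd X L := by
  have h : ∀ k ≤ L, (Nat.rec (motive := fun _ => ℕ) 0
      (fun k w => 4 * w + pre (bits X) (2 * L) / 4 ^ k % 4) k : ℕ) = wd X k := by
    intro k
    induction k with
    | zero => intro _; rfl
    | succ k ih =>
      intro hk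
      simp only [wd]
      rw [ih (by omega), bits_digit hX (by omega)]
  exact h L le_rfl

def enc2 (m w : ℕ) : ℕ :=
  Nat.rec 0 (fun i r => r + (w / 4 ^ (m - (i / 2 + 1)) % 4 / 2 ^ (i % 2) % 2) * 2 ^ i) m

theorem enc2_spec {X : ℕ → ℕ} (hX : ∀ i, X i < 4) (m : ℕ) :
    enc2 m (wd X m) = pre (bits X) m := by
  have h : ∀ k ≤ m, (Nat.rec (motive := fun _ => ℕ) 0
      (fun i r => r + (wd X m / 4 ^ (m - (i / 2 + 1)) % 4 / 2 ^ (i % 2) % 2) * 2 ^ i) k : ℕ) =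
      pre (bits X) k := by
    intro k
    induction k with
    | zero => intro _; simp [pre]
    | succ k ih =>
      intro hk
      simp only
      rw [ih (by omega), wd_digit hX (by omega), pre_succ]
      congr 1
      unfold bits
      have h2 : X (k / 2) / 2 ^ (k % 2) % 2 < 2 := Nat.mod_lt _ (by norm_num)
      by_cases h3 : X (k / 2) / 2 ^ (k % 2) % 2 = 1
      · simp [h3]
      · have h4 : X (k / 2) / 2 ^ (k % 2) % 2 = 0 := by omega
        simp [h4]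
  exact h m le_rfl

theorem prim_dec4 : Primrec₂ dec4 := by
  have h : Primrec₂ (fun (q : ℕ × ℕ) (r : ℕ × ℕ) => 4 * r.2 + q.2 / 4 ^ r.1 % 4) := by
    refine Primrec.nat_add.comp (Primrec.nat_mul.comp (Primrec.const 4) (snd.comp snd)) ?_
    exact Primrec.nat_mod.comp (Primrec.nat_div.comp (snd.comp fst)
      (prim_pow4.comp (fst.comp snd))) (Primrec.const 4)
  exact Primrec.nat_rec' (f := fun q : ℕ × ℕ => q.1) fst (Primrec.const 0) h

theorem prim_enc2 : Primrec₂ enc2 := by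
  have h : Primrec₂ (fun (q : ℕ × ℕ) (r : ℕ × ℕ) =>
      r.2 + (q.2 / 4 ^ (q.1 - (r.1 / 2 + 1)) % 4 / 2 ^ (r.1 % 2) % 2) * 2 ^ r.1) := by
    have e1 : Primrec (fun x : (ℕ × ℕ) × (ℕ × ℕ) => x.2.1) := fst.comp snd
    have e2 : Primrec (fun x : (ℕ × ℕ) × (ℕ × ℕ) => x.1.1 - (x.2.1 / 2 + 1)) :=
      Primrec.nat_sub.comp (fst.comp fst)
        (Primrec.succ.comp (Primrec.nat_div.comp e1 (Primrec.const 2)))
    have e3 : Primrec (fun x : (ℕ × ℕ) × (ℕ × ℕ) =>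
        x.1.2 / 4 ^ (x.1.1 - (x.2.1 / 2 + 1)) % 4) :=
      Primrec.nat_mod.comp (Primrec.nat_div.comp (snd.comp fst) (prim_pow4.comp e2))
        (Primrec.const 4)
    have e4 : Primrec (fun x : (ℕ × ℕ) × (ℕ × ℕ) =>
        x.1.2 / 4 ^ (x.1.1 - (x.2.1 / 2 + 1)) % 4 / 2 ^ (x.2.1 % 2) % 2) :=
      Primrec.nat_mod.comp (Primrec.nat_div.comp e3
        (prim_pow2.comp (Primrec.nat_mod.comp e1 (Primrec.const 2)))) (Primrec.const 2)
    exact Primrec.nat_add.comp (snd.comp snd) (Primrec.nat_mul.comp e4 (prim_pow2.comp e1))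
  exact Primrec.nat_rec' (f := fun q : ℕ × ℕ => q.1) fst (Primrec.const 0) h

theorem partrec_shift {F : ℕ →. ℕ} (hF : Nat.Partrec F) {u : ℕ → ℕ} (hu : Computable u)
    {d : ℕ → ℕ → ℕ} (hd : Primrec₂ d) :
    Nat.Partrec (fun q => F (Nat.pair q.unpair.1 (d (u q.unpair.1) q.unpair.2))) := by
  refine Partrec.nat_iff.1 ((Partrec.nat_iff.2 hF).comp ?_)
  have e1 : Computable (fun q : ℕ => q.unpair.1) := (fst.comp Primrec.unpair).to_comp
  have e2 : Computable (fun q : ℕ => q.unpair.2) := (snd.comp Primrec.unpair).to_comp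
  exact Primrec₂.natPair.to_comp.comp e1 (hd.to_comp.comp (hu.comp e1) e2)

theorem wtt_iff {X : ℕ → ℕ} (hX : ∀ i, X i < 4) {f : ℕ → ℕ} : Wtt f (bits X) ↔ Wtt4 f X := by
  constructor
  · rintro ⟨u, hu, F, hF, h⟩
    refine ⟨u, hu, _, partrec_shift hF hu prim_enc2, fun n => ?_⟩
    simp only [Nat.unpair_pair]
    rw [enc2_spec hX]
    exact h n
  · rintro ⟨u, hu, F, hF, h⟩
    refine ⟨fun n => 2 * u n, Primrec.nat_mul.to_comp.comp (Computable.const 2) hu, _,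
      partrec_shift hF hu prim_dec4, fun n => ?_⟩
    simp only [Nat.unpair_pair]
    rw [dec4_spec hX]
    exact h n

theorem exists_set : ∃ A : ℕ → Bool,
    (∀ E, NontrivialCeer E → ∃ g : ℕ → ℕ, (∀ x, ¬ E (g x) x) ∧ Wtt g A) ∧
    ∀ f : ℕ → ℕ, (∀ n, f n < 2) → (∀ n, f n ∉ eval (ofNat Code n) n) → ¬ Wtt f A := by
  obtain ⟨X, hX, h1, h2⟩ := exists_oracle
  refine ⟨bits X, fun E hE => ?_, fun f hf1 hf2 h => h2 f hf1 hf2 ((wtt_iff hX).1 h)⟩
  obtain ⟨g, hg, hw⟩ := h1 E hE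
  exact ⟨g, hg, (wtt_iff hX).2 hw⟩

end Helper423Ceer
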